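import Mathlib

/-!
# Frobenius eigenvalues with traces in a field with one place over `p`: definitions
-/

set_option autoImplicit false

namespace Pool.Agent.V8H92.NS

open Module ExteriorAlgebra TensorProduct

section numbers

/-- `t` is a possible value of `β + Q / β` for Weil numbers `β` of absolute value `√Q`: a totally
real algebraic integer all of whose conjugates are at most `2 √Q` in absolute value. -/
def IsTrace {F : Type} [Field F] (Q : ℕ) (t : F) : Prop :=
  IsIntegral ℤ t ∧ ∀ φ : F →+* ℂ, ∃ x : ℝ, φ t = x ∧ x ^ 2 ≤ 4 * (Q : ℝ)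

/-- `t = α ^ N + (q / α) ^ N`. -/
def TraceEq {F Ω : Type} [Field F] [Field Ω] (j : F →+* Ω) (q N : ℕ) (t : F) (α : Ω) : Prop :=
  (α ^ N) ^ 2 - j t * α ^ N + (q : Ω) ^ N = 0

/-- The number `α` in `Ω` has, for some `N > 0`, a trace `α ^ N + (q / α) ^ N` which is the image
under `j` of an element `t` of `F`, a totally real algebraic integer with conjugates at most
`2 √q ^ N` in absolute value. -/
def HasTrace {F Ω : Type} [Field F] [Field Ω] (j : F →+* Ω) (q : ℕ) (α : Ω) : Prop :=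
  ∃ (N : ℕ) (t : F), 0 < N ∧ IsTrace (q ^ N) t ∧ TraceEq j q N t α

/-- The valuation of `x` with the valuation of `q` equal to one. -/
noncomputable def ordq (p : ℕ) [Fact p.Prime] (q : ℕ) (x : PadicAlgCl p) : ℝ :=
  Real.log ‖x‖ / Real.log ‖(q : PadicAlgCl p)‖

/-- All slopes of `α` (the valuations of the `p`-adic conjugates of `α`) are equal to `s`, `1 - s`
or `1 / 2`. -/
def SlopesIn {Ω : Type} [Field Ω] [CharZero Ω] (p : ℕ) [Fact p.Prime] (q : ℕ) (s : ℝ) (α : Ω) :
    Prop :=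
  ∀ x : PadicAlgCl p, Polynomial.aeval x (minpoly ℚ α) = 0 →
    ordq p q x = s ∨ ordq p q x = 1 - s ∨ ordq p q x = 1 / 2

/-- The mean of the numbers `(2 λ - w) ^ 2`, where `λ` runs through the slopes of `β`, with
multiplicities (the valuations of the `p`-adic conjugates of `β`). -/
noncomputable def meanSquare {Ω : Type} [Field Ω] [CharZero Ω] (p : ℕ) [Fact p.Prime] (q w : ℕ)
    (β : Ω) : ℝ :=
  (((minpoly ℚ β).aroots (PadicAlgCl p)).map fun x => (2 * ordq p q x - w) ^ 2).sum /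
    (minpoly ℚ β).natDegree

/-- Whenever a monomial `α ^ A * β ^ B`, `A, B > 0`, in two numbers of the set `E` is, up to a root
of unity, a power of `√q`, then `α * β` is `q` up to a root of unity. -/
def PairwiseTate {Ω : Type} [Field Ω] (q : ℕ) (E : Set Ω) : Prop :=
  ∀ α ∈ E, ∀ β ∈ E, ∀ A B s : ℕ, 0 < A → 0 < B → 0 < s →
    (α ^ A * β ^ B) ^ (2 * s) = (q : Ω) ^ ((A + B) * s) →
    ∃ t : ℕ, 0 < t ∧ (α * β) ^ t = (q : Ω) ^ t

end numbers

section classes

variable {Ω V M : Type} [Field Ω] [AddCommGroup V] [Module Ω V] [AddCommGroup M] [Module Ω M]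

/-- `V` is spanned by eigenvectors of `Fr` with eigenvalues in the set `E`. -/
def SpannedBy (E : Set Ω) (Fr : V →ₗ[Ω] V) : Prop :=
  Submodule.span Ω {v : V | ∃ μ ∈ E, Fr v = μ • v} = ⊤

/-- The Tate classes of degree two in `⋀ V`, over all finite extensions of the field with `q`
elements. -/
def tateTwo (Fr : V →ₗ[Ω] V) (q : ℕ) : Set (ExteriorAlgebra Ω V) :=
  {y | y ∈ ⋀[Ω]^2 V ∧ ∃ t : ℕ, 0 < t ∧ ExteriorAlgebra.map (Fr ^ t) y = (q : Ω) ^ t • y}

/-- All Tate classes in `⋀ V`, over all finite extensions of the field with `q` elements, are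
polynomials in Tate classes of degree two. -/
def TateGenerated (Fr : V →ₗ[Ω] V) (q : ℕ) : Prop :=
  ∀ (k s : ℕ) (x : ExteriorAlgebra Ω V), 0 < s → x ∈ ⋀[Ω]^(2 * k) V →
    ExteriorAlgebra.map (Fr ^ s) x = (q : Ω) ^ (k * s) • x →
    x ∈ Algebra.adjoin Ω (tateTwo Fr q)

/-- The Frobenius on `⋀ V ⊗ M`. -/
noncomputable def frobT (Fr : V →ₗ[Ω] V) (φ : M →ₗ[Ω] M) :
    End Ω (ExteriorAlgebra Ω V ⊗[Ω] M) :=
  TensorProduct.map (ExteriorAlgebra.map Fr).toLinearMap φ

/-- The part `⋀ ^ n V ⊗ M`. -/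
noncomputable def partT (Ω V M : Type) [Field Ω] [AddCommGroup V] [Module Ω V] [AddCommGroup M]
    [Module Ω M] (n : ℕ) : Submodule Ω (ExteriorAlgebra Ω V ⊗[Ω] M) :=
  LinearMap.range (LinearMap.rTensor M (⋀[Ω]^n V).subtype)

/-- The products `y ⊗ m`, where `y` is a Tate class of degree `2 k` which is a polynomial in Tate
classes of degree two, and `m` is killed by `(φ ^ t - q ^ ((c - k) t)) ^ r` for some `t > 0` (for
`r = 1` this means that `m` is a Tate class). -/
def products (Fr : V →ₗ[Ω] V) (φ : M →ₗ[Ω] M) (q c k r : ℕ) :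
    Set (ExteriorAlgebra Ω V ⊗[Ω] M) :=
  {z | ∃ (y : ExteriorAlgebra Ω V) (m : M) (t : ℕ), 0 < t ∧ y ∈ ⋀[Ω]^(2 * k) V ∧
    y ∈ Algebra.adjoin Ω (tateTwo Fr q) ∧ ExteriorAlgebra.map (Fr ^ t) y = (q : Ω) ^ (k * t) • y ∧
    ((φ ^ t - (q : Ω) ^ ((c - k) * t) • (1 : End Ω M)) ^ r) m = 0 ∧ z = y ⊗ₜ m}

/-- Tate classes in `⋀ ^ n V ⊗ M`, where `M` has weight `w`. If `n` is even, then all Tate classes
(and all vectors killed by the `r`-th power of `Frobenius ^ s - q ^ (c s)`) are linear combinations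
of the products of polynomials in Tate classes of degree two in `⋀ V` and of Tate classes in `M`
(of vectors killed by an `r`-th power). If `n` is odd, then there are none, unless a power of an
eigenvalue of `Fr` and of an eigenvalue of `φ` are powers of `√q`. -/
def TimesTate (Fr : V →ₗ[Ω] V) (φ : M →ₗ[Ω] M) (q w : ℕ) : Prop :=
  ∀ (n c s r : ℕ) (x : ExteriorAlgebra Ω V ⊗[Ω] M), 0 < s → 2 * c = n + w → x ∈ partT Ω V M n →
    ((frobT Fr φ ^ s - (q : Ω) ^ (c * s) • (1 : End Ω (ExteriorAlgebra Ω V ⊗[Ω] M))) ^ r) x = 0 →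
    (∀ k, n = 2 * k → x ∈ Submodule.span Ω (products Fr φ q c k r)) ∧
    (∀ k, n = 2 * k + 1 → (∀ α β, End.HasEigenvalue Fr α → End.HasEigenvalue φ β → ∀ t : ℕ,
      0 < t → α ^ (2 * t) = (q : Ω) ^ t → β ^ (2 * t) ≠ (q : Ω) ^ (w * t)) → x = 0)

/-- The Frobenius endomorphism of the direct sum of the spaces `W i`, over extensions of the degrees
`N i` of the ground fields. -/
noncomputable def sumFrob {K ι : Type} {W : ι → Type} [Field K] [∀ i, AddCommGroup (W i)]
    [∀ i, Module K (W i)] (Φ : ∀ i, W i →ₗ[K] W i) (N : ι → ℕ) : (∀ i, W i) →ₗ[K] (∀ i, W i) :=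
  LinearMap.pi fun i => (Φ i ^ N i) ∘ₗ LinearMap.proj i

end classes

section curves

/-- `V` is the cohomology of degree one, with complex coefficients, of the smooth projective model
of the Kloosterman curve `y ^ |k| - y = a x + b / x` over `k`, with the Frobenius endomorphism `Φ`:
`Φ` is semisimple (Weil) and injective, and the trace formula holds (there are two points over
`x = 0` and `x = ∞`). -/
structure IsKloostermanCurve {k : Type} [Field k] [Fintype k] (a b : k) {V : Type}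
    [AddCommGroup V] [Module ℂ V] (Φ : V →ₗ[ℂ] V) : Prop where
  semisimple : Module.End.IsSemisimple Φ
  injective : Function.Injective Φ
  lefschetz : ∀ (E : Type) [Field E] [Fintype E] [Algebra k E],
    (Nat.card {P : E × E // P.1 ≠ 0 ∧ P.2 ^ Fintype.card k - P.2 =
      algebraMap k E a * P.1 + algebraMap k E b * P.1⁻¹} : ℂ) + 2 =
      Fintype.card E + 1 - LinearMap.trace ℂ V (Φ ^ finrank k E)

/-- The cohomology of degree one of an ordinary elliptic curve over the field with `n` elements: the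
Frobenius endomorphism is semisimple and a root of `X ^ 2 - t X + n`, `t ^ 2 ≤ 4 n`, `t` prime to
`p`. -/
def IsOrdinaryElliptic (p n : ℕ) {W : Type} [AddCommGroup W] [Module ℂ W] (Φ : W →ₗ[ℂ] W) :
    Prop :=
  Module.End.IsSemisimple Φ ∧ ∃ t : ℤ, t ^ 2 ≤ 4 * n ∧ ¬ (p : ℤ) ∣ t ∧
    ∀ v, Φ (Φ v) - (t : ℂ) • Φ v + (n : ℂ) • v = 0

/-- The cohomology of degree one of a supersingular abelian variety over the field with `n`
elements. -/
def IsSupersingular (n : ℕ) {W : Type} [AddCommGroup W] [Module ℂ W] (Φ : W →ₗ[ℂ] W) : Prop :=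
  Module.End.IsSemisimple Φ ∧ ∃ M : ℕ, 0 < M ∧ ∀ v, (Φ ^ (2 * M)) v = (n : ℂ) ^ M • v

/-- The cohomology of degree one of a Kloosterman curve, of an ordinary elliptic curve or of a
supersingular abelian variety over a field with `n` elements. -/
def IsPiece (p n : ℕ) {W : Type} [AddCommGroup W] [Module ℂ W] (Φ : W →ₗ[ℂ] W) : Prop :=
  (∃ (k : Type) (_ : Field k) (_ : Fintype k) (a b : k), CharP k p ∧ Fintype.card k = n ∧
    a ≠ 0 ∧ b ≠ 0 ∧ IsKloostermanCurve a b Φ) ∨ IsOrdinaryElliptic p n Φ ∨ IsSupersingular n Φ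

end curves

end Pool.Agent.V8H92.NS
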