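import Mathlib
import Pool.Agent.H485R3.Kron
import Pool.Agent.V8H92.NS.Defs

/-!
# Frobenius eigenvalues with traces in a field with one place over `p`: the decomposition group
-/

set_option autoImplicit false
set_option linter.unusedSectionVars false

namespace Pool.Agent.V8H92.NS

open Module

/-- The field `F` has only one place over `p`: the automorphisms of the algebraic closure of `ℚ_p`
act transitively on the embeddings of `F` in this algebraic closure. -/
def OnePlace (p : ℕ) [Fact p.Prime] (F : Type) [Field F] : Prop :=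
  ∀ τ τ' : F →+* PadicAlgCl p,
    ∃ δ : PadicAlgCl p ≃ₐ[ℚ_[p]] PadicAlgCl p, ∀ x, δ (τ x) = τ' x

variable {p : ℕ} [hp : Fact p.Prime] {L : Type} [Field L] [NumberField L] [IsGalois ℚ L]

lemma norm_gal (σ : PadicAlgCl p ≃ₐ[ℚ_[p]] PadicAlgCl p) (x : PadicAlgCl p) : ‖σ x‖ = ‖x‖ := by
  rw [← PadicAlgCl.spectralNorm_eq, ← PadicAlgCl.spectralNorm_eq]
  exact (spectralNorm_eq_of_equiv σ x).symm

/-- Two embeddings of a normal extension differ by an automorphism. -/
lemma exists_aut {K : Type*} [Field K] [CharZero K] (μ e : L →+* K) :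
    ∃ g : L ≃ₐ[ℚ] L, ∀ x, e x = μ (g x) := by
  let _ : Algebra L K := μ.toAlgebra
  have _ : IsScalarTower ℚ L K := IsScalarTower.of_algebraMap_eq' (RingHom.ext_rat _ _)
  refine ⟨Normal.algHomEquivAut ℚ K L e.toRatAlgHom, fun x => ?_⟩
  have h1 := (Normal.algHomEquivAut ℚ K L).symm_apply_apply e.toRatAlgHom
  have h2 := DFunLike.congr_fun h1 x
  exact h2.symm

/-- The decomposition group of `F` is everything. -/
lemma exists_decomp {F : Type} [Field F] (hF : OnePlace p F) (i : F →+* L)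
    (μ : L →+* PadicAlgCl p) (g : L ≃ₐ[ℚ] L) :
    ∃ v : L ≃ₐ[ℚ] L, (∀ x, v (i x) = i x) ∧ ∀ x, ‖μ (g x)‖ = ‖μ (v x)‖ := by
  obtain ⟨δ, hδ⟩ := hF (μ.comp i) ((μ.comp (g : L →+* L)).comp i)
  obtain ⟨h, hh⟩ := exists_aut μ ((δ : PadicAlgCl p →+* PadicAlgCl p).comp μ)
  have hh' : ∀ x, δ (μ x) = μ (h x) := hh
  refine ⟨h⁻¹ * g, fun x => ?_, fun x => ?_⟩
  · have h1 : h (i x) = g (i x) := by
      apply μ.injective
      rw [← hh' (i x)]
      exact hδ x
    rw [AlgEquiv.mul_apply, ← h1]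
    exact h.symm_apply_apply _
  · have h2 : μ (g x) = δ (μ ((h⁻¹ * g) x)) := by
      rw [hh']
      congr 1
      rw [AlgEquiv.mul_apply]
      exact (h.apply_symm_apply _).symm
    rw [h2, norm_gal]

/-- The deviation of the slope of `x` from `w / 2` (multiplied by `log ‖q‖`). -/
noncomputable def dev (μ : L →+* PadicAlgCl p) (q : ℕ) (w : ℕ) (x : L) : ℝ :=
  Real.log ‖μ x‖ - w * (Real.log ‖(q : PadicAlgCl p)‖ / 2)

/-- The automorphisms that are the identity on `F`. -/
def fixer {F : Type} [Field F] (i : F →+* L) : Subgroup (L ≃ₐ[ℚ] L) where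
  carrier := {v | ∀ x, v (i x) = i x}
  mul_mem' := by
    intro a b ha hb x
    rw [AlgEquiv.mul_apply, hb, ha]
  one_mem' := fun x => rfl
  inv_mem' := by
    intro a ha x
    conv_lhs => rw [← ha x]
    exact a.symm_apply_apply _

variable {F : Type} [Field F] {i : F →+* L} {μ : L →+* PadicAlgCl p} {q : ℕ}

lemma trace_ne {N : ℕ} (hN : 0 < N) (hq : 0 < q) {t : F} {a : L} (h : TraceEq i q N t a) :
    a ≠ 0 := by
  rintro rfl
  unfold TraceEq at h
  rw [zero_pow hN.ne', mul_zero, sub_zero, zero_pow two_ne_zero, zero_add] at h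
  have : (q : L) ≠ 0 := by exact_mod_cast hq.ne'
  exact pow_ne_zero N this h

/-- An automorphism over `F` fixes `a ^ N` or maps it to its conjugate. -/
lemma fixer_apply {N : ℕ} {t : F} {a : L} (h : TraceEq i q N t a) {v : L ≃ₐ[ℚ] L}
    (hv : v ∈ fixer i) : v a ^ N = a ^ N ∨ v a ^ N * a ^ N = (q : L) ^ N := by
  have h1 : TraceEq i q N t (v a) := by
    have h2 := congrArg v h
    rw [map_zero, map_add, map_sub, map_mul, hv t, map_pow, map_pow, map_pow, map_natCast] at h2
    exact h2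
  unfold TraceEq at h h1
  have h3 : (v a ^ N - a ^ N) * (v a ^ N * a ^ N - (q : L) ^ N) = 0 := by
    linear_combination a ^ N * h1 - v a ^ N * h
  rcases mul_eq_zero.1 h3 with h4 | h4
  · exact Or.inl (sub_eq_zero.1 h4)
  · exact Or.inr (sub_eq_zero.1 h4)

lemma norm_q_pos (hq : 0 < q) : 0 < ‖(q : PadicAlgCl p)‖ := by
  rw [norm_pos_iff]
  exact_mod_cast hq.ne'

/-- The sign of an automorphism over `F`. -/
lemma exists_sign {N : ℕ} (hN : 0 < N) (hq : 0 < q) {t : F} {a : L} (h : TraceEq i q N t a)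
    (μ : L →+* PadicAlgCl p) :
    ∃ χ : fixer i →* ℝ, (∀ v, χ v = 1 ∨ χ v = -1) ∧ (∀ v : fixer i, dev μ q 1 (v.1 a) =
      χ v * dev μ q 1 a) := by
  classical
  have ha := trace_ne hN hq h
  have hq' : (q : L) ≠ 0 := by exact_mod_cast hq.ne'
  have hNR : (N : ℝ) ≠ 0 := by exact_mod_cast hN.ne'
  have hfix : ∀ v : fixer i, v.1 a ^ N = a ^ N → dev μ q 1 (v.1 a) = dev μ q 1 a := by
    intro v hv
    have h1 : ‖μ (v.1 a)‖ ^ N = ‖μ a‖ ^ N := by
      rw [← norm_pow, ← map_pow, hv, map_pow, norm_pow]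
    have h2 : ‖μ (v.1 a)‖ = ‖μ a‖ :=
      (pow_left_inj₀ (norm_nonneg _) (norm_nonneg _) hN.ne').1 h1
    unfold dev
    rw [h2]
  have hflip : ∀ v : fixer i, v.1 a ^ N * a ^ N = (q : L) ^ N →
      dev μ q 1 (v.1 a) = - dev μ q 1 a := by
    intro v hv
    have h1 : (‖μ (v.1 a)‖ * ‖μ a‖) ^ N = ‖(q : PadicAlgCl p)‖ ^ N := by
      have e1 : μ (v.1 a ^ N * a ^ N) = μ (v.1 a) ^ N * μ a ^ N := by
        rw [map_mul, map_pow μ, map_pow μ]
      rw [hv, map_pow, map_natCast] at e1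
      rw [mul_pow, ← norm_pow, ← norm_pow, ← norm_mul, ← e1, norm_pow]
    have h2 : ‖μ (v.1 a)‖ * ‖μ a‖ = ‖(q : PadicAlgCl p)‖ :=
      (pow_left_inj₀ (by positivity) (norm_nonneg _) hN.ne').1 h1
    have h3 : ‖μ a‖ ≠ 0 := by
      rw [norm_ne_zero_iff]; exact (map_ne_zero μ).2 ha
    have h4 : ‖μ (v.1 a)‖ ≠ 0 := by
      rw [norm_ne_zero_iff]
      exact (map_ne_zero μ).2 ((map_ne_zero_iff _ v.1.injective).2 ha)
    unfold dev
    rw [← h2, Real.log_mul h4 h3]
    push_cast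
    ring
  by_cases h0 : a ^ N * a ^ N = (q : L) ^ N
  · -- self-dual
    refine ⟨1, fun v => Or.inl rfl, fun v => ?_⟩
    rw [MonoidHom.one_apply, one_mul]
    rcases fixer_apply h v.2 with h1 | h1
    · exact hfix v h1
    · apply hfix v
      have h2 : v.1 a ^ N * a ^ N = a ^ N * a ^ N := by rw [h1, h0]
      exact mul_right_cancel₀ (pow_ne_zero N ha) h2
  · have hex : ∀ v : fixer i, ¬ (v.1 a ^ N = a ^ N) → v.1 a ^ N * a ^ N = (q : L) ^ N :=
      fun v hv => (fixer_apply h v.2).resolve_left hv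
    have hnot : ∀ v : fixer i, v.1 a ^ N * a ^ N = (q : L) ^ N → ¬ (v.1 a ^ N = a ^ N) := by
      intro v h1 h2
      rw [h2] at h1
      exact h0 h1
    let f : fixer i → ℝ := fun v => if v.1 a ^ N = a ^ N then 1 else -1
    have hf1 : ∀ v, v.1 a ^ N = a ^ N → f v = 1 := fun v hv => if_pos hv
    have hf2 : ∀ v, ¬ (v.1 a ^ N = a ^ N) → f v = -1 := fun v hv => if_neg hv
    have hmul : ∀ v w, f (v * w) = f v * f w := by
      intro v w
      have hvw : (v * w).1 a = v.1 (w.1 a) := rfl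
      by_cases hw : w.1 a ^ N = a ^ N
      · have e1 : (v * w).1 a ^ N = v.1 a ^ N := by
          rw [hvw, ← map_pow, hw, map_pow]
        rw [hf1 w hw, mul_one]
        by_cases hv : v.1 a ^ N = a ^ N
        · rw [hf1 v hv, hf1 _ (by rw [e1, hv])]
        · rw [hf2 v hv, hf2 _ (by rw [e1]; exact hv)]
      · have hw' := hex w hw
        have e1 : (v * w).1 a ^ N * v.1 a ^ N = (q : L) ^ N := by
          have := congrArg v.1 hw'
          rw [map_mul, map_pow, map_pow, map_pow, map_natCast] at this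
          rw [hvw]
          exact this
        rw [hf2 w hw]
        by_cases hv : v.1 a ^ N = a ^ N
        · rw [hf1 v hv, hf2 _ (hnot _ (by rw [hv] at e1; exact e1))]
          ring
        · have hv' := hex v hv
          rw [hf2 v hv, hf1 (v * w) ?_]
          · ring
          · have h5 : (v * w).1 a ^ N * v.1 a ^ N = a ^ N * v.1 a ^ N := by
              rw [e1, mul_comm (a ^ N), hv']
            exact mul_right_cancel₀ (pow_ne_zero N ((map_ne_zero_iff _ v.1.injective).2 ha)) h5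
    refine ⟨⟨⟨f, hf1 1 rfl⟩, hmul⟩, fun v => ?_, fun v => ?_⟩
    · by_cases hv : v.1 a ^ N = a ^ N
      · exact Or.inl (hf1 v hv)
      · exact Or.inr (hf2 v hv)
    · change _ = f v * _
      by_cases hv : v.1 a ^ N = a ^ N
      · rw [hf1 v hv, hfix v hv, one_mul]
      · rw [hf2 v hv, hflip v (hex v hv)]
        ring

end Pool.Agent.V8H92.NS
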