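import Mathlib
import Pool.Agent.V8H92.NS.Core

/-!
# Sums of characters with values `± 1`
-/

set_option autoImplicit false
set_option linter.unusedSectionVars false

namespace Pool.Agent.V8H92.NS

open Module

section chars

variable {V : Type*} [Group V] [Fintype V]

lemma sum_char_eq_zero (χ : V →* ℝ) (h : χ ≠ 1) : ∑ v, χ v = 0 := by
  obtain ⟨w, hw⟩ : ∃ w, χ w ≠ 1 := by
    by_contra hcon
    push Not at hcon
    exact h (MonoidHom.ext hcon)
  have h1 : ∑ v, χ v = χ w * ∑ v, χ v := by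
    rw [Finset.mul_sum, ← Equiv.sum_comp (Equiv.mulLeft w)]
    refine Finset.sum_congr rfl fun v _ => ?_
    rw [Equiv.coe_mulLeft, map_mul]
  have h2 : (χ w - 1) * ∑ v, χ v = 0 := by linear_combination -h1
  exact (mul_eq_zero.1 h2).resolve_left (sub_ne_zero.2 hw)

open Classical in
/-- The coefficient of a character is bounded by the mean square. -/
lemma coeff_sq_le {ι : Type*} [Fintype ι] (χ : ι → V →* ℝ) (c : ι → ℝ) (χ₀ : V →* ℝ) (hχ₀ : ∀ v, χ₀ v = 1 ∨ χ₀ v = -1) :
    (Fintype.card V : ℝ) * (∑ i ∈ Finset.univ.filter (fun i => χ i = χ₀), c i) ^ 2 ≤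
      ∑ v, (∑ i, χ i v * c i) ^ 2 := by
  set C := ∑ i ∈ Finset.univ.filter (fun i => χ i = χ₀), c i with hC
  have h1 : ∑ v, χ₀ v * (∑ i, χ i v * c i) = Fintype.card V * C := by
    calc ∑ v, χ₀ v * (∑ i, χ i v * c i) = ∑ v, ∑ i, (χ₀ v * χ i v) * c i := by
          refine Finset.sum_congr rfl fun v _ => ?_
          rw [Finset.mul_sum]
          refine Finset.sum_congr rfl fun i _ => by ring
      _ = ∑ i, (∑ v, χ₀ v * χ i v) * c i := by
          rw [Finset.sum_comm]
          refine Finset.sum_congr rfl fun i _ => by rw [Finset.sum_mul]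
      _ = ∑ i, (if χ i = χ₀ then (Fintype.card V : ℝ) * c i else 0) := by
          refine Finset.sum_congr rfl fun i _ => ?_
          split_ifs with h
          · rw [h]
            congr 1
            have : ∀ v, χ₀ v * χ₀ v = 1 := by
              intro v
              rcases hχ₀ v with h | h <;> rw [h] <;> norm_num
            simp [this]
          · have h2 : ∑ v, χ₀ v * χ i v = 0 := by
              have h3 := sum_char_eq_zero (χ₀ * χ i) (by
                intro h4
                apply h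
                ext v
                have h5 := DFunLike.congr_fun h4 v
                rw [MonoidHom.mul_apply, MonoidHom.one_apply] at h5
                rcases hχ₀ v with h6 | h6 <;> rw [h6] at h5 ⊢ <;> linarith)
              simpa using h3
            rw [h2, zero_mul]
      _ = Fintype.card V * C := by
          rw [← Finset.sum_filter, ← Finset.mul_sum]
  have h2 : (∑ v, χ₀ v * (∑ i, χ i v * c i)) ^ 2 ≤
      (∑ v, (χ₀ v) ^ 2) * ∑ v, (∑ i, χ i v * c i) ^ 2 :=
    Finset.sum_mul_sq_le_sq_mul_sq _ _ _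
  have h3 : ∑ v, (χ₀ v) ^ 2 = (Fintype.card V : ℝ) := by
    have : ∀ v, (χ₀ v) ^ 2 = 1 := by
      intro v
      rcases hχ₀ v with h | h <;> rw [h] <;> norm_num
    simp [this]
  rw [h1, h3] at h2
  have h4 : (0 : ℝ) < Fintype.card V := by exact_mod_cast Fintype.card_pos
  have h5 : (Fintype.card V : ℝ) * ((Fintype.card V : ℝ) * C ^ 2) ≤
      (Fintype.card V : ℝ) * ∑ v, (∑ i, χ i v * c i) ^ 2 := by
    calc _ = ((Fintype.card V : ℝ) * C) ^ 2 := by ring
      _ ≤ _ := h2
  exact le_of_mul_le_mul_left h5 h4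

/-- If the sum of a family vanishes and one term does not, some term has the opposite sign. -/
lemma exists_opposite {ι : Type*} (s : Finset ι) (c : ι → ℝ) (h : ∑ i ∈ s, c i = 0) {i₀ : ι}
    (hi₀ : i₀ ∈ s) (hc : c i₀ ≠ 0) : ∃ i ∈ s, c i * c i₀ < 0 := by
  by_contra hcon
  push Not at hcon
  have h1 : ∑ i ∈ s, c i * c i₀ = 0 := by rw [← Finset.sum_mul, h, zero_mul]
  have h2 := (Finset.sum_eq_zero_iff_of_nonneg hcon).1 h1 i₀ hi₀
  exact hc (mul_self_eq_zero.1 h2)

end chars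

variable {p : ℕ} [hp : Fact p.Prime] {L : Type} [Field L] [NumberField L] [IsGalois ℚ L]
  {F : Type} [Field F] {i : F →+* L} {μ : L →+* PadicAlgCl p} {q : ℕ}

/-- A sum of the squares of the deviations over the Galois group. -/
lemma coeff_sq_le_sum (hF : OnePlace p F) {n : ℕ} (a : Fin n → L) (χ : Fin n → fixer i →* ℝ)
    (hdev : ∀ k (v : fixer i), dev μ q 1 (v.1 (a k)) = χ k v * dev μ q 1 (a k))
    (u : (L ≃ₐ[ℚ] L) → ℝ) (hu : ∀ g : L ≃ₐ[ℚ] L, ∑ k, dev μ q 1 (g (a k)) + u g = 0)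
    (χ₀ : fixer i →* ℝ) (hχ₀ : ∀ v, χ₀ v = 1 ∨ χ₀ v = -1) [DecidablePred fun k => χ k = χ₀] :
    (Fintype.card (L ≃ₐ[ℚ] L) : ℝ) *
      (∑ k ∈ Finset.univ.filter (fun k => χ k = χ₀), dev μ q 1 (a k)) ^ 2 ≤ ∑ g, u g ^ 2 := by
  classical
  let _ : Fintype (fixer i) := Fintype.ofFinite _
  set C := ∑ k ∈ Finset.univ.filter (fun k => χ k = χ₀), dev μ q 1 (a k) with hC
  have h0 : (0 : ℝ) < Fintype.card (fixer i) := by exact_mod_cast Fintype.card_pos
  have key : ∀ g : L ≃ₐ[ℚ] L, (Fintype.card (fixer i) : ℝ) * C ^ 2 ≤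
      ∑ v : fixer i, u (g * v.1) ^ 2 := by
    intro g
    obtain ⟨w, hw1, hw2⟩ := exists_decomp hF i μ g
    have h1 := coeff_sq_le χ (fun k => dev μ q 1 (a k)) χ₀ hχ₀
    have h2 : ∑ v : fixer i, u (g * v.1) ^ 2 =
        ∑ v : fixer i, (∑ k, χ k v * dev μ q 1 (a k)) ^ 2 := by
      rw [← Equiv.sum_comp (Equiv.mulLeft (⟨w, hw1⟩ : fixer i))
        (fun v : fixer i => (∑ k, χ k v * dev μ q 1 (a k)) ^ 2)]
      refine Finset.sum_congr rfl fun v _ => ?_
      have h3 : u (g * v.1) = - ∑ k, χ k (⟨w, hw1⟩ * v) * dev μ q 1 (a k) := by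
        have h4 := hu (g * v.1)
        have h5 : ∀ k, dev μ q 1 ((g * v.1) (a k)) =
            χ k (⟨w, hw1⟩ * v) * dev μ q 1 (a k) := by
          intro k
          rw [← hdev]
          unfold dev
          rw [AlgEquiv.mul_apply, hw2]
          rfl
        rw [Finset.sum_congr rfl fun k _ => h5 k] at h4
        linarith
      rw [h3, neg_sq]
      rfl
    rw [h2]
    convert h1 using 2
    rw [hC]
    congr 1
    refine Finset.sum_congr ?_ fun _ _ => rfl
    ext k
    simp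
  have h6 : ∑ g : L ≃ₐ[ℚ] L, ∑ v : fixer i, u (g * v.1) ^ 2 =
      Fintype.card (fixer i) * ∑ g, u g ^ 2 := by
    rw [Finset.sum_comm]
    have : ∀ v : fixer i, ∑ g : L ≃ₐ[ℚ] L, u (g * v.1) ^ 2 = ∑ g, u g ^ 2 := by
      intro v
      exact Equiv.sum_comp (Equiv.mulRight v.1) (fun g => u g ^ 2)
    rw [Finset.sum_congr rfl fun v _ => this v, Finset.sum_const, Finset.card_univ,
      nsmul_eq_mul]
  have h7 : (Fintype.card (L ≃ₐ[ℚ] L) : ℝ) * ((Fintype.card (fixer i) : ℝ) * C ^ 2) ≤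
      Fintype.card (fixer i) * ∑ g, u g ^ 2 := by
    rw [← h6, ← nsmul_eq_mul, ← Finset.card_univ, ← Finset.sum_const]
    exact Finset.sum_le_sum fun g _ => key g
  refine le_of_mul_le_mul_left ?_ h0
  calc _ = (Fintype.card (L ≃ₐ[ℚ] L) : ℝ) * ((Fintype.card (fixer i) : ℝ) * C ^ 2) := by ring
    _ ≤ _ := h7

end Pool.Agent.V8H92.NS
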