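import Mathlib
import Pool.Agent.R940.Slope
import Pool.Agent.V8H92.NS.Chars

/-!
# Weil numbers with traces in `F`: absolute values and roots of unity
-/

set_option autoImplicit false
set_option linter.unusedSectionVars false

namespace Pool.Agent.V8H92.NS

open Module

variable {p : ℕ} [hp : Fact p.Prime] {L : Type} [Field L] [NumberField L] [IsGalois ℚ L]
  {F : Type} [Field F] {i : F →+* L} {μ : L →+* PadicAlgCl p} {q : ℕ}

/-- Roots of `x ^ 2 - t x + Q` with `t` real, `t ^ 2 ≤ 4 Q`, have absolute value `√Q`. -/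
lemma norm_sq_of_real {z : ℂ} {t Q : ℝ} (h : z ^ 2 - t * z + Q = 0) (ht : t ^ 2 ≤ 4 * Q) :
    ‖z‖ ^ 2 = Q := by
  have h1 := congrArg Complex.re h
  have h2 := congrArg Complex.im h
  simp only [pow_two, Complex.add_re, Complex.sub_re, Complex.mul_re, Complex.ofReal_re,
    Complex.ofReal_im, Complex.add_im, Complex.sub_im, Complex.mul_im, Complex.zero_re,
    Complex.zero_im] at h1 h2
  rw [← Complex.normSq_eq_norm_sq, Complex.normSq_apply]
  have h3 : z.im * (2 * z.re - t) = 0 := by linarith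
  rcases mul_eq_zero.1 h3 with h4 | h4
  · rw [h4] at h1 ⊢
    have h5 : (2 * z.re - t) ^ 2 = t ^ 2 - 4 * Q := by nlinarith
    have h6 : (2 * z.re - t) ^ 2 = 0 := le_antisymm (by rw [h5]; linarith) (sq_nonneg _)
    have h7 : 2 * z.re = t := by
      have := pow_eq_zero_iff (two_ne_zero) |>.1 h6
      linarith
    nlinarith
  · have h7 : t = 2 * z.re := by linarith
    rw [h7] at h1
    nlinarith

lemma complex_norm {N : ℕ} (hN : 0 < N) {t : F} {a : L} (h : TraceEq i q N t a)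
    (ht : IsTrace (q ^ N) t) (φ : L →+* ℂ) : ‖φ a‖ ^ 2 = q := by
  obtain ⟨x, hx, hx2⟩ := ht.2 (φ.comp i)
  have h1 := congrArg φ h
  unfold TraceEq at h
  rw [map_add, map_sub, map_mul, map_pow, map_pow, map_pow, map_natCast, map_zero] at h1
  have h2 : (φ a ^ N) ^ 2 - (x : ℂ) * φ a ^ N + (((q : ℝ) ^ N : ℝ) : ℂ) = 0 := by
    rw [← hx]
    push_cast
    exact h1
  have h3 := norm_sq_of_real h2 (by push_cast at hx2; exact hx2)
  rw [norm_pow, ← pow_mul, mul_comm, pow_mul] at h3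
  exact (pow_left_inj₀ (by positivity) (by positivity) hN.ne').1 h3

lemma isIntegral_of_trace {Ω : Type} [Field Ω] {j : F →+* Ω} {N : ℕ} (hN : 0 < N) {t : F} {a : Ω}
    (h : TraceEq j q N t a) (ht : IsIntegral ℤ t) : IsIntegral ℤ a := by
  have h1 : IsIntegral ℤ (j t) := ht.map j.toIntAlgHom
  have h2 : IsIntegral ℤ (a ^ N) := by
    have h3 : IsIntegral (integralClosure ℤ Ω) (a ^ N) := by
      refine ⟨Polynomial.X ^ 2 - Polynomial.C (⟨j t, h1⟩ : integralClosure ℤ Ω) * Polynomial.X +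
        Polynomial.C ((q : integralClosure ℤ Ω) ^ N), ?_, ?_⟩
      · monicity!
      · unfold TraceEq at h
        simp only [Polynomial.eval₂_add, Polynomial.eval₂_sub, Polynomial.eval₂_mul,
          Polynomial.eval₂_pow, Polynomial.eval₂_X, Polynomial.eval₂_C, map_pow, map_natCast,
          Polynomial.eval₂_natCast]
        exact h
    exact isIntegral_trans _ h3
  exact IsIntegral.of_pow hN h2

lemma norm_le_one_of_isIntegral (l : ℕ) [Fact l.Prime] (z : PadicAlgCl l)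
    (hz : IsIntegral ℤ z) : ‖z‖ ≤ 1 := by
  have h1 := (Valuation.integer.integers
    (Valued.v : Valuation (PadicAlgCl l) NNReal)).mem_of_integral
    (hz.tower_top (A := (Valued.v : Valuation (PadicAlgCl l) NNReal).integer))
  rw [← PadicAlgCl.valuation_coe l z]
  exact_mod_cast h1

lemma norm_natCast_eq_one {l : ℕ} [Fact l.Prime] (hl : l ≠ p) {m : ℕ} (hq : q = p ^ m) :
    ‖(q : PadicAlgCl l)‖ = 1 := by
  have h4 : (q : PadicAlgCl l) = algebraMap ℚ_[l] (PadicAlgCl l) (q : ℚ_[l]) := by simp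
  rw [h4, PadicAlgCl.norm_extends, Padic.norm_natCast_eq_one_iff, hq]
  exact Nat.Coprime.pow_right m
    ((Nat.coprime_primes (Fact.out : l.Prime) (Fact.out : p.Prime)).2 hl)

/-- Weil numbers are units outside `p`. -/
lemma norm_eq_one_of_ne {m : ℕ} (hq : q = p ^ m) {N : ℕ} (hN : 0 < N) {t : F} {a : L}
    (h : TraceEq i q N t a) (ht : IsIntegral ℤ t) (l : ℕ) [Fact l.Prime] (hl : l ≠ p)
    (e : L →+* PadicAlgCl l) : ‖e a‖ = 1 := by
  have ha := isIntegral_of_trace hN h ht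
  have h1 : ‖e a‖ ≤ 1 := norm_le_one_of_isIntegral l _ (ha.map e.toIntAlgHom)
  have hb : IsIntegral ℤ (i t - a ^ N) := (ht.map i.toIntAlgHom).sub (ha.pow N)
  have h2 : ‖e (i t - a ^ N)‖ ≤ 1 := norm_le_one_of_isIntegral l _ (hb.map e.toIntAlgHom)
  have h3 : a ^ N * (i t - a ^ N) = (q : L) ^ N := by
    unfold TraceEq at h
    linear_combination -h
  have h4 : ‖e a‖ ^ N * ‖e (i t - a ^ N)‖ = 1 := by
    rw [← norm_pow, ← map_pow, ← norm_mul, ← map_mul, h3, map_pow, map_natCast, norm_pow,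
      norm_natCast_eq_one hl hq, one_pow]
  by_contra hne
  have h5 : ‖e a‖ < 1 := lt_of_le_of_ne h1 hne
  have h6 : ‖e a‖ ^ N < 1 := pow_lt_one₀ (norm_nonneg _) h5 hN.ne'
  have h7 : ‖e a‖ ^ N * ‖e (i t - a ^ N)‖ < 1 := by
    calc _ ≤ ‖e a‖ ^ N * 1 := mul_le_mul_of_nonneg_left h2 (by positivity)
      _ < 1 := by rw [mul_one]; exact h6
  linarith

/-- A number all of whose absolute values are one is a root of unity. -/
lemma root_of_unity (μ : L →+* PadicAlgCl p) (z : L)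
    (h1 : ∀ (l : ℕ) [Fact l.Prime], l ≠ p → ∀ e : L →+* PadicAlgCl l, ‖e z‖ = 1)
    (h2 : ∀ g : L ≃ₐ[ℚ] L, ‖μ (g z)‖ = 1) (h3 : ∀ φ : L →+* ℂ, ‖φ z‖ = 1) :
    ∃ n : ℕ, 0 < n ∧ z ^ n = 1 := by
  refine Pool.Agent.H485R3.pow_eq_one_of_norm z
    (Pool.Agent.H485R3.isIntegral_of_norm_le z ?_) fun φ => h3 φ
  intro l _ e
  by_cases hl : l = p
  · subst hl
    obtain ⟨g, hg⟩ := exists_aut μ (e : L →+* PadicAlgCl l)
    have : e z = μ (g z) := hg z
    rw [this, h2]
  · exact (h1 l hl e).le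

/-- The absolute values of elements of the algebraic closure of `ℚ_p` are rational powers of `p`. -/
lemma exists_rat_norm {y : PadicAlgCl p} (hy : y ≠ 0) :
    ∃ r : ℚ, Real.log ‖y‖ = r * Real.log p := by
  obtain ⟨N, k, hN, -, h⟩ := Pool.Agent.R940.exists_slope (p := p)
    (P := minpoly ℚ_[p] y) (minpoly.ne_zero (Algebra.IsIntegral.isIntegral y))
    (minpoly.aeval ℚ_[p] y) hy
  have hNR : (N : ℝ) ≠ 0 := by exact_mod_cast hN.ne'
  refine ⟨-k / N, ?_⟩
  have h1 := congrArg Real.log h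
  rw [Real.log_pow, Real.log_zpow] at h1
  push_cast at h1 ⊢
  field_simp
  linarith

/-- Deviations are rational. -/
lemma exists_rat_dev (hq : 0 < q) (μ : L →+* PadicAlgCl p) {x : L} (hx : x ≠ 0) (w : ℕ) :
    ∃ r : ℚ, dev μ q w x = r * Real.log p := by
  obtain ⟨r, hr⟩ := exists_rat_norm (p := p) (y := μ x) ((map_ne_zero μ).2 hx)
  obtain ⟨s, hs⟩ := exists_rat_norm (p := p) (y := (q : PadicAlgCl p)) (by exact_mod_cast hq.ne')
  refine ⟨r - w * (s / 2), ?_⟩
  unfold dev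
  rw [hr, hs]
  push_cast
  ring

/-- Deviations of opposite sign are commensurable. -/
lemma exists_combination (hq : 0 < q) (μ : L →+* PadicAlgCl p) {x y : L} (hx : x ≠ 0)
    (hy : y ≠ 0) (h : dev μ q 1 x * dev μ q 1 y < 0) :
    ∃ A B : ℕ, 0 < A ∧ 0 < B ∧ A * dev μ q 1 x + B * dev μ q 1 y = 0 := by
  obtain ⟨r, hr⟩ := exists_rat_dev hq μ hx 1
  obtain ⟨s, hs⟩ := exists_rat_dev hq μ hy 1
  rw [hr, hs] at h ⊢
  have hrs : r * s < 0 := by
    by_contra hcon
    push Not at hcon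
    have : (0 : ℝ) ≤ (r * s : ℚ) := by exact_mod_cast hcon
    push_cast at this
    nlinarith [mul_self_nonneg (Real.log p)]
  have hr0 : r ≠ 0 := by rintro rfl; simp at hrs
  have hs0 : s ≠ 0 := by rintro rfl; simp at hrs
  have hc : 0 < -s / r := by
    rcases lt_or_gt_of_ne hr0 with h1 | h1
    · have : 0 < s := by nlinarith
      exact div_pos_of_neg_of_neg (by linarith) h1
    · have : s < 0 := by nlinarith
      exact div_pos (by linarith) h1
  set c : ℚ := -s / r with hcdef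
  have hnum : 0 < c.num := Rat.num_pos.2 hc
  refine ⟨c.num.toNat, c.den, by omega, c.pos, ?_⟩
  have h1 : ((c.num.toNat : ℕ) : ℚ) = c * c.den := by
    have h2 : ((c.num.toNat : ℕ) : ℤ) = c.num := Int.toNat_of_nonneg hnum.le
    have h3 : ((c.num.toNat : ℕ) : ℚ) = (c.num : ℚ) := by exact_mod_cast h2
    rw [h3, Rat.mul_den_eq_num]
  have h2 : ((c.num.toNat : ℕ) : ℚ) * r + (c.den : ℚ) * s = 0 := by
    rw [h1, hcdef]
    field_simp
    ring
  have h3 : ((((c.num.toNat : ℕ) : ℚ) * r + (c.den : ℚ) * s : ℚ) : ℝ) = 0 := by rw [h2]; simp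
  push_cast at h3 ⊢
  linear_combination (Real.log p) * h3

end Pool.Agent.V8H92.NS
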