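import Mathlib
import Pool.Agent.V8H92.NS.Roots

/-!
# Weil numbers with traces in `F`: multiplicative relations come from pairs
-/

set_option autoImplicit false
set_option linter.unusedSectionVars false

namespace Pool.Agent.V8H92.NS

open Module

variable {p : ℕ} [hp : Fact p.Prime] {L : Type} [Field L] [NumberField L] [IsGalois ℚ L]
  {F : Type} [Field F] {i : F →+* L} {μ : L →+* PadicAlgCl p} {q : ℕ}

/-- If the deviations of `a` and `b` cancel then `a ^ A * b ^ B` is, up to a root of unity, a power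
of `√q`. -/
lemma tate_of_dev {m : ℕ} (hqm : q = p ^ m) (μ : L →+* PadicAlgCl p) {N N' : ℕ} (hN : 0 < N)
    (hN' : 0 < N') {t t' : F} {a b : L} (ha : TraceEq i q N t a) (hb : TraceEq i q N' t' b)
    (ht : IsTrace (q ^ N) t) (ht' : IsTrace (q ^ N') t') {A B : ℕ}
    (h : ∀ g : L ≃ₐ[ℚ] L, A * dev μ q 1 (g a) + B * dev μ q 1 (g b) = 0) :
    ∃ s : ℕ, 0 < s ∧ (a ^ A * b ^ B) ^ (2 * s) = (q : L) ^ ((A + B) * s) := by
  have hq : 0 < q := by rw [hqm]; exact pow_pos hp.out.pos m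
  have hq0 : (q : L) ≠ 0 := by exact_mod_cast hq.ne'
  have ha0 := trace_ne hN hq ha
  have hb0 := trace_ne hN' hq hb
  set z : L := (a ^ A * b ^ B) ^ 2 / (q : L) ^ (A + B) with hz
  obtain ⟨n, hn, hzn⟩ : ∃ n : ℕ, 0 < n ∧ z ^ n = 1 := by
    refine root_of_unity μ z ?_ ?_ ?_
    · intro l _ hl e
      rw [hz, map_div₀, map_pow, map_mul, map_pow, map_pow, map_pow, map_natCast, norm_div,
        norm_pow, norm_mul, norm_pow, norm_pow, norm_pow, norm_eq_one_of_ne hqm hN ha ht.1 l hl,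
        norm_eq_one_of_ne hqm hN' hb ht'.1 l hl, norm_natCast_eq_one hl hqm]
      simp
    · intro g
      have h1 : ‖μ (g a)‖ ≠ 0 := by
        rw [norm_ne_zero_iff]
        exact (map_ne_zero μ).2 ((map_ne_zero_iff _ g.injective).2 ha0)
      have h2 : ‖μ (g b)‖ ≠ 0 := by
        rw [norm_ne_zero_iff]
        exact (map_ne_zero μ).2 ((map_ne_zero_iff _ g.injective).2 hb0)
      have h3 : ‖(q : PadicAlgCl p)‖ ≠ 0 := (norm_q_pos hq).ne'
      have h4 := h g
      unfold dev at h4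
      have h5 : Real.log ‖μ (g z)‖ = 0 := by
        rw [hz, map_div₀, map_div₀, map_pow, map_pow μ, map_mul, map_mul μ, map_pow, map_pow μ,
          map_pow g b, map_pow μ, map_pow g (q : L), map_pow μ, map_natCast, map_natCast, norm_div,
          norm_pow, norm_mul, norm_pow, norm_pow, norm_pow,
          Real.log_div (by positivity) (by positivity), Real.log_pow,
          Real.log_mul (by positivity) (by positivity), Real.log_pow, Real.log_pow, Real.log_pow]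
        push_cast at h4 ⊢
        linear_combination 2 * h4
      have h6 : 0 < ‖μ (g z)‖ := by
        rw [norm_pos_iff]
        refine (map_ne_zero μ).2 ((map_ne_zero_iff _ g.injective).2 ?_)
        rw [hz]
        exact div_ne_zero (pow_ne_zero _ (mul_ne_zero (pow_ne_zero _ ha0) (pow_ne_zero _ hb0)))
          (pow_ne_zero _ hq0)
      exact Real.eq_one_of_pos_of_log_eq_zero h6 h5
    · intro φ
      have h1 := complex_norm hN ha ht φ
      have h2 := complex_norm hN' hb ht' φ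
      have h3 : ‖φ z‖ = 1 := by
        rw [hz, map_div₀, map_pow, map_mul, map_pow, map_pow, map_pow, map_natCast, norm_div,
          norm_pow, norm_mul, norm_pow, norm_pow, norm_pow, Complex.norm_natCast, mul_pow,
          ← pow_mul, ← pow_mul, mul_comm A 2, mul_comm B 2, pow_mul, pow_mul, h1, h2, ← pow_add]
        exact div_self (pow_ne_zero _ (by exact_mod_cast hq.ne'))
      exact h3
  refine ⟨n, hn, ?_⟩
  rw [hz, div_pow, div_eq_one_iff_eq (pow_ne_zero _ (pow_ne_zero _ hq0)), ← pow_mul, ← pow_mul]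
    at hzn
  exact hzn

/-- A multiplicative relation makes the sum of the deviations zero. -/
lemma dev_sum (μ : L →+* PadicAlgCl p) {n : ℕ} (a : Fin n → L) (ha : ∀ k, a k ≠ 0)
    {β : L} (hβ : β ≠ 0) {w c s : ℕ} (hs : 0 < s) (hc : 2 * c = n + w)
    (hrel : ((∏ k, a k) * β) ^ s = (q : L) ^ (c * s))
    (g : L ≃ₐ[ℚ] L) : ∑ k, dev μ q 1 (g (a k)) + dev μ q w (g β) = 0 := by
  have h1 := congrArg (fun x => Real.log ‖μ (g x)‖) hrel
  have h2 : ∀ k, ‖μ (g (a k))‖ ≠ 0 := fun k => by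
    rw [norm_ne_zero_iff]
    exact (map_ne_zero μ).2 ((map_ne_zero_iff _ g.injective).2 (ha k))
  have h3 : ‖μ (g β)‖ ≠ 0 := by
    rw [norm_ne_zero_iff]
    exact (map_ne_zero μ).2 ((map_ne_zero_iff _ g.injective).2 hβ)
  have h4 : ∏ k, ‖μ (g (a k))‖ ≠ 0 := Finset.prod_ne_zero_iff.2 fun k _ => h2 k
  simp only [map_pow, map_mul, map_prod, map_natCast, norm_pow, norm_mul, norm_prod,
    Real.log_pow] at h1
  rw [Real.log_mul h4 h3, Real.log_prod (fun k _ => h2 k)] at h1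
  unfold dev
  rw [Finset.sum_sub_distrib, Finset.sum_const, Finset.card_univ, Fintype.card_fin, nsmul_eq_mul]
  have hs' : (s : ℝ) ≠ 0 := by exact_mod_cast hs.ne'
  have hc' : (2 * c : ℝ) = n + w := by exact_mod_cast hc
  push_cast at h1 ⊢
  have h5 : (s : ℝ) * (∑ k, Real.log ‖μ (g (a k))‖ + Real.log ‖μ (g β)‖ -
      c * Real.log ‖(q : PadicAlgCl p)‖) = 0 := by linear_combination h1
  have h6 := (mul_eq_zero.1 h5).resolve_left hs'
  linear_combination h6 + (Real.log ‖(q : PadicAlgCl p)‖ / 2) * hc'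

lemma dev_decomp (hF : OnePlace p F) (i : F →+* L) (μ : L →+* PadicAlgCl p) (q : ℕ)
    (g : L ≃ₐ[ℚ] L) : ∃ v : fixer i, ∀ w x, dev μ q w (g x) = dev μ q w (v.1 x) := by
  obtain ⟨v, hv, h⟩ := exists_decomp hF i μ g
  refine ⟨⟨v, hv⟩, fun w x => ?_⟩
  unfold dev
  rw [h]

open Classical in
/-- If the sums of the deviations over the classes of equal characters vanish, two of the numbers
are related. -/
theorem exists_pair_L (hF : OnePlace p F) {m : ℕ} (hqm : q = p ^ m) (μ : L →+* PadicAlgCl p)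
    {n : ℕ} (hn : 2 ≤ n) (a : Fin n → L) (N : Fin n → ℕ) (t : Fin n → F) (hN : ∀ k, 0 < N k)
    (ha : ∀ k, TraceEq i q (N k) (t k) (a k)) (ht : ∀ k, IsTrace (q ^ N k) (t k))
    (hclass : ∀ χ : Fin n → fixer i →* ℝ, (∀ k v, χ k v = 1 ∨ χ k v = -1) →
      (∀ k (v : fixer i), dev μ q 1 (v.1 (a k)) = χ k v * dev μ q 1 (a k)) → ∀ k₀,
      ∑ k ∈ Finset.univ.filter (fun k => χ k = χ k₀), dev μ q 1 (a k) = 0) :
    ∃ k l : Fin n, k ≠ l ∧ ∃ A B s : ℕ, 0 < A ∧ 0 < B ∧ 0 < s ∧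
      (a k ^ A * a l ^ B) ^ (2 * s) = (q : L) ^ ((A + B) * s) := by
  have hq : 0 < q := by rw [hqm]; exact pow_pos hp.out.pos m
  choose χ hχ1 hχ2 using fun k => exists_sign (hN k) hq (ha k) μ
  by_cases h0 : ∃ k₀, dev μ q 1 (a k₀) ≠ 0
  · obtain ⟨k₀, hk₀⟩ := h0
    have h1 := hclass χ hχ1 hχ2 k₀
    obtain ⟨k, hk, hneg⟩ := exists_opposite _ (fun k => dev μ q 1 (a k)) h1
      (Finset.mem_filter.2 ⟨Finset.mem_univ k₀, rfl⟩) hk₀
    have hkχ : χ k = χ k₀ := (Finset.mem_filter.1 hk).2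
    obtain ⟨A, B, hA, hB, hAB⟩ := exists_combination hq μ (trace_ne (hN k) hq (ha k))
      (trace_ne (hN k₀) hq (ha k₀)) hneg
    obtain ⟨s, hs, hrel⟩ := tate_of_dev hqm μ (hN k) (hN k₀) (ha k) (ha k₀) (ht k) (ht k₀)
      (A := A) (B := B) (by
        intro g
        obtain ⟨v, hv⟩ := dev_decomp hF i μ q g
        rw [hv, hv, hχ2 k, hχ2 k₀, hkχ]
        linear_combination (χ k₀ v) * hAB)
    refine ⟨k, k₀, ?_, A, B, s, hA, hB, hs, hrel⟩
    rintro rfl
    nlinarith [mul_self_nonneg (dev μ q 1 (a k))]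
  · push Not at h0
    have hz : ∀ k (g : L ≃ₐ[ℚ] L), dev μ q 1 (g (a k)) = 0 := by
      intro k g
      obtain ⟨v, hv⟩ := dev_decomp hF i μ q g
      rw [hv, hχ2 k, h0 k, mul_zero]
    obtain ⟨s, hs, hrel⟩ := tate_of_dev hqm μ (hN ⟨0, by omega⟩) (hN ⟨1, by omega⟩)
      (ha ⟨0, by omega⟩) (ha ⟨1, by omega⟩) (ht ⟨0, by omega⟩) (ht ⟨1, by omega⟩)
      (A := 1) (B := 1) (by
        intro g
        rw [hz, hz]
        ring)
    exact ⟨⟨0, by omega⟩, ⟨1, by omega⟩, by simp, 1, 1, s, one_pos, one_pos, hs, hrel⟩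

open Classical in
/-- Relations with a number whose deviations have a small mean square. -/
theorem class_zero (hF : OnePlace p F) {m : ℕ} (hqm : q = p ^ m)
    (μ : L →+* PadicAlgCl p) {n : ℕ} (a : Fin n → L) (N : Fin n → ℕ)
    (t : Fin n → F) (hN : ∀ k, 0 < N k) (ha : ∀ k, TraceEq i q (N k) (t k) (a k))
    {β : L} (hβ : β ≠ 0) {w c s : ℕ} (hs : 0 < s)
    (hc : 2 * c = n + w) (hrel : ((∏ k, a k) * β) ^ s = (q : L) ^ (c * s))
    (hsmall : (∀ g : L ≃ₐ[ℚ] L, dev μ q w (g β) = 0) ∨ ∃ E : ℝ, 0 < E ∧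
      (∀ k, ∃ z : ℤ, dev μ q 1 (a k) = z * E) ∧
      ∑ g : L ≃ₐ[ℚ] L, dev μ q w (g β) ^ 2 < Fintype.card (L ≃ₐ[ℚ] L) * E ^ 2)
    (χ : Fin n → fixer i →* ℝ) (hχ1 : ∀ k v, χ k v = 1 ∨ χ k v = -1)
    (hχ2 : ∀ k (v : fixer i), dev μ q 1 (v.1 (a k)) = χ k v * dev μ q 1 (a k)) (k₀ : Fin n) :
    ∑ k ∈ Finset.univ.filter (fun k => χ k = χ k₀), dev μ q 1 (a k) = 0 := by
  have hq : 0 < q := by rw [hqm]; exact pow_pos hp.out.pos m
  have ha0 : ∀ k, a k ≠ 0 := fun k => trace_ne (hN k) hq (ha k)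
  have hcard : (0 : ℝ) < Fintype.card (L ≃ₐ[ℚ] L) := by exact_mod_cast Fintype.card_pos
  have h1 := coeff_sq_le_sum hF a χ hχ2 (fun g => dev μ q w (g β))
    (fun g => dev_sum μ a ha0 hβ hs hc hrel g) (χ k₀) (hχ1 k₀)
  rcases hsmall with h | ⟨E, hE, hz, h⟩
  · have h2 : ∑ g : L ≃ₐ[ℚ] L, dev μ q w (g β) ^ 2 = 0 :=
      Finset.sum_eq_zero fun g _ => by rw [h g]; ring
    rw [h2] at h1
    have h3 : (∑ k ∈ Finset.univ.filter (fun k => χ k = χ k₀), dev μ q 1 (a k)) ^ 2 ≤ 0 := by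
      by_contra hcon
      push Not at hcon
      have := mul_pos hcard hcon
      linarith
    exact pow_eq_zero_iff two_ne_zero |>.1 (le_antisymm h3 (sq_nonneg _))
  · choose z hz using hz
    have h2 : ∑ k ∈ Finset.univ.filter (fun k => χ k = χ k₀), dev μ q 1 (a k) =
        ((∑ k ∈ Finset.univ.filter (fun k => χ k = χ k₀), z k : ℤ) : ℝ) * E := by
      push_cast
      rw [Finset.sum_mul]
      exact Finset.sum_congr rfl fun k _ => hz k
    set Z : ℤ := ∑ k ∈ Finset.univ.filter (fun k => χ k = χ k₀), z k with hZ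
    rw [h2] at h1 ⊢
    have h3 : ((Z : ℝ) * E) ^ 2 < E ^ 2 := by
      have := lt_of_le_of_lt h1 h
      exact lt_of_mul_lt_mul_left this hcard.le
    have h4 : (Z : ℝ) ^ 2 < 1 := by
      rw [mul_pow] at h3
      have : (Z : ℝ) ^ 2 * E ^ 2 < 1 * E ^ 2 := by linarith
      exact lt_of_mul_lt_mul_right this (by positivity)
    have h5 : Z ^ 2 < 1 := by exact_mod_cast h4
    have h6 : Z = 0 := by nlinarith [sq_nonneg Z]
    rw [h6]
    simp

end Pool.Agent.V8H92.NS
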