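import Mathlib
import Pool.Agent.V8H92.NS.Pair

/-!
# Models of finite sets of algebraic numbers in number fields
-/

set_option autoImplicit false
set_option linter.unusedSectionVars false

namespace Pool.Agent.V8H92.NS

open Module Polynomial

/-- A finite set of algebraic elements of `Ω` and a number field in `Ω` are contained in a finite
Galois extension of `ℚ`. -/
lemma exists_model {Ω : Type} [Field Ω] [IsAlgClosed Ω] [CharZero Ω] {F : Type} [Field F]
    [NumberField F] (j : F →+* Ω) (S : Set Ω) (hS : S.Finite) (hS' : ∀ x ∈ S, IsIntegral ℚ x) :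
    ∃ (L : Type) (_ : Field L) (_ : NumberField L) (_ : IsGalois ℚ L) (i : F →+* L)
      (ι : L →+* Ω), (∀ x, ι (i x) = j x) ∧ ∀ x ∈ S, ∃ y, ι y = x := by
  classical
  let K₀ : IntermediateField ℚ Ω := j.toRatAlgHom.fieldRange ⊔ IntermediateField.adjoin ℚ S
  have _ : FiniteDimensional ℚ (IntermediateField.adjoin ℚ S) := by
    have := hS.to_subtype
    exact IntermediateField.finiteDimensional_adjoin hS'
  have _ : FiniteDimensional ℚ j.toRatAlgHom.fieldRange :=
    Module.Finite.of_surjective (j.toRatAlgHom.rangeRestrict.toLinearMap)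
      j.toRatAlgHom.rangeRestrict_surjective
  have _ : FiniteDimensional ℚ K₀ := IntermediateField.finiteDimensional_sup _ _
  let L := IntermediateField.normalClosure ℚ K₀ Ω
  have hKL : K₀ ≤ L := IntermediateField.le_normalClosure K₀
  have _ : FiniteDimensional ℚ L := normalClosure.is_finiteDimensional ℚ K₀ Ω
  have _ : IsNormalClosure ℚ K₀ L :=
    Algebra.IsAlgebraic.isNormalClosure_normalClosure fun x => IsAlgClosed.splits _
  have _ : Normal ℚ L := IsNormalClosure.normal (K := K₀)
  have _ : NumberField L := ⟨⟩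
  have _ : IsGalois ℚ L := ⟨⟩
  have hj : ∀ x, j x ∈ L := fun x => hKL ((le_sup_left : _ ≤ K₀) ⟨x, rfl⟩)
  refine ⟨L, inferInstance, inferInstance, inferInstance, j.codRestrict L hj,
    (L.val : L →+* Ω), fun x => rfl, fun x hx => ?_⟩
  exact ⟨⟨x, hKL ((le_sup_right : _ ≤ K₀) (IntermediateField.subset_adjoin ℚ S hx))⟩, rfl⟩

variable {p : ℕ} [hp : Fact p.Prime] {L : Type} [Field L] [NumberField L] [IsGalois ℚ L]

/-- Sums over the Galois group and over the conjugates. -/
lemma sum_gal {K : Type} [Field K] [CharZero K] (μ : L →+* K) (b : L) (f : K → ℝ) :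
    ((minpoly ℚ b).natDegree : ℝ) * ∑ g : L ≃ₐ[ℚ] L, f (μ (g b)) =
      Fintype.card (L ≃ₐ[ℚ] L) * (((minpoly ℚ b).aroots K).map f).sum := by
  classical
  set P := minpoly ℚ b with hP
  have hb : IsIntegral ℚ b := Algebra.IsIntegral.isIntegral b
  set S : Finset L := Finset.univ.image (fun g : L ≃ₐ[ℚ] L => g b) with hS
  set H := Fintype.card {g : L ≃ₐ[ℚ] L // g b = b} with hH
  have hfib : ∀ y ∈ S, (Finset.univ.filter (fun g : L ≃ₐ[ℚ] L => g b = y)).card = H := by
    intro y hy
    obtain ⟨g₀, -, rfl⟩ := Finset.mem_image.1 hy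
    rw [hH, Fintype.card_subtype]
    refine Finset.card_bij (fun g _ => g₀⁻¹ * g) ?_ ?_ ?_
    · intro g hg
      rw [Finset.mem_filter] at hg ⊢
      refine ⟨Finset.mem_univ _, ?_⟩
      rw [AlgEquiv.mul_apply, hg.2]
      exact g₀.symm_apply_apply b
    · intro g _ g' _ h
      exact mul_left_cancel h
    · intro g hg
      rw [Finset.mem_filter] at hg
      refine ⟨g₀ * g, ?_, by group⟩
      rw [Finset.mem_filter, AlgEquiv.mul_apply, hg.2]
      exact ⟨Finset.mem_univ _, rfl⟩
  have h1 : ∀ u : L → ℝ, ∑ g : L ≃ₐ[ℚ] L, u (g b) = H * ∑ y ∈ S, u y := by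
    intro u
    rw [Finset.sum_comp u (fun g : L ≃ₐ[ℚ] L => g b), Finset.mul_sum]
    refine Finset.sum_congr rfl fun y hy => ?_
    rw [hfib y hy, nsmul_eq_mul]
  have hcard : (Fintype.card (L ≃ₐ[ℚ] L) : ℝ) = H * S.card := by
    have := h1 (fun _ => 1)
    simpa using this
  have hsp : (P.map (algebraMap ℚ L)).Splits := Normal.splits inferInstance b
  have hPm : P.Monic := minpoly.monic hb
  have hroots : P.aroots L = S.val := by
    have hnd : (P.aroots L).Nodup := nodup_aroots_iff_of_splits
      hPm.ne_zero hsp |>.2 (Algebra.IsSeparable.isSeparable ℚ b)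
    refine (Multiset.Nodup.ext hnd S.nodup).2 fun y => ?_
    rw [Finset.mem_val, hS, Finset.mem_image, mem_aroots]
    constructor
    · rintro ⟨-, hy⟩
      have h4 : minpoly ℚ y = P :=
        (minpoly.eq_of_irreducible_of_monic (minpoly.irreducible hb) hy hPm).symm
      obtain ⟨g, hg⟩ := (Normal.minpoly_eq_iff_mem_orbit L).mp h4
      exact ⟨g, Finset.mem_univ _, hg⟩
    · rintro ⟨g, -, rfl⟩
      refine ⟨hPm.ne_zero, ?_⟩
      have := congrArg g (minpoly.aeval ℚ b)
      rw [map_zero, ← Polynomial.aeval_algHom_apply] at this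
      exact this
  have hroots2 : P.aroots K = S.val.map μ := by
    have h2 := hsp.roots_map μ
    rw [Polynomial.map_map] at h2
    have h3 : μ.comp (algebraMap ℚ L) = algebraMap ℚ K := RingHom.ext_rat _ _
    rw [h3] at h2
    rw [Polynomial.aroots, h2]
    have h4 : (P.map (algebraMap ℚ L)).roots = S.val := hroots
    rw [h4]
  have hdeg : P.natDegree = S.card := by
    have h2 := hsp.natDegree_eq_card_roots
    rw [natDegree_map] at h2
    rw [h2]
    have h4 : (P.map (algebraMap ℚ L)).roots = S.val := hroots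
    rw [h4, Finset.card_val]
  rw [hroots2, h1 (fun y => f (μ y)), hcard, hdeg, Multiset.map_map]
  have : (S.val.map (f ∘ μ)).sum = ∑ y ∈ S, f (μ y) := rfl
  rw [this]
  ring

end Pool.Agent.V8H92.NS
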