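import Mathlib
import Pool.Agent.V8H92.NS.Model

/-!
# Relations between Weil numbers with traces in `F`
-/

set_option autoImplicit false
set_option linter.unusedSectionVars false

namespace Pool.Agent.V8H92.NS

open Module Polynomial

variable {p : ℕ} [hp : Fact p.Prime]

lemma log_q_neg {q m : ℕ} (hqm : q = p ^ m) (hm : 0 < m) : Real.log ‖(q : PadicAlgCl p)‖ < 0 := by
  have h4 : (q : PadicAlgCl p) = algebraMap ℚ_[p] (PadicAlgCl p) (q : ℚ_[p]) := by simp
  have h1 : ‖(q : PadicAlgCl p)‖ < 1 := by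
    rw [h4, PadicAlgCl.norm_extends, hqm]
    push_cast
    rw [norm_pow]
    exact pow_lt_one₀ (norm_nonneg _) Padic.norm_p_lt_one hm.ne'
  have h2 : 0 < ‖(q : PadicAlgCl p)‖ := by
    rw [norm_pos_iff, hqm]
    push_cast
    exact pow_ne_zero _ (by exact_mod_cast hp.out.ne_zero)
  exact Real.log_neg h2 h1

lemma dev_eq {L : Type} [Field L] [NumberField L] [IsGalois ℚ L] {q m : ℕ} (hqm : q = p ^ m)
    (hm : 0 < m) (μ : L →+* PadicAlgCl p) (w : ℕ) (x : L) :
    dev μ q w x = (Real.log ‖(q : PadicAlgCl p)‖ / 2) * (2 * ordq p q (μ x) - w) := by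
  have h := (log_q_neg hqm hm).ne
  unfold dev ordq
  field_simp

lemma minpoly_eq_of_hom {L Ω : Type} [Field L] [CharZero L] [Field Ω] [CharZero Ω] (ι : L →+* Ω)
    (y : L) : minpoly ℚ (ι y) = minpoly ℚ y :=
  minpoly.algHom_eq ι.toRatAlgHom ι.injective y

lemma aeval_conj {L : Type} [Field L] [NumberField L] (μ : L →+* PadicAlgCl p)
    (g : L ≃ₐ[ℚ] L) (y : L) : aeval (μ (g y)) (minpoly ℚ y) = 0 := by
  have h1 : μ (g y) = (μ.toRatAlgHom.comp (g : L →ₐ[ℚ] L)) y := rfl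
  rw [h1, Polynomial.aeval_algHom_apply, minpoly.aeval, map_zero]

variable {Ω : Type} [Field Ω] [IsAlgClosed Ω] [CharZero Ω] {F : Type} [Field F] [NumberField F]
  {j : F →+* Ω} {q m : ℕ}

lemma ne_zero_of_hasTrace (hq : 0 < q) {α : Ω} (h : HasTrace j q α) : α ≠ 0 := by
  obtain ⟨N, t, hN, -, h⟩ := h
  rintro rfl
  unfold TraceEq at h
  rw [zero_pow hN.ne', mul_zero, sub_zero, zero_pow two_ne_zero, zero_add] at h
  have : (q : Ω) ≠ 0 := by exact_mod_cast hq.ne'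
  exact pow_ne_zero N this h

lemma isIntegral_of_hasTrace {α : Ω} (h : HasTrace j q α) : IsIntegral ℚ α := by
  obtain ⟨N, t, hN, ht, h⟩ := h
  exact (isIntegral_of_trace hN h ht.1).tower_top

open Classical in
/-- Passage to a finite Galois extension of `ℚ`. -/
theorem with_model {P : Prop} (hF : OnePlace p F) (hqm : q = p ^ m) (hm : 0 < m) {n : ℕ}
    (a : Fin n → Ω) (ha : ∀ k, HasTrace j q (a k)) {β : Ω} (hβ : β ≠ 0) (hβ' : IsIntegral ℚ β)
    {w c s : ℕ} (hs : 0 < s) (hc : 2 * c = n + w)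
    (hrel : ((∏ k, a k) * β) ^ s = (q : Ω) ^ (c * s))
    (hsmall : meanSquare p q w β = 0 ∨ ∃ e : ℝ, e < 1 / 2 ∧ (∀ k, SlopesIn p q e (a k)) ∧
      meanSquare p q w β < (1 - 2 * e) ^ 2)
    (H : ∀ (L : Type) [Field L] [NumberField L] [IsGalois ℚ L] (i : F →+* L) (ι : L →+* Ω)
      (μ : L →+* PadicAlgCl p) (y : Fin n → L) (N : Fin n → ℕ) (t : Fin n → F),
      (∀ k, 0 < N k) → (∀ k, IsTrace (q ^ N k) (t k)) → (∀ k, TraceEq i q (N k) (t k) (y k)) →
      (∀ k, ι (y k) = a k) →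
      (∀ χ : Fin n → fixer i →* ℝ, (∀ k v, χ k v = 1 ∨ χ k v = -1) →
      (∀ k (v : fixer i), dev μ q 1 (v.1 (y k)) = χ k v * dev μ q 1 (y k)) → ∀ k₀,
      ∑ k ∈ Finset.univ.filter (fun k => χ k = χ k₀), dev μ q 1 (y k) = 0) → P) : P := by
  have hq : 0 < q := by rw [hqm]; exact pow_pos hp.out.pos m
  obtain ⟨L, _, _, _, i, ι, hi, hS⟩ := exists_model j (insert β (Set.range a))
    ((Set.finite_range a).insert β) (by
      rintro x (rfl | ⟨k, rfl⟩)
      · exact hβ'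
      · exact isIntegral_of_hasTrace (ha k))
  obtain ⟨b, hb⟩ := hS β (Or.inl rfl)
  choose y hy using fun k => hS (a k) (Or.inr ⟨k, rfl⟩)
  choose N t hN ht hT using ha
  obtain ⟨μ⟩ : Nonempty (L →+* PadicAlgCl p) := ⟨(IsAlgClosed.lift : L →ₐ[ℚ] PadicAlgCl p)⟩
  have hT' : ∀ k, TraceEq i q (N k) (t k) (y k) := by
    intro k
    have h1 := hT k
    unfold TraceEq at h1 ⊢
    apply ι.injective
    rw [map_add, map_sub, map_mul, hi, map_pow, map_pow, map_pow, map_natCast, map_zero, hy]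
    exact h1
  have hb0 : b ≠ 0 := by
    rintro rfl
    rw [map_zero] at hb
    exact hβ hb.symm
  have hrel' : ((∏ k, y k) * b) ^ s = (q : L) ^ (c * s) := by
    apply ι.injective
    rw [map_pow, map_mul, map_prod, hb, map_pow, map_natCast, ← hrel]
    congr 3
    exact funext hy
  have hmin : minpoly ℚ β = minpoly ℚ b := by rw [← hb, minpoly_eq_of_hom]
  have hmin' : ∀ k, minpoly ℚ (a k) = minpoly ℚ (y k) := fun k => by
    rw [← hy k, minpoly_eq_of_hom]
  have hdeg : 0 < (minpoly ℚ b).natDegree := minpoly.natDegree_pos (Algebra.IsIntegral.isIntegral b)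
  have hdegR : (0 : ℝ) < (minpoly ℚ b).natDegree := by exact_mod_cast hdeg
  have hcardR : (0 : ℝ) < Fintype.card (L ≃ₐ[ℚ] L) := by exact_mod_cast Fintype.card_pos
  set ℓ := Real.log ‖(q : PadicAlgCl p)‖ with hℓ
  have hℓneg : ℓ < 0 := log_q_neg hqm hm
  have hsum : ∑ g : L ≃ₐ[ℚ] L, dev μ q w (g b) ^ 2 =
      Fintype.card (L ≃ₐ[ℚ] L) * ((ℓ / 2) ^ 2 * meanSquare p q w β) := by
    have h1 := sum_gal μ b (fun x => (2 * ordq p q x - w) ^ 2)
    have h2 : ∑ g : L ≃ₐ[ℚ] L, dev μ q w (g b) ^ 2 =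
        (ℓ / 2) ^ 2 * ∑ g : L ≃ₐ[ℚ] L, (2 * ordq p q (μ (g b)) - w) ^ 2 := by
      rw [Finset.mul_sum]
      refine Finset.sum_congr rfl fun g _ => ?_
      rw [dev_eq hqm hm]
      ring
    unfold meanSquare
    rw [h2, hmin]
    field_simp
    linear_combination (ℓ ^ 2) * h1
  refine H L i ι μ y N t hN ht hT' hy ?_
  refine class_zero hF hqm μ y N t hN hT' hb0 hs hc hrel' ?_
  rcases hsmall with h | ⟨e, he, hsl, h⟩
  · left
    rw [h, mul_zero, mul_zero] at hsum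
    have h3 := (Finset.sum_eq_zero_iff_of_nonneg fun g _ => sq_nonneg _).1 hsum
    exact fun g => pow_eq_zero_iff two_ne_zero |>.1 (h3 g (Finset.mem_univ g))
  · right
    refine ⟨(-ℓ / 2) * (1 - 2 * e), by nlinarith, fun k => ?_, ?_⟩
    · have h1 := hsl k (μ (y k)) (by rw [hmin' k]; exact aeval_conj μ 1 (y k))
      rw [dev_eq hqm hm, ← hℓ]
      rcases h1 with h1 | h1 | h1
      · exact ⟨1, by rw [h1]; push_cast; ring⟩
      · exact ⟨-1, by rw [h1]; push_cast; ring⟩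
      · exact ⟨0, by rw [h1]; push_cast; ring⟩
    · rw [hsum]
      refine mul_lt_mul_of_pos_left ?_ hcardR
      have h2 : 0 < (ℓ / 2) ^ 2 := by nlinarith
      calc (ℓ / 2) ^ 2 * meanSquare p q w β < (ℓ / 2) ^ 2 * (1 - 2 * e) ^ 2 :=
            mul_lt_mul_of_pos_left h h2
        _ = _ := by ring

/-- **Relations come from pairs.** -/
theorem exists_pair (hF : OnePlace p F) (hqm : q = p ^ m) (hm : 0 < m) {E : Set Ω}
    (hE : ∀ α ∈ E, HasTrace j q α) (hC : PairwiseTate q E) {n : ℕ} (hn : 2 ≤ n)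
    (a : Fin n → Ω) (ha : ∀ k, a k ∈ E) {β : Ω} (hβ : β ≠ 0) (hβ' : IsIntegral ℚ β)
    {w c s : ℕ} (hs : 0 < s) (hc : 2 * c = n + w)
    (hrel : ((∏ k, a k) * β) ^ s = (q : Ω) ^ (c * s))
    (hsmall : meanSquare p q w β = 0 ∨ ∃ e : ℝ, e < 1 / 2 ∧ (∀ k, SlopesIn p q e (a k)) ∧
      meanSquare p q w β < (1 - 2 * e) ^ 2) :
    ∃ k l : Fin n, k ≠ l ∧ ∃ t : ℕ, 0 < t ∧ (a k * a l) ^ t = (q : Ω) ^ t := by
  classical
  refine with_model hF hqm hm a (fun k => hE _ (ha k)) hβ hβ' hs hc hrel hsmall ?_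
  intro L _ _ _ i ι μ y N t hN ht hT' hy hclass
  obtain ⟨k, l, hkl, A, B, s', hA, hB, hs', hAB⟩ := exists_pair_L hF hqm μ hn y N t hN hT'
    ht hclass
  refine ⟨k, l, hkl, hC _ (ha k) _ (ha l) A B s' hA hB hs' ?_⟩
  have h1 := congrArg ι hAB
  rw [map_pow, map_mul, map_pow, map_pow, map_pow, map_natCast, hy, hy] at h1
  exact h1

/-- A relation with one number forces it to be supersingular. -/
theorem supersingular_of_rel (hF : OnePlace p F) (hqm : q = p ^ m) (hm : 0 < m) {α : Ω}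
    (hα : HasTrace j q α) {β : Ω} (hβ : β ≠ 0) (hβ' : IsIntegral ℚ β)
    {w c s : ℕ} (hs : 0 < s) (hc : 2 * c = 1 + w) (hrel : (α * β) ^ s = (q : Ω) ^ (c * s))
    (hsmall : meanSquare p q w β = 0 ∨ ∃ e : ℝ, e < 1 / 2 ∧ SlopesIn p q e α ∧
      meanSquare p q w β < (1 - 2 * e) ^ 2) :
    ∃ t : ℕ, 0 < t ∧ α ^ (2 * t) = (q : Ω) ^ t ∧ β ^ (2 * t) = (q : Ω) ^ (w * t) := by
  classical
  have hq : 0 < q := by rw [hqm]; exact pow_pos hp.out.pos m
  have hq0 : (q : Ω) ≠ 0 := by exact_mod_cast hq.ne'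
  refine with_model hF hqm hm (fun _ : Fin 1 => α) (fun _ => hα) hβ hβ' hs (w := w) (c := c)
    (by rw [hc]) (by rw [Fin.prod_univ_one]; exact hrel) (by
      rcases hsmall with h | ⟨e, h1, h2, h3⟩
      · exact Or.inl h
      · exact Or.inr ⟨e, h1, fun _ => h2, h3⟩) ?_
  intro L _ _ _ i ι μ y N t hN ht hT' hy hclass
  choose χ hχ1 hχ2 using fun k => exists_sign (hN k) hq (hT' k) μ
  have h1 := hclass χ hχ1 hχ2 0
  have h2 : Finset.univ.filter (fun k => χ k = χ 0) = {0} := by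
    ext k
    have : k = 0 := Subsingleton.elim _ _
    subst this
    simp
  rw [h2, Finset.sum_singleton] at h1
  obtain ⟨s', hs', h3⟩ := tate_of_dev hqm μ (hN 0) (hN 0) (hT' 0) (hT' 0) (ht 0) (ht 0) (A := 1)
    (B := 1) (by
      intro g
      obtain ⟨v, hv⟩ := dev_decomp hF i μ q g
      rw [hv, hχ2 0, h1]
      ring)
  have h4 := congrArg ι h3
  rw [map_pow, map_mul, map_pow, map_pow, map_natCast, hy, pow_one, ← pow_two, ← pow_mul] at h4
  refine ⟨s * (2 * s'), by positivity, ?_, ?_⟩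
  · calc α ^ (2 * (s * (2 * s'))) = (α ^ (2 * (2 * s'))) ^ s := by rw [← pow_mul]; ring_nf
      _ = _ := by rw [h4, ← pow_mul]; ring_nf
  · have h5 : (α * β) ^ (s * (2 * (2 * s'))) = (q : Ω) ^ (c * (s * (2 * (2 * s')))) := by
      rw [pow_mul, hrel, ← pow_mul, mul_assoc]
    rw [mul_pow] at h5
    have h6 : α ^ (s * (2 * (2 * s'))) = (q : Ω) ^ (s * (2 * s')) := by
      calc α ^ (s * (2 * (2 * s'))) = (α ^ (2 * (2 * s'))) ^ s := by rw [← pow_mul]; ring_nf
        _ = _ := by rw [h4, ← pow_mul]; ring_nf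
    rw [h6] at h5
    have h7 : c * (s * (2 * (2 * s'))) = s * (2 * s') + w * (s * (2 * s')) := by
      calc c * (s * (2 * (2 * s'))) = (2 * c) * (s * (2 * s')) := by ring
        _ = _ := by rw [hc]; ring
    rw [h7, pow_add] at h5
    have h8 := mul_left_cancel₀ (pow_ne_zero _ hq0) h5
    rw [← h8]
    ring_nf

/-- Numbers with the same slopes are pairwise good. -/
theorem pairwiseTate_of_slopes (hqm : q = p ^ m) (hm : 0 < m) {E : Set Ω}
    (hE : ∀ α ∈ E, HasTrace j q α) {e : ℝ} (he : e < 1 / 2) (hsl : ∀ α ∈ E, SlopesIn p q e α) :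
    PairwiseTate q E := by
  classical
  have hq : 0 < q := by rw [hqm]; exact pow_pos hp.out.pos m
  intro α hα β hβ A B s hA hB hs hrel
  obtain ⟨L, _, _, _, i, ι, hi, hS⟩ := exists_model j {α, β} (Set.toFinite _) (by
      rintro x (rfl | rfl)
      · exact isIntegral_of_hasTrace (hE _ hα)
      · exact isIntegral_of_hasTrace (hE _ hβ))
  obtain ⟨a, ha⟩ := hS α (Or.inl rfl)
  obtain ⟨b, hb⟩ := hS β (Or.inr rfl)
  obtain ⟨N, t, hN, ht, hT⟩ := hE _ hα
  obtain ⟨N', t', hN', ht', hT'⟩ := hE _ hβ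
  obtain ⟨μ⟩ : Nonempty (L →+* PadicAlgCl p) := ⟨(IsAlgClosed.lift : L →ₐ[ℚ] PadicAlgCl p)⟩
  have hTa : TraceEq i q N t a := by
    unfold TraceEq at hT ⊢
    apply ι.injective
    rw [map_add, map_sub, map_mul, hi, map_pow, map_pow, map_pow, map_natCast, map_zero, ha]
    exact hT
  have hTb : TraceEq i q N' t' b := by
    unfold TraceEq at hT' ⊢
    apply ι.injective
    rw [map_add, map_sub, map_mul, hi, map_pow, map_pow, map_pow, map_natCast, map_zero, hb]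
    exact hT'
  have ha0 := trace_ne hN hq hTa
  have hb0 := trace_ne hN' hq hTb
  have hmina : minpoly ℚ α = minpoly ℚ a := by rw [← ha, minpoly_eq_of_hom]
  have hminb : minpoly ℚ β = minpoly ℚ b := by rw [← hb, minpoly_eq_of_hom]
  set ℓ := Real.log ‖(q : PadicAlgCl p)‖ with hℓ
  have hℓneg : ℓ < 0 := log_q_neg hqm hm
  have hrel' : (a ^ A * b ^ B) ^ (2 * s) = (q : L) ^ ((A + B) * s) := by
    apply ι.injective
    rw [map_pow, map_mul, map_pow, map_pow, map_pow, map_natCast, ha, hb]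
    exact hrel
  have hsum : ∀ g : L ≃ₐ[ℚ] L, A * dev μ q 1 (g a) + B * dev μ q 1 (g b) = 0 := by
    intro g
    have h1 := congrArg (fun x => Real.log ‖μ (g x)‖) hrel'
    have h2 : ‖μ (g a)‖ ≠ 0 := by
      rw [norm_ne_zero_iff]
      exact (map_ne_zero μ).2 ((map_ne_zero_iff _ g.injective).2 ha0)
    have h3 : ‖μ (g b)‖ ≠ 0 := by
      rw [norm_ne_zero_iff]
      exact (map_ne_zero μ).2 ((map_ne_zero_iff _ g.injective).2 hb0)
    simp only [map_pow, map_mul, map_natCast, norm_pow, norm_mul, Real.log_pow] at h1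
    rw [Real.log_mul (pow_ne_zero _ h2) (pow_ne_zero _ h3), Real.log_pow, Real.log_pow] at h1
    unfold dev
    have hs' : (2 * s : ℝ) ≠ 0 := by positivity
    push_cast at h1 ⊢
    have h5 : (2 * s : ℝ) * (A * (Real.log ‖μ (g a)‖ - 1 * (ℓ / 2)) +
        B * (Real.log ‖μ (g b)‖ - 1 * (ℓ / 2))) = 0 := by
      rw [hℓ]
      linear_combination h1
    exact (mul_eq_zero.1 h5).resolve_left hs'
  have hAR : (0 : ℝ) < A := by exact_mod_cast hA
  have hBR : (0 : ℝ) < B := by exact_mod_cast hB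
  have he' : 0 < 1 - 2 * e := by linarith
  obtain ⟨s', hs', h⟩ := tate_of_dev hqm μ hN hN' hTa hTb ht ht' (A := 1) (B := 1) (by
    intro g
    have h1 := hsum g
    have ha1 := hsl α hα (μ (g a)) (by rw [hmina]; exact aeval_conj μ g a)
    have hb1 := hsl β hβ (μ (g b)) (by rw [hminb]; exact aeval_conj μ g b)
    rw [dev_eq hqm hm, dev_eq hqm hm] at h1 ⊢
    rw [← hℓ] at h1 ⊢
    have h2 : A * (2 * ordq p q (μ (g a)) - 1) + B * (2 * ordq p q (μ (g b)) - 1) = 0 := by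
      have h3 : ℓ / 2 * (A * (2 * ordq p q (μ (g a)) - 1) +
          B * (2 * ordq p q (μ (g b)) - 1)) = 0 := by
        push_cast at h1
        linear_combination h1
      exact (mul_eq_zero.1 h3).resolve_left (by linarith)
    have h4 : (2 * ordq p q (μ (g a)) - 1) + (2 * ordq p q (μ (g b)) - 1) = 0 := by
      rcases ha1 with h5 | h5 | h5 <;> rcases hb1 with h6 | h6 | h6 <;> rw [h5, h6] at h2 ⊢ <;>
        nlinarith [mul_pos hAR he', mul_pos hBR he']
    push_cast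
    linear_combination (ℓ / 2) * h4)
  refine ⟨2 * s', by omega, ?_⟩
  have h1 := congrArg ι h
  rw [map_pow, map_mul, map_pow, map_pow, map_pow, map_natCast, ha, hb, pow_one, pow_one] at h1
  exact h1

end Pool.Agent.V8H92.NS
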