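import Mathlib
import Pool.Agent.V8H92.NS.Omega

/-!
# Tate classes in exterior algebras
-/

set_option autoImplicit false
set_option linter.unusedSectionVars false

namespace Pool.Agent.V8H92.NS

open Module ExteriorAlgebra

section general

variable {Ω V : Type} [Field Ω] [AddCommGroup V] [Module Ω V]

lemma pow_apply_eigen {Fr : V →ₗ[Ω] V} {v : V} {μ : Ω} (h : Fr v = μ • v) (s : ℕ) :
    (Fr ^ s) v = μ ^ s • v := by
  induction s with
  | zero => simp
  | succ s ih => rw [pow_succ', Module.End.mul_apply, ih, map_smul, h, smul_smul, pow_succ]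

lemma map_pow_ιMulti {Fr : V →ₗ[Ω] V} {n : ℕ} {v : Fin n → V} {a : Fin n → Ω}
    (h : ∀ k, Fr (v k) = a k • v k) (s : ℕ) :
    ExteriorAlgebra.map (Fr ^ s) (ιMulti Ω n v) = (∏ k, a k) ^ s • ιMulti Ω n v := by
  rw [ExteriorAlgebra.map_apply_ιMulti]
  have : (⇑(Fr ^ s) ∘ v) = fun k => a k ^ s • v k := by
    funext k
    exact pow_apply_eigen (h k) s
  rw [this, ← Finset.prod_pow]
  exact AlternatingMap.map_smul_univ _ _ _

lemma mul_mem_tateTwo {Fr : V →ₗ[Ω] V} {q : ℕ} {x y : V} {a b : Ω} (hx : Fr x = a • x)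
    (hy : Fr y = b • y) {t : ℕ} (ht : 0 < t) (h : (a * b) ^ t = (q : Ω) ^ t) :
    ι Ω x * ι Ω y ∈ tateTwo Fr q := by
  refine ⟨?_, t, ht, ?_⟩
  · change _ ∈ LinearMap.range (ι Ω) ^ 2
    rw [pow_two]
    exact Submodule.mul_mem_mul ⟨x, rfl⟩ ⟨y, rfl⟩
  · rw [map_mul, map_apply_ι, map_apply_ι, pow_apply_eigen hx, pow_apply_eigen hy, map_smul,
      map_smul, smul_mul_smul_comm, ← mul_pow, h]

/-- A permutation that moves two given elements to the first two places. -/
lemma exists_perm {n : ℕ} {k l : Fin (n + 2)} (h : k ≠ l) :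
    ∃ σ : Equiv.Perm (Fin (n + 2)), σ 0 = k ∧ σ 1 = l := by
  refine ⟨(Equiv.swap 1 (Equiv.swap 0 k l)).trans (Equiv.swap 0 k), ?_, ?_⟩
  · have h1 : Equiv.swap 0 k l ≠ 0 := by
      intro h2
      apply h
      have h3 := congrArg (Equiv.swap 0 k) h2
      rw [Equiv.swap_apply_self, Equiv.swap_apply_left] at h3
      exact h3.symm
    rw [Equiv.trans_apply, Equiv.swap_apply_of_ne_of_ne (by simp) h1.symm,
      Equiv.swap_apply_left]
  · rw [Equiv.trans_apply, Equiv.swap_apply_left, Equiv.swap_apply_self]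

end general

variable {p : ℕ} [hp : Fact p.Prime] {Ω V : Type} [Field Ω] [IsAlgClosed Ω] [CharZero Ω]
  [AddCommGroup V] [Module Ω V] {F : Type} [Field F] [NumberField F] {j : F →+* Ω} {q m : ℕ}

/-- Monomials in eigenvectors which satisfy a relation. -/
theorem reduce (hF : OnePlace p F) (hqm : q = p ^ m) (hm : 0 < m) {E : Set Ω}
    (hE : ∀ α ∈ E, HasTrace j q α) (hC : PairwiseTate q E) (Fr : V →ₗ[Ω] V) {β : Ω}
    (hβ : β ≠ 0) (hβ' : IsIntegral ℚ β) {w : ℕ} {e : ℝ}
    (hsmall : meanSquare p q w β = 0 ∨ (e < 1 / 2 ∧ (∀ α ∈ E, SlopesIn p q e α) ∧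
      meanSquare p q w β < (1 - 2 * e) ^ 2)) :
    ∀ (n : ℕ) (v : Fin n → V) (a : Fin n → Ω), (∀ k, Fr (v k) = a k • v k) → (∀ k, a k ∈ E) →
      ∀ c s : ℕ, 0 < s → 2 * c = n + w → ((∏ k, a k) * β) ^ s = (q : Ω) ^ (c * s) →
      ∀ r, (n = 2 * r → ιMulti Ω n v ∈ Algebra.adjoin Ω (tateTwo Fr q) ∧
        ∃ t : ℕ, 0 < t ∧ (∏ k, a k) ^ t = (q : Ω) ^ (r * t)) ∧
        (n = 2 * r + 1 → ∃ α ∈ E, ∃ c' s' : ℕ, 0 < s' ∧ 2 * c' = 1 + w ∧
          (α * β) ^ s' = (q : Ω) ^ (c' * s')) := by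
  have hq : 0 < q := by rw [hqm]; exact pow_pos hp.out.pos m
  have hq0 : (q : Ω) ≠ 0 := by exact_mod_cast hq.ne'
  intro n
  induction n using Nat.strong_induction_on with
  | _ n ih =>
    intro v a hv ha c s hs hc hrel r
    match n, ih, v, a, hv, ha, hc, hrel with
    | 0, _, v, a, hv, ha, hc, hrel =>
      refine ⟨fun h => ⟨?_, 1, one_pos, ?_⟩, fun h => by omega⟩
      · rw [ιMulti_zero_apply]
        exact Subalgebra.one_mem _
      · have : r = 0 := by omega
        simp [this]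
    | 1, _, v, a, hv, ha, hc, hrel =>
      refine ⟨fun h => by omega, fun _ => ⟨a 0, ha 0, c, s, hs, by omega, ?_⟩⟩
      rw [Fin.prod_univ_one] at hrel
      exact hrel
    | n + 2, ih, v, a, hv, ha, hc, hrel =>
      obtain ⟨k, l, hkl, t, ht, hkl'⟩ := exists_pair hF hqm hm hE hC (by omega) a ha hβ hβ' hs
        hc hrel (by
          rcases hsmall with h | ⟨h1, h2, h3⟩
          · exact Or.inl h
          · exact Or.inr ⟨e, h1, fun k => h2 _ (ha k), h3⟩)
      obtain ⟨σ, hσ0, hσ1⟩ := exists_perm hkl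
      have hprod : ∏ k, a k = a k * a l * ∏ x : Fin n, a (σ x.succ.succ) := by
        rw [← Equiv.prod_comp σ, Fin.prod_univ_succ, Fin.prod_univ_succ, hσ0]
        have : σ (Fin.succ 0) = l := hσ1
        rw [this, mul_assoc]
      have hrel2 : ((∏ x : Fin n, a (σ x.succ.succ)) * β) ^ (s * t) =
          (q : Ω) ^ ((c - 1) * (s * t)) := by
        have h1 := congrArg (fun z => z ^ t) hrel
        simp only [← pow_mul] at h1
        have h2 : ((∏ k, a k) * β) ^ (s * t) = ((a k * a l) ^ t) ^ s *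
            ((∏ x : Fin n, a (σ x.succ.succ)) * β) ^ (s * t) := by
          rw [hprod, ← pow_mul, mul_comm t s, ← mul_pow]
          congr 1
          ring
        rw [h2, hkl', ← pow_mul] at h1
        have h3 : c * s * t = t * s + (c - 1) * (s * t) := by
          obtain ⟨d, rfl⟩ : ∃ d, c = d + 1 := ⟨c - 1, by omega⟩
          rw [Nat.add_sub_cancel]
          ring
        rw [h3, pow_add] at h1
        exact mul_left_cancel₀ (pow_ne_zero _ hq0) h1
      have key := ih n (by omega) (fun x => v (σ x.succ.succ)) (fun x => a (σ x.succ.succ))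
        (fun x => hv _) (fun x => ha _) (c - 1) (s * t) (Nat.mul_pos hs ht) (by omega) hrel2
      have hmulti : ιMulti Ω (n + 2) v = ((Equiv.Perm.sign σ : ℤ) : Ω) •
          (ι Ω (v k) * ι Ω (v l) * ιMulti Ω n (fun x => v (σ x.succ.succ))) := by
        have h1 : ιMulti Ω (n + 2) (v ∘ σ) =
            ι Ω (v k) * ι Ω (v l) * ιMulti Ω n (fun x => v (σ x.succ.succ)) := by
          rw [ιMulti_succ_apply, ιMulti_succ_apply, mul_assoc]
          have e0 : (v ∘ σ) 0 = v k := by rw [Function.comp_apply, hσ0]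
          have e1 : Matrix.vecTail (v ∘ σ) 0 = v l := by
            change v (σ (Fin.succ 0)) = v l
            have : σ (Fin.succ 0) = l := hσ1
            rw [this]
          rw [e0, e1]
          rfl
        rw [← h1]
        have h2 := (ιMulti Ω (n + 2) (M := V)).map_perm v σ
        rw [h2]
        rcases Int.units_eq_one_or (Equiv.Perm.sign σ) with h | h <;> rw [h] <;> simp
      refine ⟨fun h => ?_, fun h => (key (r - 1)).2 (by omega)⟩
      obtain ⟨h1, t', ht', h2⟩ := (key (r - 1)).1 (by omega)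
      refine ⟨?_, t * t', Nat.mul_pos ht ht', ?_⟩
      · rw [hmulti]
        refine Subalgebra.smul_mem _ (Subalgebra.mul_mem _ (Algebra.subset_adjoin ?_) h1) _
        exact mul_mem_tateTwo (hv k) (hv l) ht hkl'
      · rw [hprod]
        calc (a k * a l * ∏ x : Fin n, a (σ x.succ.succ)) ^ (t * t') =
            ((a k * a l) ^ t) ^ t' * ((∏ x : Fin n, a (σ x.succ.succ)) ^ t') ^ t := by
              rw [mul_pow, pow_mul, mul_comm t t', pow_mul _ t' t]
          _ = _ := by
              rw [hkl', h2, ← pow_mul, ← pow_mul, ← pow_add]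
              congr 1
              obtain ⟨d, rfl⟩ : ∃ d, r = d + 1 := ⟨r - 1, by omega⟩
              rw [Nat.add_sub_cancel]
              ring

end Pool.Agent.V8H92.NS
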