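import Mathlib
import Pool.Agent.V8H92.NS.Ext

/-!
# Tate classes in tensor products with an arbitrary Frobenius module
-/

set_option autoImplicit false
set_option linter.unusedSectionVars false

namespace Pool.Agent.V8H92.NS

open Module ExteriorAlgebra TensorProduct

section general

variable {Ω : Type} [Field Ω]

/-- Generalised eigenvectors in a span of generalised eigenvectors. -/
lemma mem_span_gen {W : Type} [AddCommGroup W] [Module Ω W] (S : End Ω W) (T : Set W)
    (hT : ∀ w ∈ T, ∃ μ, w ∈ S.maxGenEigenspace μ) (c : Ω) {x : W} (hx : x ∈ Submodule.span Ω T)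
    (hxc : x ∈ S.maxGenEigenspace c) :
    x ∈ Submodule.span Ω {w | w ∈ T ∧ w ∈ S.maxGenEigenspace c} := by
  classical
  set A := Submodule.span Ω {w | w ∈ T ∧ w ∈ S.maxGenEigenspace c} with hA
  have hAc : A ≤ S.maxGenEigenspace c := Submodule.span_le.2 fun w hw => hw.2
  have h1 : Submodule.span Ω T ≤ A ⊔ ⨆ (μ) (_ : μ ≠ c), S.maxGenEigenspace μ := by
    rw [Submodule.span_le]
    intro w hw
    obtain ⟨μ, hμ⟩ := hT w hw
    by_cases h : μ = c
    · exact (le_sup_left : A ≤ _) (Submodule.subset_span ⟨hw, h ▸ hμ⟩)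
    · exact (le_sup_right : _ ≤ A ⊔ _)
        ((le_iSup₂ (f := fun μ (_ : μ ≠ c) => S.maxGenEigenspace μ) μ h) hμ)
  obtain ⟨a, ha, b, hb, rfl⟩ := Submodule.mem_sup.1 (h1 hx)
  have hb' : b ∈ S.maxGenEigenspace c := by
    have := Submodule.sub_mem _ hxc (hAc ha)
    rwa [add_sub_cancel_left] at this
  have h2 := (S.independent_maxGenEigenspace c).le_bot ⟨hb', hb⟩
  rw [Submodule.mem_bot] at h2
  rw [h2, add_zero]
  exact ha

lemma dvd_pow_sub {R : Type} [Ring R] (x : R) (c : R) (h : Commute x c) (s : ℕ) :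
    ∃ y, Commute y (x - c) ∧ x ^ s - c ^ s = y * (x - c) := by
  refine ⟨∑ i ∈ Finset.range s, x ^ i * c ^ (s - 1 - i), ?_, ?_⟩
  · refine Commute.sum_left _ _ _ fun i _ => ?_
    refine Commute.mul_left ?_ ?_
    · exact (Commute.pow_left ((Commute.refl x).sub_right h) _)
    · exact (Commute.pow_left (h.symm.sub_right (Commute.refl c)) _)
  · rw [h.geom_sum₂_mul]

/-- Powers of an operator on killed elements. -/
lemma killed_pow {W : Type} [AddCommGroup W] [Module Ω W] (T : End Ω W) (c : Ω) (s r : ℕ) {x : W}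
    (h : ((T - c • (1 : End Ω W)) ^ r) x = 0) :
    ((T ^ s - c ^ s • (1 : End Ω W)) ^ r) x = 0 := by
  have hcomm : Commute T (c • (1 : End Ω W)) := (Commute.one_right T).smul_right c
  obtain ⟨y, hy, h1⟩ := dvd_pow_sub T (c • (1 : End Ω W)) hcomm s
  have h2 : (c • (1 : End Ω W)) ^ s = c ^ s • (1 : End Ω W) := by
    rw [smul_pow, one_pow]
  rw [← h2, h1, hy.mul_pow, Module.End.mul_apply, h, map_zero]

lemma mem_gen_pow {W : Type} [AddCommGroup W] [Module Ω W] {T : End Ω W} {c : Ω} (s : ℕ) {x : W}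
    (h : x ∈ T.maxGenEigenspace c) : x ∈ (T ^ s).maxGenEigenspace (c ^ s) := by
  rw [Module.End.mem_maxGenEigenspace] at h ⊢
  obtain ⟨r, h⟩ := h
  exact ⟨r, killed_pow T c s r h⟩

variable {V M : Type} [AddCommGroup V] [Module Ω V] [AddCommGroup M] [Module Ω M]

lemma frobT_pow_tmul (Fr : V →ₗ[Ω] V) (φ : M →ₗ[Ω] M) (s : ℕ) (y : ExteriorAlgebra Ω V) (m : M) :
    (frobT Fr φ ^ s) (y ⊗ₜ m) = ExteriorAlgebra.map (Fr ^ s) y ⊗ₜ (φ ^ s) m := by
  induction s with
  | zero =>
    simp only [pow_zero, Module.End.one_apply]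
    have : ExteriorAlgebra.map (1 : V →ₗ[Ω] V) = AlgHom.id Ω _ := ExteriorAlgebra.map_id
    rw [this]
    rfl
  | succ s ih =>
    rw [pow_succ', Module.End.mul_apply, ih, frobT, TensorProduct.map_tmul, pow_succ', pow_succ',
      Module.End.mul_apply]
    congr 1
    have h := ExteriorAlgebra.map_comp_map (Fr ^ s) Fr
    exact DFunLike.congr_fun h y

lemma frobT_pow_gen {Fr : V →ₗ[Ω] V} {φ : M →ₗ[Ω] M} {s : ℕ} {y : ExteriorAlgebra Ω V} {m : M}
    {l β : Ω} (hy : ExteriorAlgebra.map (Fr ^ s) y = l ^ s • y) (hm : m ∈ End.maxGenEigenspace φ β) :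
    y ⊗ₜ m ∈ (frobT Fr φ ^ s).maxGenEigenspace ((l * β) ^ s) := by
  have hm' := mem_gen_pow s hm
  rw [Module.End.mem_maxGenEigenspace] at hm' ⊢
  obtain ⟨r, hr⟩ := hm'
  refine ⟨r, ?_⟩
  have key : ∀ (r : ℕ) (m : M), ((frobT Fr φ ^ s - (l * β) ^ s •
      (1 : End Ω (ExteriorAlgebra Ω V ⊗[Ω] M))) ^ r) (y ⊗ₜ m) =
      y ⊗ₜ[Ω] ((l ^ s) ^ r • ((φ ^ s - β ^ s • (1 : End Ω M)) ^ r) m) := by
    intro r
    induction r with
    | zero => intro m; simp
    | succ r ih =>
      intro m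
      rw [pow_succ, Module.End.mul_apply, LinearMap.sub_apply, frobT_pow_tmul, hy,
        LinearMap.smul_apply, Module.End.one_apply, TensorProduct.smul_tmul,
        ← TensorProduct.tmul_smul, ← TensorProduct.tmul_sub, ih, pow_succ (φ ^ s - _),
        Module.End.mul_apply]
      congr 1
      have h1 : l ^ s • (φ ^ s) m - (l * β) ^ s • m =
          l ^ s • (φ ^ s - β ^ s • (1 : End Ω M)) m := by
        rw [LinearMap.sub_apply, LinearMap.smul_apply, Module.End.one_apply, smul_sub, smul_smul,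
          mul_pow]
      rw [h1, map_smul, smul_smul]
      congr 1
      rw [pow_succ]
  rw [key, hr, smul_zero, TensorProduct.tmul_zero]

/-- The Tate classes in the subalgebra, for the extension of degree `t`. -/
noncomputable def good (Fr : V →ₗ[Ω] V) (q k t : ℕ) : Submodule Ω (ExteriorAlgebra Ω V) where
  carrier := {y | y ∈ ⋀[Ω]^(2 * k) V ∧ y ∈ Algebra.adjoin Ω (tateTwo Fr q) ∧
    ExteriorAlgebra.map (Fr ^ t) y = (q : Ω) ^ (k * t) • y}
  add_mem' := by
    rintro a b ⟨h1, h2, h3⟩ ⟨h4, h5, h6⟩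
    exact ⟨Submodule.add_mem _ h1 h4, Subalgebra.add_mem _ h2 h5, by
      rw [map_add, h3, h6, smul_add]⟩
  zero_mem' := ⟨Submodule.zero_mem _, Subalgebra.zero_mem _, by rw [map_zero, smul_zero]⟩
  smul_mem' := by
    rintro c a ⟨h1, h2, h3⟩
    exact ⟨Submodule.smul_mem _ c h1, Subalgebra.smul_mem _ h2 c, by
      rw [map_smul, h3, smul_comm]⟩

lemma mem_good {Fr : V →ₗ[Ω] V} {q k t : ℕ} {y : ExteriorAlgebra Ω V} :
    y ∈ good Fr q k t ↔ y ∈ ⋀[Ω]^(2 * k) V ∧ y ∈ Algebra.adjoin Ω (tateTwo Fr q) ∧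
    ExteriorAlgebra.map (Fr ^ t) y = (q : Ω) ^ (k * t) • y := Iff.rfl

lemma map_pow_pow {Fr : V →ₗ[Ω] V} {t : ℕ} {y : ExteriorAlgebra Ω V} {c : Ω}
    (h : ExteriorAlgebra.map (Fr ^ t) y = c • y) (u : ℕ) :
    ExteriorAlgebra.map (Fr ^ (t * u)) y = c ^ u • y := by
  induction u with
  | zero =>
    rw [mul_zero, pow_zero, pow_zero, one_smul]
    have : ExteriorAlgebra.map (1 : V →ₗ[Ω] V) = AlgHom.id Ω _ := ExteriorAlgebra.map_id
    rw [this]
    rfl
  | succ u ih =>
    have h1 : Fr ^ (t * (u + 1)) = (Fr ^ t) ∘ₗ (Fr ^ (t * u)) := by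
      rw [mul_add, mul_one, add_comm, pow_add]
      rfl
    have h2 := ExteriorAlgebra.map_comp_map (Fr ^ (t * u)) (Fr ^ t)
    rw [h1]
    have h3 := DFunLike.congr_fun h2 y
    rw [← h3, AlgHom.comp_apply, ih, map_smul, h, smul_smul, pow_succ]

lemma good_mono {Fr : V →ₗ[Ω] V} {q k t : ℕ} (u : ℕ) : good Fr q k t ≤ good Fr q k (t * u) := by
  rintro y ⟨h1, h2, h3⟩
  refine ⟨h1, h2, ?_⟩
  rw [map_pow_pow h3, ← pow_mul, mul_assoc]

lemma range_mono {A B : Submodule Ω (ExteriorAlgebra Ω V)} (h : A ≤ B) :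
    LinearMap.range (LinearMap.rTensor M A.subtype) ≤
      LinearMap.range (LinearMap.rTensor M B.subtype) := by
  have h1 : A.subtype = B.subtype ∘ₗ Submodule.inclusion h := rfl
  rw [h1, LinearMap.rTensor_comp]
  exact LinearMap.range_comp_le_range _ _

lemma refine_aux {Fr : V →ₗ[Ω] V} {φ : M →ₗ[Ω] M} {q k c s t r : ℕ} (hq : (q : Ω) ≠ 0)
    (hs : 0 < s) (ht : 0 < t) (hck : k ≤ c) (x' : good Fr q k t ⊗[Ω] M)
    (hxT : ((frobT Fr φ ^ s - (q : Ω) ^ (c * s) •
      (1 : End Ω (ExteriorAlgebra Ω V ⊗[Ω] M))) ^ r)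
        (LinearMap.rTensor M (good Fr q k t).subtype x') = 0) :
    LinearMap.rTensor M (good Fr q k t).subtype x' ∈
      Submodule.span Ω (products Fr φ q c k r) := by
  obtain ⟨ψ, hψ⟩ : ∃ ψ : End Ω M,
    ψ = φ ^ (t * s) - (q : Ω) ^ ((c - k) * (t * s)) • (1 : End Ω M) := ⟨_, rfl⟩
  -- the Frobenius on `Y ⊗ M`
  have h1 : ∀ z : good Fr q k t ⊗[Ω] M, (frobT Fr φ ^ (t * s) - (q : Ω) ^ (c * (t * s)) •
      (1 : End Ω (ExteriorAlgebra Ω V ⊗[Ω] M)))
        (LinearMap.rTensor M (good Fr q k t).subtype z) =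
      LinearMap.rTensor M (good Fr q k t).subtype
        ((q : Ω) ^ (k * (t * s)) • LinearMap.lTensor (good Fr q k t) ψ z) := by
    intro z
    induction z using TensorProduct.induction_on with
    | zero => rw [map_zero, map_zero, map_zero, smul_zero, map_zero]
    | add a b ha hb => rw [map_add, map_add, ha, hb, map_add, smul_add, map_add]
    | tmul y m =>
      rw [LinearMap.rTensor_tmul, LinearMap.sub_apply, frobT_pow_tmul, LinearMap.lTensor_tmul,
        LinearMap.smul_apply, Module.End.one_apply]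
      have hy : ExteriorAlgebra.map (Fr ^ (t * s)) y.1 = (q : Ω) ^ (k * (t * s)) • y.1 := by
        rw [map_pow_pow y.2.2.2, ← pow_mul, mul_assoc]
      have hy' : ExteriorAlgebra.map (Fr ^ (t * s)) ((good Fr q k t).subtype y) =
          (q : Ω) ^ (k * (t * s)) • (good Fr q k t).subtype y := hy
      rw [hy', map_smul, LinearMap.rTensor_tmul, hψ, LinearMap.sub_apply, LinearMap.smul_apply,
        Module.End.one_apply, TensorProduct.tmul_sub, smul_sub, TensorProduct.smul_tmul',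
        TensorProduct.tmul_smul, smul_smul, ← pow_add]
      congr 3
      rw [← add_mul, Nat.add_sub_cancel' hck]
  have h2 : ∀ (r : ℕ) (z : good Fr q k t ⊗[Ω] M),
      ((frobT Fr φ ^ (t * s) - (q : Ω) ^ (c * (t * s)) •
      (1 : End Ω (ExteriorAlgebra Ω V ⊗[Ω] M))) ^ r)
        (LinearMap.rTensor M (good Fr q k t).subtype z) =
      LinearMap.rTensor M (good Fr q k t).subtype (((q : Ω) ^ (k * (t * s))) ^ r •
        LinearMap.lTensor (good Fr q k t) (ψ ^ r) z) := by
    intro r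
    induction r with
    | zero =>
      intro z
      have : LinearMap.lTensor (good Fr q k t) (1 : End Ω M) = LinearMap.id :=
        LinearMap.lTensor_id _ _
      simp only [pow_zero, Module.End.one_apply, one_smul, this, LinearMap.id_apply]
    | succ r ih =>
      intro z
      have h3 : ψ ^ (r + 1) = (ψ ^ r) ∘ₗ ψ := by rw [pow_succ]; rfl
      have h4 : LinearMap.lTensor (good Fr q k t) (ψ ^ r) ((q : Ω) ^ (k * (t * s)) •
          LinearMap.lTensor (good Fr q k t) ψ z) = (q : Ω) ^ (k * (t * s)) •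
          LinearMap.lTensor (good Fr q k t) (ψ ^ (r + 1)) z := by
        rw [h3, LinearMap.lTensor_comp, map_smul]
        rfl
      rw [pow_succ, Module.End.mul_apply, h1, ih, h4, smul_smul, ← pow_succ]
  have h3 := killed_pow (frobT Fr φ ^ s) ((q : Ω) ^ (c * s)) t r hxT
  rw [← pow_mul, ← pow_mul, mul_assoc, mul_comm s t, h2] at h3
  have hinj : Function.Injective (LinearMap.rTensor M (good Fr q k t).subtype) :=
    Module.Flat.rTensor_preserves_injective_linearMap _ (good Fr q k t).subtype_injective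
  have h4 : LinearMap.lTensor (good Fr q k t) (ψ ^ r) x' = 0 := by
    have h5 : ((q : Ω) ^ (k * (t * s))) ^ r •
        LinearMap.lTensor (good Fr q k t) (ψ ^ r) x' = 0 := by
      apply hinj
      rw [h3, map_zero]
    exact (smul_eq_zero.1 h5).resolve_left (pow_ne_zero _ (pow_ne_zero _ hq))
  have hex : Function.Exact (LinearMap.ker (ψ ^ r)).subtype (ψ ^ r) := by
    intro y
    constructor
    · intro h
      exact ⟨⟨y, h⟩, rfl⟩
    · rintro ⟨y, rfl⟩
      exact y.2
  obtain ⟨x'', hx''⟩ := (Module.Flat.lTensor_exact (good Fr q k t) hex x').1 h4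
  rw [← hx'']
  clear h3 h4 hxT hx''
  induction x'' using TensorProduct.induction_on with
  | zero => rw [map_zero, map_zero]; exact Submodule.zero_mem _
  | add a b ha hb => rw [map_add, map_add]; exact Submodule.add_mem _ ha hb
  | tmul y m =>
    rw [LinearMap.lTensor_tmul, LinearMap.rTensor_tmul]
    refine Submodule.subset_span ⟨y.1, m.1, t * s, Nat.mul_pos ht hs, y.2.1, y.2.2.1, ?_, ?_, rfl⟩
    · rw [map_pow_pow y.2.2.2, ← pow_mul, mul_assoc]
    · have h5 : (ψ ^ r) m.1 = 0 := m.2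
      rw [← hψ]
      exact h5

/-- If a Tate vector is a combination of products of a Tate class of the first factor and an
arbitrary element, it is a combination of products of Tate classes. -/
lemma refine_products {Fr : V →ₗ[Ω] V} {φ : M →ₗ[Ω] M} {q k c s r : ℕ} (hq : (q : Ω) ≠ 0)
    (hs : 0 < s) (hck : k ≤ c) {x : ExteriorAlgebra Ω V ⊗[Ω] M}
    (hx : x ∈ Submodule.span Ω {z | ∃ (y : ExteriorAlgebra Ω V) (m : M) (t : ℕ), 0 < t ∧
      y ∈ good Fr q k t ∧ z = y ⊗ₜ[Ω] m})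
    (hxT : ((frobT Fr φ ^ s - (q : Ω) ^ (c * s) •
      (1 : End Ω (ExteriorAlgebra Ω V ⊗[Ω] M))) ^ r) x = 0) :
    x ∈ Submodule.span Ω (products Fr φ q c k r) := by
  obtain ⟨t, ht, hxt⟩ : ∃ t : ℕ, 0 < t ∧
      x ∈ LinearMap.range (LinearMap.rTensor M (good Fr q k t).subtype) := by
    clear hxT
    induction hx using Submodule.span_induction with
    | mem z hz =>
      obtain ⟨y, m, t, ht, hy, rfl⟩ := hz
      exact ⟨t, ht, ⟨⟨y, hy⟩ ⊗ₜ m, rfl⟩⟩
    | zero => exact ⟨1, one_pos, Submodule.zero_mem _⟩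
    | add a b _ _ ha hb =>
      obtain ⟨t, ht, ha⟩ := ha
      obtain ⟨u, hu, hb⟩ := hb
      refine ⟨t * u, Nat.mul_pos ht hu, Submodule.add_mem _ (range_mono (good_mono u) ha) ?_⟩
      rw [mul_comm t u]
      exact range_mono (good_mono t) hb
    | smul c a _ ha =>
      obtain ⟨t, ht, ha⟩ := ha
      exact ⟨t, ht, Submodule.smul_mem _ c ha⟩
  obtain ⟨x', rfl⟩ := hxt
  exact refine_aux hq hs ht hck x' hxT

end general

end Pool.Agent.V8H92.NS
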