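import Mathlib
import Pool.Agent.V8H92.NS.Tens

/-!
# Tate classes on products with arbitrary varieties
-/

set_option autoImplicit false
set_option linter.unusedSectionVars false

namespace Pool.Agent.V8H92.NS

open Module ExteriorAlgebra TensorProduct

variable {p : ℕ} [hp : Fact p.Prime] {Ω V M : Type} [Field Ω] [IsAlgClosed Ω] [CharZero Ω]
  [AddCommGroup V] [Module Ω V] [AddCommGroup M] [Module Ω M] {F : Type} [Field F]
  [NumberField F] {j : F →+* Ω} {q m : ℕ}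

/-- The products of monomials in eigenvectors and of generalised eigenvectors. -/
def monomials (E : Set Ω) (Fr : V →ₗ[Ω] V) (φ : M →ₗ[Ω] M) (n : ℕ) :
    Set (ExteriorAlgebra Ω V ⊗[Ω] M) :=
  {z | ∃ (v : Fin n → V) (a : Fin n → Ω) (x : M) (β : Ω), (∀ k, Fr (v k) = a k • v k) ∧
    (∀ k, a k ∈ E) ∧ x ∈ End.maxGenEigenspace φ β ∧ z = ιMulti Ω n v ⊗ₜ[Ω] x}

lemma partT_le (E : Set Ω) (Fr : V →ₗ[Ω] V)
    (hFr : Submodule.span Ω {v : V | ∃ μ ∈ E, Fr v = μ • v} = ⊤) [FiniteDimensional Ω M]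
    (φ : M →ₗ[Ω] M) (n : ℕ) : partT Ω V M n ≤ Submodule.span Ω (monomials E Fr φ n) := by
  have hsp := exteriorPower.ιMulti_span_fixedDegree_of_span_eq_top Ω n V hFr
  have key : ∀ y ∈ ⋀[Ω]^n V, ∀ x : M, y ⊗ₜ[Ω] x ∈ Submodule.span Ω (monomials E Fr φ n) := by
    intro y hy x
    rw [← hsp] at hy
    have hx : x ∈ ⨆ β, End.maxGenEigenspace φ β := by
      rw [End.iSup_maxGenEigenspace_eq_top]
      exact Submodule.mem_top
    induction hx using Submodule.iSup_induction' with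
    | mem β x hx =>
      induction hy using Submodule.span_induction with
      | mem y hy =>
        obtain ⟨v, hv, rfl⟩ := hy
        have hv' : ∀ k, ∃ μ ∈ E, Fr (v k) = μ • v k := fun k => hv ⟨k, rfl⟩
        choose a ha1 ha2 using hv'
        exact Submodule.subset_span ⟨v, a, x, β, ha2, ha1, hx, rfl⟩
      | zero => rw [TensorProduct.zero_tmul]; exact Submodule.zero_mem _
      | add a b _ _ ha hb => rw [TensorProduct.add_tmul]; exact Submodule.add_mem _ ha hb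
      | smul c a _ ha =>
        rw [← TensorProduct.smul_tmul']
        exact Submodule.smul_mem _ c ha
    | zero => rw [TensorProduct.tmul_zero]; exact Submodule.zero_mem _
    | add a b _ _ ha hb => rw [TensorProduct.tmul_add]; exact Submodule.add_mem _ ha hb
  rintro z ⟨z', rfl⟩
  induction z' using TensorProduct.induction_on with
  | zero => rw [map_zero]; exact Submodule.zero_mem _
  | add a b ha hb => rw [map_add]; exact Submodule.add_mem _ ha hb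
  | tmul y x => exact key y.1 y.2 x

lemma hasEigenvalue_of_mem {φ : M →ₗ[Ω] M} {β : Ω} {x : M} (hx : x ≠ 0)
    (h : x ∈ End.maxGenEigenspace φ β) : End.HasEigenvalue φ β := by
  rw [End.mem_maxGenEigenspace] at h
  obtain ⟨k, hk⟩ := h
  refine End.hasEigenvalue_of_hasGenEigenvalue (k := k) ?_
  intro hbot
  apply hx
  have h1 : x ∈ End.genEigenspace φ β k := by
    rw [End.mem_genEigenspace_nat]
    exact hk
  rw [hbot] at h1
  exact (Submodule.mem_bot Ω).1 h1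

/-- A Tate vector is a combination of the monomials whose eigenvalue satisfies the relation. -/
lemma mem_span_rel (E : Set Ω) (Fr : V →ₗ[Ω] V)
    (hFr : Submodule.span Ω {v : V | ∃ μ ∈ E, Fr v = μ • v} = ⊤) [FiniteDimensional Ω M]
    (φ : M →ₗ[Ω] M) (hq0 : (q : Ω) ≠ 0) {n c s r : ℕ} (hs : 0 < s)
    {x : ExteriorAlgebra Ω V ⊗[Ω] M} (hx : x ∈ partT Ω V M n)
    (hxT : ((frobT Fr φ ^ s - (q : Ω) ^ (c * s) •
      (1 : End Ω (ExteriorAlgebra Ω V ⊗[Ω] M))) ^ r) x = 0) :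
    x ∈ Submodule.span Ω {z | ∃ (v : Fin n → V) (a : Fin n → Ω) (x : M) (β : Ω),
      (∀ k, Fr (v k) = a k • v k) ∧ (∀ k, a k ∈ E) ∧ β ≠ 0 ∧ End.HasEigenvalue φ β ∧
      ((∏ k, a k) * β) ^ s = (q : Ω) ^ (c * s) ∧ z = ιMulti Ω n v ⊗ₜ[Ω] x} := by
  have h1 := mem_span_gen (frobT Fr φ ^ s) (monomials E Fr φ n) (by
    rintro z ⟨v, a, y, β, hv, ha, hy, rfl⟩
    exact ⟨_, frobT_pow_gen (map_pow_ιMulti hv s) hy⟩) ((q : Ω) ^ (c * s))
    (partT_le E Fr hFr φ n hx) (by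
      rw [End.mem_maxGenEigenspace]
      exact ⟨r, hxT⟩)
  refine (Submodule.span_le.2 ?_) h1
  rintro z ⟨⟨v, a, y, β, hv, ha, hy, rfl⟩, hz⟩
  by_cases h0 : ιMulti Ω n v ⊗ₜ[Ω] y = 0
  · rw [h0]
    exact Submodule.zero_mem _
  have hy0 : y ≠ 0 := by
    rintro rfl
    rw [TensorProduct.tmul_zero] at h0
    exact h0 rfl
  have h2 := frobT_pow_gen (map_pow_ιMulti hv s) hy
  have h3 : ((∏ k, a k) * β) ^ s = (q : Ω) ^ (c * s) := by
    by_contra hne
    have h4 := ((frobT Fr φ ^ s).disjoint_genEigenspace hne ⊤ ⊤).le_bot ⟨h2, hz⟩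
    exact h0 ((Submodule.mem_bot Ω).1 h4)
  have hβ : β ≠ 0 := by
    rintro rfl
    rw [mul_zero, zero_pow hs.ne'] at h3
    exact pow_ne_zero _ hq0 h3.symm
  exact Submodule.subset_span ⟨v, a, y, β, hv, ha, hβ, hasEigenvalue_of_mem hy0 hy, h3, rfl⟩

/-- **Tate classes on products with arbitrary varieties.** -/
theorem tate_times (hF : OnePlace p F) (hqm : q = p ^ m) (hm : 0 < m) {E : Set Ω}
    (hE : ∀ α ∈ E, HasTrace j q α) (hC : PairwiseTate q E) (Fr : V →ₗ[Ω] V)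
    (hFr : Submodule.span Ω {v : V | ∃ μ ∈ E, Fr v = μ • v} = ⊤) [FiniteDimensional Ω M]
    (φ : M →ₗ[Ω] M) {w : ℕ} {e : ℝ}
    (hφ : ∀ β : Ω, β ≠ 0 → End.HasEigenvalue φ β → IsIntegral ℚ β ∧
      (meanSquare p q w β = 0 ∨ (e < 1 / 2 ∧ (∀ α ∈ E, SlopesIn p q e α) ∧
      meanSquare p q w β < (1 - 2 * e) ^ 2)))
    {n c s r : ℕ} (hs : 0 < s) (hc : 2 * c = n + w) {x : ExteriorAlgebra Ω V ⊗[Ω] M}
    (hx : x ∈ partT Ω V M n)
    (hxT : ((frobT Fr φ ^ s - (q : Ω) ^ (c * s) •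
      (1 : End Ω (ExteriorAlgebra Ω V ⊗[Ω] M))) ^ r) x = 0) :
    (∀ k, n = 2 * k → x ∈ Submodule.span Ω (products Fr φ q c k r)) ∧
    (∀ k, n = 2 * k + 1 → (∀ α ∈ E, ∀ β, End.HasEigenvalue φ β → ∀ t : ℕ, 0 < t →
      α ^ (2 * t) = (q : Ω) ^ t → β ^ (2 * t) ≠ (q : Ω) ^ (w * t)) → x = 0) := by
  have hq : 0 < q := by rw [hqm]; exact pow_pos hp.out.pos m
  have hq0 : (q : Ω) ≠ 0 := by exact_mod_cast hq.ne'
  have h1 := mem_span_rel E Fr hFr φ hq0 hs hx hxT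
  constructor
  · intro k hk
    refine refine_products hq0 hs (by omega) ?_ hxT
    refine Submodule.span_mono ?_ h1
    rintro z ⟨v, a, y, β, hv, ha, hβ, heig, hrel, rfl⟩
    obtain ⟨hβ', hsm⟩ := hφ β hβ heig
    obtain ⟨h2, t, ht, h3⟩ := (reduce hF hqm hm hE hC Fr hβ hβ' hsm n v a hv ha c s hs hc hrel
      k).1 hk
    refine ⟨ιMulti Ω n v, y, t, ht, ⟨?_, h2, ?_⟩, rfl⟩
    · rw [← hk]
      exact ExteriorAlgebra.ιMulti_range Ω n ⟨v, rfl⟩
    · rw [map_pow_ιMulti hv, h3]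
  · intro k hk hno
    have h4 : {z | ∃ (v : Fin n → V) (a : Fin n → Ω) (x : M) (β : Ω),
      (∀ k, Fr (v k) = a k • v k) ∧ (∀ k, a k ∈ E) ∧ β ≠ 0 ∧ End.HasEigenvalue φ β ∧
      ((∏ k, a k) * β) ^ s = (q : Ω) ^ (c * s) ∧ z = ιMulti Ω n v ⊗ₜ[Ω] x} = ∅ := by
      rw [Set.eq_empty_iff_forall_notMem]
      rintro z ⟨v, a, y, β, hv, ha, hβ, heig, hrel, -⟩
      obtain ⟨hβ', hsm⟩ := hφ β hβ heig
      obtain ⟨α, hα, c', s', hs', hc', h5⟩ := (reduce hF hqm hm hE hC Fr hβ hβ' hsm n v a hv ha c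
        s hs hc hrel k).2 hk
      obtain ⟨t, ht, h6, h7⟩ := supersingular_of_rel hF hqm hm (hE α hα) hβ hβ' hs' hc' h5 (by
        rcases hsm with h | ⟨h8, h9, h10⟩
        · exact Or.inl h
        · exact Or.inr ⟨e, h8, h9 α hα, h10⟩)
      exact hno α hα β heig t ht h6 h7
    rw [h4, Submodule.span_empty, Submodule.mem_bot] at h1
    exact h1

end Pool.Agent.V8H92.NS
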