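import Mathlib
import Pool.Agent.V8H92.NS.Main

/-!
# The criterion: Tate classes are generated in degree two if and only if this holds for pairs
-/

set_option autoImplicit false
set_option linter.unusedSectionVars false

namespace Pool.Agent.V8H92.NS

open Module ExteriorAlgebra TensorProduct

section one

variable {Ω : Type} [Field Ω] [CharZero Ω]

lemma meanSquare_one (p : ℕ) [Fact p.Prime] (q : ℕ) : meanSquare p q 0 (1 : Ω) = 0 := by
  unfold meanSquare
  have h1 : minpoly ℚ (1 : Ω) = Polynomial.X - Polynomial.C 1 := by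
    have := minpoly.eq_X_sub_C Ω (1 : ℚ)
    rwa [map_one] at this
  have h2 : ((Polynomial.X - Polynomial.C 1 : Polynomial ℚ).aroots (PadicAlgCl p)) = {1} := by
    rw [Polynomial.aroots, Polynomial.map_sub, Polynomial.map_X, Polynomial.map_C, map_one,
      Polynomial.roots_X_sub_C]
  rw [h1, h2]
  simp [ordq]

end one

variable {p : ℕ} [hp : Fact p.Prime] {Ω : Type} [Field Ω] [IsAlgClosed Ω] [CharZero Ω]
  {F : Type} [Field F] [NumberField F] {j : F →+* Ω} {q m : ℕ}

/-- Good pairs imply that all Tate classes are generated in degree two. -/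
theorem tate_generated (hF : OnePlace p F) (hqm : q = p ^ m) (hm : 0 < m) {E : Set Ω}
    (hE : ∀ α ∈ E, HasTrace j q α) (hC : PairwiseTate q E) {V : Type} [AddCommGroup V]
    [Module Ω V] (Fr : V →ₗ[Ω] V)
    (hFr : Submodule.span Ω {v : V | ∃ μ ∈ E, Fr v = μ • v} = ⊤) : TateGenerated Fr q := by
  intro k s x hs hx hxF
  have h1 := (tate_times (M := Ω) hF hqm hm hE hC Fr hFr (LinearMap.id) (w := 0) (e := 0) (by
    intro β _ hβ
    have hβ1 : β = 1 := by
      obtain ⟨v, hv⟩ := hβ.exists_hasEigenvector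
      have h1 := hv.apply_eq_smul
      rw [LinearMap.id_apply, smul_eq_mul] at h1
      have h2 : (β - 1) * v = 0 := by linear_combination -h1
      exact sub_eq_zero.1 ((mul_eq_zero.1 h2).resolve_right hv.2)
    rw [hβ1]
    exact ⟨isIntegral_one, Or.inl (meanSquare_one p q)⟩) (n := 2 * k) (c := k) (s := s) (r := 1)
    hs (by ring) (x := x ⊗ₜ[Ω] (1 : Ω)) ⟨⟨x, hx⟩ ⊗ₜ[Ω] (1 : Ω), rfl⟩ (by
      rw [pow_one, LinearMap.sub_apply, frobT_pow_tmul, hxF, LinearMap.smul_apply,
        Module.End.one_apply]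
      have : (LinearMap.id : Ω →ₗ[Ω] Ω) ^ s = LinearMap.id := one_pow s
      rw [this, LinearMap.id_apply, TensorProduct.smul_tmul', sub_self])).1 k rfl
  have h2 : ∀ z ∈ Submodule.span Ω (products Fr (LinearMap.id : Ω →ₗ[Ω] Ω) q k k 1),
      TensorProduct.rid Ω (ExteriorAlgebra Ω V) z ∈ Algebra.adjoin Ω (tateTwo Fr q) := by
    intro z hz
    induction hz using Submodule.span_induction with
    | mem z hz =>
      obtain ⟨y, a, t, ht, -, hy, -, -, rfl⟩ := hz
      rw [TensorProduct.rid_tmul]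
      exact Subalgebra.smul_mem _ hy a
    | zero => rw [map_zero]; exact Subalgebra.zero_mem _
    | add a b _ _ ha hb => rw [map_add]; exact Subalgebra.add_mem _ ha hb
    | smul c a _ ha => rw [map_smul]; exact Subalgebra.smul_mem _ ha c
  have h3 := h2 _ h1
  rwa [TensorProduct.rid_tmul, one_smul] at h3

/-- A Tate class of degree two is zero if no product of two eigenvalues is of Tate type. -/
lemma tateTwo_eq_zero {V : Type} [AddCommGroup V] [Module Ω V] {Fr : V →ₗ[Ω] V} {E : Set Ω}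
    (hq0 : (q : Ω) ≠ 0) (hFr : Submodule.span Ω {v : V | ∃ μ ∈ E, Fr v = μ • v} = ⊤)
    (hno : ∀ α ∈ E, ∀ β ∈ E, ∀ t : ℕ, 0 < t → (α * β) ^ t ≠ (q : Ω) ^ t)
    {y : ExteriorAlgebra Ω V} (hy : y ∈ tateTwo Fr q) : y = 0 := by
  obtain ⟨hy1, t, ht, hy2⟩ := hy
  have h1 := mem_span_rel (M := Ω) E Fr hFr LinearMap.id hq0 (c := 1) (r := 1) (n := 2) ht
    (x := y ⊗ₜ[Ω] (1 : Ω)) ⟨⟨y, hy1⟩ ⊗ₜ[Ω] (1 : Ω), rfl⟩ (by
      rw [pow_one, LinearMap.sub_apply, frobT_pow_tmul, hy2, LinearMap.smul_apply,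
        Module.End.one_apply]
      have : (LinearMap.id : Ω →ₗ[Ω] Ω) ^ t = LinearMap.id := one_pow t
      rw [this, LinearMap.id_apply, TensorProduct.smul_tmul', one_mul, sub_self])
  have h2 : {z | ∃ (v : Fin 2 → V) (a : Fin 2 → Ω) (x : Ω) (β : Ω),
      (∀ k, Fr (v k) = a k • v k) ∧ (∀ k, a k ∈ E) ∧ β ≠ 0 ∧
      End.HasEigenvalue (LinearMap.id : Ω →ₗ[Ω] Ω) β ∧
      ((∏ k, a k) * β) ^ t = (q : Ω) ^ (1 * t) ∧ z = ιMulti Ω 2 v ⊗ₜ[Ω] x} = ∅ := by
    rw [Set.eq_empty_iff_forall_notMem]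
    rintro z ⟨v, a, x, β, hv, ha, hβ0, hβ, hrel, -⟩
    have hβ1 : β = 1 := by
      obtain ⟨v, hv⟩ := hβ.exists_hasEigenvector
      have h1 := hv.apply_eq_smul
      rw [LinearMap.id_apply, smul_eq_mul] at h1
      have h2 : (β - 1) * v = 0 := by linear_combination -h1
      exact sub_eq_zero.1 ((mul_eq_zero.1 h2).resolve_right hv.2)
    rw [hβ1, mul_one, one_mul, Fin.prod_univ_two] at hrel
    exact hno _ (ha 0) _ (ha 1) t ht hrel
  rw [h2, Submodule.span_empty, Submodule.mem_bot] at h1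
  have h3 := congrArg (TensorProduct.rid Ω (ExteriorAlgebra Ω V)) h1
  rwa [TensorProduct.rid_tmul, one_smul, map_zero] at h3

/-- The converse: if all Tate classes are generated in degree two then the pairs are good. -/
theorem pairwise_of_generated (hq0 : (q : Ω) ≠ 0) {E : Set Ω}
    (H : ∀ (V : Type) [AddCommGroup V] [Module Ω V] [FiniteDimensional Ω V] (Fr : V →ₗ[Ω] V),
      Submodule.span Ω {v : V | ∃ μ ∈ E, Fr v = μ • v} = ⊤ → TateGenerated Fr q) :
    PairwiseTate q E := by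
  classical
  intro α hα β hβ A B s hA hB hs hrel
  by_contra hcon
  push Not at hcon
  set n := 2 * (A + B) with hn
  let d : Fin n → Ω := fun i => if i.1 < 2 * A then α else β
  have hd : ∀ i, d i = α ∨ d i = β := by
    intro i
    by_cases h : i.1 < 2 * A
    · exact Or.inl (if_pos h)
    · exact Or.inr (if_neg h)
  let Fr : (Fin n → Ω) →ₗ[Ω] (Fin n → Ω) := LinearMap.pi fun i => d i • LinearMap.proj i
  have hFre : ∀ i, Fr (Pi.single i 1) = d i • Pi.single i 1 := by
    intro i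
    funext k
    change d k * (Pi.single i (1 : Ω) : Fin n → Ω) k = d i * (Pi.single i (1 : Ω) : Fin n → Ω) k
    by_cases h : k = i
    · rw [h]
    · rw [Pi.single_eq_of_ne h, mul_zero, mul_zero]
  have hspan : Submodule.span Ω {v : Fin n → Ω | ∃ μ ∈ E, Fr v = μ • v} = ⊤ := by
    rw [eq_top_iff, ← (Pi.basisFun Ω (Fin n)).span_eq]
    refine Submodule.span_mono ?_
    rintro _ ⟨i, rfl⟩
    rw [Pi.basisFun_apply]
    refine ⟨d i, ?_, hFre i⟩
    rcases hd i with h | h <;> rw [h] <;> assumption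
  have hspan2 : Submodule.span Ω {v : Fin n → Ω | ∃ μ ∈ ({α, β} : Set Ω), Fr v = μ • v} = ⊤ := by
    rw [eq_top_iff, ← (Pi.basisFun Ω (Fin n)).span_eq]
    refine Submodule.span_mono ?_
    rintro _ ⟨i, rfl⟩
    rw [Pi.basisFun_apply]
    refine ⟨d i, ?_, hFre i⟩
    rcases hd i with h | h <;> rw [h] <;> simp
  have hprod : ∏ i, d i = α ^ (2 * A) * β ^ (2 * B) := by
    have h1 : ∏ i : Fin n, d i = ∏ i ∈ Finset.range n, (if i < 2 * A then α else β) :=
      (Finset.prod_range (fun i => if i < 2 * A then α else β)).symm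
    rw [h1, hn, mul_add, Finset.prod_range_add]
    congr 1
    · rw [Finset.prod_congr rfl (g := fun _ => α), Finset.prod_const, Finset.card_range]
      intro i hi
      rw [Finset.mem_range] at hi
      rw [if_pos hi]
    · rw [Finset.prod_congr rfl (g := fun _ => β), Finset.prod_const, Finset.card_range]
      intro i hi
      rw [if_neg (by omega)]
  set x := ιMulti Ω n (fun i => (Pi.single i 1 : Fin n → Ω)) with hx
  have hxmem : x ∈ ⋀[Ω]^n (Fin n → Ω) := ExteriorAlgebra.ιMulti_range Ω n ⟨_, rfl⟩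
  have hxF : ExteriorAlgebra.map (Fr ^ s) x = (q : Ω) ^ ((A + B) * s) • x := by
    rw [hx, map_pow_ιMulti hFre, hprod, ← hrel]
    congr 1
    rw [mul_pow, mul_pow, ← pow_mul, ← pow_mul, ← pow_mul, ← pow_mul]
    congr 2 <;> ring
  have h1 := H (Fin n → Ω) Fr hspan (A + B) s x hs hxmem hxF
  -- there are no Tate classes of degree two
  have hαα : ∀ γ ∈ ({α, β} : Set Ω), ∀ δ ∈ ({α, β} : Set Ω), ∀ t : ℕ, 0 < t →
      (γ * δ) ^ t ≠ (q : Ω) ^ t := by
    have hself : ∀ (γ δ : Ω) (C D : ℕ), 0 < D → (γ ^ C * δ ^ D) ^ (2 * s) =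
        (q : Ω) ^ ((C + D) * s) → (∀ t : ℕ, 0 < t → (γ * δ) ^ t ≠ (q : Ω) ^ t) →
        ∀ t : ℕ, 0 < t → (γ * γ) ^ t ≠ (q : Ω) ^ t := by
      intro γ δ C D hD h2 h3 t ht h4
      have h5 : γ ^ (2 * (C * s * t)) = (q : Ω) ^ (C * s * t) := by
        rw [← pow_two, ← pow_mul] at h4
        calc γ ^ (2 * (C * s * t)) = (γ ^ (2 * t)) ^ (C * s) := by rw [← pow_mul]; ring_nf
          _ = _ := by rw [h4, ← pow_mul]; ring_nf
      have h6 : γ ^ (2 * (C * s * t)) * δ ^ (2 * (D * s * t)) =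
          (q : Ω) ^ (C * s * t) * (q : Ω) ^ (D * s * t) := by
        calc γ ^ (2 * (C * s * t)) * δ ^ (2 * (D * s * t)) =
              ((γ ^ C * δ ^ D) ^ (2 * s)) ^ t := by
                rw [← pow_mul, mul_pow, ← pow_mul, ← pow_mul]; ring_nf
          _ = _ := by rw [h2, ← pow_mul, ← pow_add]; ring_nf
      rw [h5] at h6
      have h7 : δ ^ (2 * (D * s * t)) = (q : Ω) ^ (D * s * t) :=
        mul_left_cancel₀ (pow_ne_zero _ hq0) h6
      have h8 : γ ^ (2 * (D * s * t)) = (q : Ω) ^ (D * s * t) := by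
        rw [← pow_two, ← pow_mul] at h4
        calc γ ^ (2 * (D * s * t)) = (γ ^ (2 * t)) ^ (D * s) := by rw [← pow_mul]; ring_nf
          _ = _ := by rw [h4, ← pow_mul]; ring_nf
      refine h3 (2 * (D * s * t)) (by positivity) ?_
      rw [mul_pow, h7, h8, ← pow_add]
      ring_nf
    have hαα := hself α β A B hB hrel hcon
    have hcon' : ∀ t : ℕ, 0 < t → (β * α) ^ t ≠ (q : Ω) ^ t := fun t ht => by
      rw [mul_comm]; exact hcon t ht
    have hββ := hself β α B A hA (by rw [mul_comm, hrel, add_comm]) hcon'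
    rintro γ (rfl | rfl) δ (rfl | rfl)
    · exact hαα
    · exact hcon
    · exact hcon'
    · exact hββ
  have h2 : ∀ y ∈ tateTwo Fr q, y = 0 := fun y hy => tateTwo_eq_zero hq0 hspan2 hαα hy
  have h3 : Algebra.adjoin Ω (tateTwo Fr q) ≤ ⊥ := by
    rw [Algebra.adjoin_le_iff]
    intro y hy
    rw [h2 y hy]
    exact Subalgebra.zero_mem _
  obtain ⟨c, hc⟩ := Algebra.mem_bot.1 (h3 h1)
  let f : ∀ i, (Fin n → Ω) [⋀^Fin i]→ₗ[Ω] Ω := fun i =>
    if h : i = n then h ▸ (Pi.basisFun Ω (Fin n)).det else 0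
  have hf1 : ExteriorAlgebra.liftAlternating f x = 1 := by
    rw [hx, ExteriorAlgebra.liftAlternating_apply_ιMulti]
    have : f n = (Pi.basisFun Ω (Fin n)).det := by
      simp only [f, dif_pos]
    rw [this]
    have h4 : (fun i => (Pi.single i 1 : Fin n → Ω)) = Pi.basisFun Ω (Fin n) := by
      funext i
      rw [Pi.basisFun_apply]
    rw [h4, Module.Basis.det_self]
  have hf2 : ExteriorAlgebra.liftAlternating f x = 0 := by
    rw [← hc, ExteriorAlgebra.liftAlternating_algebraMap]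
    have : f 0 = 0 := by
      have h5 : ¬ (0 = n) := by omega
      simp only [f, dif_neg h5]
    rw [this]
    simp
  rw [hf1] at hf2
  exact one_ne_zero hf2

end Pool.Agent.V8H92.NS
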