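import Mathlib
import Pool.Agent.H498R2.KlWeil

/-!
# Kloosterman sums over the extensions of a finite field
-/

set_option autoImplicit false
set_option linter.unusedSectionVars false

namespace Pool.Agent.V8H92.NS.KL

open Polynomial Finset
open Pool.Agent.H341R2.Sharp Pool.Agent.H498R2.Kl

variable {k : Type} [Field k] [Fintype k] [DecidableEq k]

lemma sum_mon_two (f : k[X] → ℂ) :
    ∑ h ∈ Mon k 2, f h = ∑ d : k, ∑ c : k, f (X ^ 2 + C c * X + C d) := by
  rw [← Finset.sum_product', Finset.univ_product_univ]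
  symm
  refine sum_bij (fun (x : k × k) _ => X ^ 2 + C x.2 * X + C x.1) ?_ ?_ ?_ ?_
  · intro x _
    rw [mem_Mon]
    constructor
    · monicity!
    · compute_degree!
  · intro x _ y _ h
    have h0 := congrArg (fun g : k[X] => g.coeff 0) h
    have h1 := congrArg (fun g : k[X] => g.coeff 1) h
    simp [coeff_X] at h0 h1
    exact Prod.ext h0 h1
  · intro h hh
    rw [mem_Mon] at hh
    refine ⟨(h.coeff 0, h.coeff 1), mem_univ _, ?_⟩
    have h2 : h.coeff 2 = 1 := by
      have := hh.1.coeff_natDegree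
      rwa [hh.2] at this
    conv_rhs => rw [h.as_sum_range' 3 (by rw [hh.2]; norm_num)]
    simp only [sum_range_succ, range_zero, sum_empty, zero_add, h2, ← C_mul_X_pow_eq_monomial,
      map_one, one_mul, pow_zero, mul_one, pow_one]
    ring
  · intro x _
    rfl

lemma lamK_two (ψ : AddChar k ℂ) (a b c d : k) :
    lamK ψ a b (X ^ 2 + C c * X + C d) = if d = 0 then 0 else ψ (-(a * c + b * (c / d))) := by
  have e0 : (X ^ 2 + C c * X + C d : k[X]).coeff 0 = d := by simp
  have e1 : (X ^ 2 + C c * X + C d : k[X]).coeff 1 = c := by simp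
  have hd : (X ^ 2 + C c * X + C d : k[X]).natDegree = 2 := by compute_degree!
  have e2 : (X ^ 2 + C c * X + C d : k[X]).nextCoeff = c := by
    rw [nextCoeff_of_natDegree_pos (by rw [hd]; norm_num), hd]
    exact e1
  unfold lamK
  rw [e0, e1, e2]

lemma AG_two {ψ : AddChar k ℂ} (hψ : ψ ≠ 1) {a b : k} (ha : a ≠ 0) (hb : b ≠ 0) :
    AG (lamK ψ a b) 2 = Fintype.card k := by
  have hprim : ψ.IsPrimitive := AddChar.IsPrimitive.of_ne_one hψ
  unfold AG
  rw [sum_mon_two]
  have h1 : ∀ d : k, ∑ c : k, lamK ψ a b (X ^ 2 + C c * X + C d) =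
      if d = -b / a then (Fintype.card k : ℂ) else 0 := by
    intro d
    simp_rw [lamK_two]
    by_cases hd : d = 0
    · subst hd
      have : (0 : k) ≠ -b / a := (div_ne_zero (neg_ne_zero.2 hb) ha).symm
      simp [this]
    · simp only [if_neg hd]
      have h2 : ∀ c : k, ψ (-(a * c + b * (c / d))) = ψ (c * -(a + b / d)) := by
        intro c
        congr 1
        rw [mul_neg, mul_add, mul_div_assoc', mul_div_assoc', mul_comm b c, mul_comm a c]
      simp_rw [h2]
      rw [AddChar.sum_mulShift _ hprim]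
      have h3 : -(a + b / d) = 0 ↔ d = -b / a := by
        rw [neg_eq_zero, eq_div_iff ha]
        have h5 : (a + b / d) * d = d * a + b := by
          rw [add_mul, div_mul_cancel₀ _ hd]
          ring
        constructor
        · intro h
          rw [h, zero_mul] at h5
          linear_combination -h5
        · intro h
          have h6 : (a + b / d) * d = 0 := by rw [h5, h]; ring
          exact (mul_eq_zero.1 h6).resolve_right hd
      simp only [h3]
      split_ifs <;> simp
  simp_rw [h1]
  rw [sum_ite_eq' univ (-b / a)]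
  simp

/-- The Kloosterman sum. -/
noncomputable def kl (ψ : AddChar k ℂ) (a b : k) : ℂ :=
  ∑ x : kˣ, ψ (a * (x : k) + b * ((x⁻¹ : kˣ) : k))

lemma kl_eq (ψ : AddChar k ℂ) (a b : k) :
    ∑ x : k, (if x = 0 then (0 : ℂ) else ψ (a * x + b * x⁻¹)) = kl ψ a b := by
  have h2 : ∀ x : k, (if x = 0 then (0 : ℂ) else ψ (a * x + b * x⁻¹)) =
      if x ≠ 0 then ψ (a * x + b * x⁻¹) else 0 := by
    intro x
    by_cases h0 : x = 0 <;> simp [h0]
  simp_rw [h2]
  rw [← sum_filter]
  symm
  unfold kl
  refine sum_bij (fun (x : kˣ) _ => (x : k)) ?_ ?_ ?_ ?_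
  · intro x _
    rw [mem_filter]
    exact ⟨mem_univ _, x.ne_zero⟩
  · intro x _ y _ hxy
    exact Units.ext hxy
  · intro x hx
    rw [mem_filter] at hx
    exact ⟨Units.mk0 x hx.2, mem_univ _, rfl⟩
  · intro x _
    simp

lemma LK_one {ψ : AddChar k ℂ} (hψ : ψ ≠ 1) {a : k} (ha : a ≠ 0) (b : k) :
    (LK ψ a b).coeff 1 = kl ψ a b := by
  have h3 := LK_HID hψ ha b 1
  rw [Icc_self, sum_singleton, Nat.sub_self, LK_zero hψ ha, one_mul, Nat.cast_one,
    one_mul] at h3
  rw [h3]
  have h4 := TK_eq_sum (F := k) (E := k) ψ a b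
  rw [Module.finrank_self] at h4
  rw [h4, ← kl_eq]
  apply sum_congr rfl
  intro x _
  simp

/-- The Kloosterman sums over the extensions are given by the two roots. -/
lemma TG_eq_roots {ψ : AddChar k ℂ} (hψ : ψ ≠ 1) {a b : k} (ha : a ≠ 0) (hb : b ≠ 0)
    {x y : ℂ} (hsum : x + y = -kl ψ a b) (hprod : x * y = Fintype.card k) (n : ℕ) (hn : 1 ≤ n) :
    TG (lamK ψ a b) n = -(x ^ n + y ^ n) := by
  have c0 : (LK ψ a b).coeff 0 = 1 := LK_zero hψ ha b
  have c1 : (LK ψ a b).coeff 1 = -(x + y) := by rw [LK_one hψ ha, hsum, neg_neg]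
  have c2 : (LK ψ a b).coeff 2 = x * y := by rw [LK_coeff hψ ha, AG_two hψ ha hb, hprod]
  have c3 : ∀ m, 3 ≤ m → (LK ψ a b).coeff m = 0 := fun m hm => by
    rw [LK_coeff hψ ha, AK_eq_zero hψ ha b m hm]
  have hid := LK_HID hψ ha b
  induction n using Nat.strong_induction_on with
  | _ n ih =>
    match n, hn with
    | 1, _ =>
      have h := hid 1
      rw [Icc_self, sum_singleton, Nat.sub_self, c0, c1] at h
      push_cast at h
      linear_combination -h
    | 2, _ =>
      have h := hid 2
      have h1 := ih 1 (by omega) le_rfl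
      have h2 : Icc 1 2 = {1, 2} := rfl
      rw [h2, sum_pair (by norm_num)] at h
      simp only [Nat.sub_self, Nat.reduceSub] at h
      rw [c0, c1, c2, h1] at h
      push_cast at h
      linear_combination -h
    | (m + 3), _ =>
      have h := hid (m + 3)
      have h1 := ih (m + 1) (by omega) (by omega)
      have h2 := ih (m + 2) (by omega) (by omega)
      have h3 : ∑ i ∈ Icc 1 (m + 3), (LK ψ a b).coeff (m + 3 - i) * TG (lamK ψ a b) i =
          ∑ i ∈ {m + 1, m + 2, m + 3}, (LK ψ a b).coeff (m + 3 - i) * TG (lamK ψ a b) i := by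
        symm
        refine sum_subset ?_ ?_
        · intro i hi
          simp only [mem_insert, mem_singleton] at hi
          rw [mem_Icc]
          omega
        · intro i hi hi'
          simp only [mem_insert, mem_singleton, not_or] at hi'
          rw [mem_Icc] at hi
          rw [c3 _ (by omega), zero_mul]
      rw [h3, c3 _ (by omega)] at h
      rw [sum_insert (by simp), sum_insert (by simp), sum_singleton] at h
      have e1 : m + 3 - (m + 1) = 2 := by omega
      have e2 : m + 3 - (m + 2) = 1 := by omega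
      have e3 : m + 3 - (m + 3) = 0 := by omega
      rw [e1, e2, e3, c0, c1, c2, h1, h2] at h
      linear_combination -h

end Pool.Agent.V8H92.NS.KL
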