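import Mathlib
import Pool.Agent.V8H92.NS.KlA
import Pool.Agent.V8H92.NS.Defs

/-!
# The Frobenius eigenvalues of Kloosterman curves
-/

set_option autoImplicit false
set_option linter.unusedSectionVars false

namespace Pool.Agent.V8H92.NS.KL

open Polynomial Finset Module
open Pool.Agent.H341R2.Sharp Pool.Agent.H498R2.Kl

section traces

variable {K V : Type} [Field K] [IsAlgClosed K] [CharZero K] [AddCommGroup V] [Module K V]
  [FiniteDimensional K V]

/-- The traces of the powers of a semisimple endomorphism. -/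
lemma trace_pow_semisimple {Φ : V →ₗ[K] V} (h : Module.End.IsSemisimple Φ) :
    ∃ S : Finset K, (∀ μ, μ ∈ S ↔ End.HasEigenvalue Φ μ) ∧
      ∀ n : ℕ, LinearMap.trace K V (Φ ^ n) =
        ∑ μ ∈ S, (finrank K (End.eigenspace Φ μ) : K) * μ ^ n := by
  classical
  have hint : DirectSum.IsInternal fun μ : K => End.eigenspace Φ μ := by
    rw [DirectSum.isInternal_submodule_iff_iSupIndep_and_iSup_eq_top]
    exact ⟨Module.End.eigenspaces_iSupIndep Φ, h.iSup_eigenspace_eq_top⟩
  have hfin : {μ : K | End.eigenspace Φ μ ≠ ⊥}.Finite :=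
    WellFoundedGT.finite_ne_bot_of_iSupIndep (Module.End.eigenspaces_iSupIndep Φ)
  refine ⟨hfin.toFinset, fun μ => by
    rw [Set.Finite.mem_toFinset]
    exact Iff.rfl, fun n => ?_⟩
  have hmaps : ∀ μ : K, Set.MapsTo (Φ ^ n) (End.eigenspace Φ μ) (End.eigenspace Φ μ) := by
    intro μ x hx
    have h1 : (Φ ^ n) x = μ ^ n • x := by
      induction n with
      | zero => simp
      | succ n ih =>
        rw [pow_succ', Module.End.mul_apply, ih, map_smul, End.mem_eigenspace_iff.1 hx, smul_smul,
          pow_succ]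
    rw [h1]
    exact Submodule.smul_mem _ _ hx
  rw [LinearMap.trace_eq_sum_trace_restrict' hint hfin hmaps]
  refine Finset.sum_congr rfl fun μ _ => ?_
  have h2 : (Φ ^ n).restrict (hmaps μ) = μ ^ n • (LinearMap.id : End.eigenspace Φ μ →ₗ[K] _) := by
    ext x
    rw [LinearMap.restrict_apply, LinearMap.smul_apply, LinearMap.id_apply, Submodule.coe_smul]
    change (Φ ^ n) x.1 = μ ^ n • x.1
    induction n with
    | zero => simp
    | succ n ih =>
      rw [pow_succ', Module.End.mul_apply, ih (by
        intro ν y hy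
        have h3 : (Φ ^ n) y = ν ^ n • y := by
          clear ih hmaps
          induction n with
          | zero => simp
          | succ n ih =>
            rw [pow_succ', Module.End.mul_apply, ih, map_smul, End.mem_eigenspace_iff.1 hy,
              smul_smul, pow_succ]
        rw [h3]
        exact Submodule.smul_mem _ _ hy), map_smul, End.mem_eigenspace_iff.1 x.2, smul_smul,
        pow_succ]
  rw [h2, map_smul, LinearMap.trace_id, smul_eq_mul, mul_comm]

/-- If the traces of the powers are sums of powers, then the nonzero eigenvalues are among these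
numbers. -/
lemma eigenvalue_mem {Φ : V →ₗ[K] V} (h : Module.End.IsSemisimple Φ) {ι : Type} (I : Finset ι)
    (γ : ι → K) (htr : ∀ n : ℕ, 1 ≤ n → LinearMap.trace K V (Φ ^ n) = ∑ i ∈ I, γ i ^ n) {μ : K}
    (hμ : End.HasEigenvalue Φ μ) (hμ0 : μ ≠ 0) : ∃ i ∈ I, γ i = μ := by
  classical
  obtain ⟨S, hS, hS2⟩ := trace_pow_semisimple h
  by_contra hcon
  push Not at hcon
  set f : K[X] := X * ((∏ ν ∈ S.erase μ, (X - C ν)) * ∏ i ∈ I, (X - C (γ i))) with hf
  have key : ∀ g : K[X], g.coeff 0 = 0 → ∑ ν ∈ S, (finrank K (End.eigenspace Φ ν) : K) * g.eval ν =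
      ∑ i ∈ I, g.eval (γ i) := by
    intro g hg
    have h1 : ∀ x : K, g.eval x = ∑ n ∈ range (g.natDegree + 1), g.coeff n * x ^ n :=
      fun x => eval_eq_sum_range x
    simp_rw [h1, Finset.mul_sum]
    rw [Finset.sum_comm, Finset.sum_comm (s := I)]
    refine Finset.sum_congr rfl fun n _ => ?_
    by_cases hn : n = 0
    · rw [hn, hg]
      simp
    · have h2 := htr n (Nat.one_le_iff_ne_zero.2 hn)
      rw [hS2] at h2
      rw [← Finset.mul_sum, ← h2, Finset.mul_sum]
      refine Finset.sum_congr rfl fun ν _ => ?_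
      ring
  have hf0 : f.coeff 0 = 0 := by rw [hf]; simp
  have h1 := key f hf0
  have h2 : ∀ i ∈ I, f.eval (γ i) = 0 := by
    intro i hi
    rw [hf, eval_mul, eval_mul, eval_prod, eval_prod]
    have : ∏ i' ∈ I, (X - C (γ i') : K[X]).eval (γ i) = 0 :=
      Finset.prod_eq_zero hi (by simp)
    rw [this]
    simp
  rw [Finset.sum_eq_zero h2, Finset.sum_eq_single μ] at h1
  · have h3 : f.eval μ ≠ 0 := by
      rw [hf, eval_mul, eval_mul, eval_prod, eval_prod, eval_X]
      refine mul_ne_zero hμ0 (mul_ne_zero ?_ ?_)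
      · refine Finset.prod_ne_zero_iff.2 fun ν hν => ?_
        rw [eval_sub, eval_X, eval_C]
        exact sub_ne_zero.2 (Finset.ne_of_mem_erase hν).symm
      · refine Finset.prod_ne_zero_iff.2 fun i hi => ?_
        rw [eval_sub, eval_X, eval_C]
        exact sub_ne_zero.2 (hcon i hi).symm
    have h4 : (finrank K (End.eigenspace Φ μ) : K) ≠ 0 := by
      rw [Nat.cast_ne_zero]
      intro h5
      have := Submodule.finrank_eq_zero.1 h5
      exact hμ this
    exact (mul_ne_zero h4 h3) h1
  · intro ν hν hne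
    rw [hf, eval_mul, eval_mul, eval_prod]
    have : ∏ ν' ∈ S.erase μ, (X - C ν' : K[X]).eval ν = 0 :=
      Finset.prod_eq_zero (Finset.mem_erase.2 ⟨hne, hν⟩) (by simp)
    rw [this]
    simp
  · intro hμS
    exact absurd ((hS μ).2 hμ) hμS

end traces

variable {k : Type} [Field k] [Fintype k] [DecidableEq k]

lemma card_points (E : Type) [Field E] [Fintype E] [DecidableEq E] [Algebra k E]
    {ψ : AddChar k ℂ} (hψ : ψ.IsPrimitive) (a b : k) :
    (Nat.card {P : E × E // P.1 ≠ 0 ∧ P.2 ^ Fintype.card k - P.2 =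
      algebraMap k E a * P.1 + algebraMap k E b * P.1⁻¹} : ℂ) =
      (Fintype.card E - 1) + ∑ c ∈ univ.filter (fun c : k => c ≠ 0), KE E ψ (c * a) (c * b) := by
  have h1 : Nat.card {P : E × E // P.1 ≠ 0 ∧ P.2 ^ Fintype.card k - P.2 =
      algebraMap k E a * P.1 + algebraMap k E b * P.1⁻¹} =
      ∑ x : E, ∑ z : E, if x ≠ 0 ∧ z ^ Fintype.card k - z =
        algebraMap k E a * x + algebraMap k E b * x⁻¹ then 1 else 0 := by
    rw [Nat.card_eq_fintype_card, Fintype.card_subtype, Finset.card_filter,
      ← Finset.univ_product_univ, Finset.sum_product]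
  have h2 : ∑ c : k, KE E ψ (c * a) (c * b) =
      ∑ x : E, ∑ z : E, if x ≠ 0 ∧ z ^ Fintype.card k - z =
        algebraMap k E a * x + algebraMap k E b * x⁻¹ then (1 : ℂ) else 0 := by
    unfold KE
    rw [Finset.sum_comm]
    refine Finset.sum_congr rfl fun x _ => ?_
    by_cases hx : x = 0
    · simp [hx]
    · simp only [if_neg hx]
      have h3 : ∀ c : k, Algebra.trace k E (algebraMap k E (c * a) * x +
          algebraMap k E (c * b) * x⁻¹) =
          c * Algebra.trace k E (algebraMap k E a * x + algebraMap k E b * x⁻¹) := by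
        intro c
        have h := (Algebra.trace k E).map_smul c
          (algebraMap k E a * x + algebraMap k E b * x⁻¹)
        rw [smul_eq_mul] at h
        rw [← h, Algebra.smul_def]
        congr 1
        rw [map_mul, map_mul]
        ring
      simp_rw [h3]
      rw [AddChar.sum_mulShift _ hψ]
      have h4 := hilbert90 (F := k) (algebraMap k E a * x + algebraMap k E b * x⁻¹)
      rw [← h4, card_filter]
      push_cast
      refine Finset.sum_congr rfl fun z _ => ?_
      congr 1
      apply propext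
      constructor
      · intro h
        exact ⟨hx, h⟩
      · rintro ⟨_, h⟩
        exact h
  have h3 : KE E ψ (0 * a) (0 * b) = Fintype.card E - 1 := by
    unfold KE
    have h3 : ∀ x : E, (if x = 0 then (0 : ℂ) else
        ψ (Algebra.trace k E (algebraMap k E (0 * a) * x + algebraMap k E (0 * b) * x⁻¹))) =
        1 - if x = 0 then 1 else 0 := by
      intro x
      split_ifs <;> simp
    simp_rw [h3]
    rw [sum_sub_distrib]
    simp
  have h4 : ∑ c : k, KE E ψ (c * a) (c * b) =
      ∑ c ∈ univ.filter (fun c : k => c ≠ 0), KE E ψ (c * a) (c * b) +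
        KE E ψ (0 * a) (0 * b) := by
    rw [← sum_filter_add_sum_filter_not univ (fun c : k => c ≠ 0)]
    congr 1
    have : (univ.filter fun c : k => ¬ c ≠ 0) = {0} := by
      ext c
      simp
    rw [this, sum_singleton]
  rw [h1]
  push_cast
  rw [← h2, h4, h3]
  ring

/-- **The Frobenius eigenvalues of Kloosterman curves.** -/
theorem eigenvalue_kl {a b : k} (ha : a ≠ 0) (hb : b ≠ 0) {V : Type} [AddCommGroup V]
    [Module ℂ V] [FiniteDimensional ℂ V] {Φ : V →ₗ[ℂ] V} (h : IsKloostermanCurve a b Φ)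
    {ψ : AddChar k ℂ} (hψ : ψ ≠ 1) {μ : ℂ} (hμ : End.HasEigenvalue Φ μ) :
    ∃ c : k, c ≠ 0 ∧ μ ^ 2 + kl ψ (c * a) (c * b) * μ + Fintype.card k = 0 := by
  classical
  have hprim : ψ.IsPrimitive := AddChar.IsPrimitive.of_ne_one hψ
  have hroots : ∀ c : k, ∃ x y : ℂ, x + y = -kl ψ (c * a) (c * b) ∧ x * y = Fintype.card k := by
    intro c
    obtain ⟨x, hx⟩ := IsAlgClosed.exists_root (X ^ 2 + C (kl ψ (c * a) (c * b)) * X +
      C (Fintype.card k : ℂ) : ℂ[X]) (by
        have : (X ^ 2 + C (kl ψ (c * a) (c * b)) * X + C (Fintype.card k : ℂ) : ℂ[X]).degree =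
            2 := by compute_degree!
        rw [this]
        norm_num)
    refine ⟨x, -kl ψ (c * a) (c * b) - x, by ring, ?_⟩
    simp only [IsRoot, eval_add, eval_pow, eval_X, eval_mul, eval_C] at hx
    linear_combination -hx
  choose x y hsum hprod using hroots
  have htr : ∀ n : ℕ, 1 ≤ n → LinearMap.trace ℂ V (Φ ^ n) =
      ∑ i ∈ (univ.filter (fun c : k => c ≠ 0)) ×ˢ (univ : Finset Bool),
        (if i.2 then x i.1 else y i.1) ^ n := by
    intro n hn
    obtain ⟨p, hp⟩ := CharP.exists k
    have : Fact (Nat.Prime p) := ⟨CharP.char_is_prime k p⟩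
    have : NeZero n := ⟨by omega⟩
    let E := FiniteField.Extension k p n
    let _ : Fintype E := Fintype.ofFinite E
    have hfr : Module.finrank k E = n := FiniteField.finrank_extension k p n
    have h1 := h.lefschetz E
    rw [card_points E hprim, hfr] at h1
    have h2 : ∀ c : k, KE E ψ (c * a) (c * b) = TG (lamK ψ (c * a) (c * b)) n := by
      intro c
      have h5 := TK_eq_sum (E := E) ψ (c * a) (c * b)
      rw [hfr] at h5
      exact h5.symm
    simp_rw [h2] at h1
    rw [Finset.sum_product]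
    have h3 : ∀ c ∈ univ.filter (fun c : k => c ≠ 0), ∑ i : Bool,
        (if i then x c else y c) ^ n = -TG (lamK ψ (c * a) (c * b)) n := by
      intro c hc
      rw [mem_filter] at hc
      rw [TG_eq_roots hψ (mul_ne_zero hc.2 ha) (mul_ne_zero hc.2 hb) (hsum c) (hprod c) n hn]
      simp
    rw [Finset.sum_congr rfl h3, Finset.sum_neg_distrib]
    linear_combination h1
  have hμ0 : μ ≠ 0 := by
    rintro rfl
    obtain ⟨v, hv⟩ := hμ.exists_hasEigenvector
    have h1 := hv.apply_eq_smul
    rw [zero_smul, ← map_zero Φ] at h1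
    exact hv.2 (h.injective h1)
  obtain ⟨i, hi, hi2⟩ := eigenvalue_mem h.semisimple _ _ htr hμ hμ0
  rw [mem_product, mem_filter] at hi
  refine ⟨i.1, hi.1.2, ?_⟩
  have hs := hsum i.1
  have hp := hprod i.1
  rw [← hi2]
  split_ifs
  · linear_combination (x i.1) * hs - hp
  · linear_combination (y i.1) * hs - hp

end Pool.Agent.V8H92.NS.KL
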