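import Mathlib
import Pool.Agent.V8H92.NS.Omega

/-!
# Fields with one prime ideal over `p`
-/

set_option autoImplicit false
set_option linter.unusedSectionVars false

namespace Pool.Agent.V8H92.NS

open Module Polynomial NumberField

variable {p : ℕ} [hp : Fact p.Prime] {F : Type} [Field F] [NumberField F]

/-- If all embeddings in the algebraic closure of `ℚ_p` induce the same absolute value, then they are
conjugate under the automorphisms of this field. -/
lemma onePlace_of_norm (h : ∀ (τ τ' : F →+* PadicAlgCl p) (x : F), ‖τ x‖ = ‖τ' x‖) :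
    OnePlace p F := by
  intro τ τ'
  obtain ⟨θ, hθ⟩ := Field.exists_primitive_element ℚ F
  have halg : ∀ z : PadicAlgCl p, IsIntegral ℚ_[p] z := fun z => Algebra.IsIntegral.isIntegral z
  set f := minpoly ℚ_[p] (τ θ) with hf
  have hroot : aeval (τ' θ) f = 0 := by
    -- approximate the coefficients of `f` by rational numbers
    have key : ∀ ε : ℝ, 0 < ε → ‖aeval (τ' θ) f‖ ≤ ε := by
      intro ε hε
      set C : ℝ := max 1 (max ‖τ θ‖ ‖τ' θ‖) ^ f.natDegree with hC
      have hC1 : 1 ≤ max 1 (max ‖τ θ‖ ‖τ' θ‖) := le_max_left _ _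
      have hCpos : 0 < C := by positivity
      have happ : ∀ i : ℕ, ∃ r : ℚ, ‖f.coeff i - (r : ℚ_[p])‖ < ε / C := by
        intro i
        exact Padic.rat_dense p (f.coeff i) (by positivity)
      choose r hr using happ
      let g : ℚ[X] := ∑ i ∈ Finset.range (f.natDegree + 1), Polynomial.C (r i) * X ^ i
      have hg : ∀ σ : F →+* PadicAlgCl p, ‖σ θ‖ ≤ max 1 (max ‖τ θ‖ ‖τ' θ‖) →
          ‖aeval (σ θ) f - σ (aeval θ g)‖ ≤ ε := by
        intro σ hσ
        have h1 : aeval (σ θ) f - σ (aeval θ g) = ∑ i ∈ Finset.range (f.natDegree + 1),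
            algebraMap ℚ_[p] (PadicAlgCl p) (f.coeff i - (r i : ℚ_[p])) * (σ θ) ^ i := by
          have h2 : σ (aeval θ g) = ∑ i ∈ Finset.range (f.natDegree + 1),
              algebraMap ℚ_[p] (PadicAlgCl p) (r i : ℚ_[p]) * (σ θ) ^ i := by
            simp only [g, map_sum, map_mul, map_pow, aeval_C, aeval_X]
            refine Finset.sum_congr rfl fun i _ => ?_
            congr 1
            have h3 : (algebraMap ℚ F (r i)) = (r i : F) := rfl
            rw [h3, map_ratCast, map_ratCast]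
          rw [h2, aeval_eq_sum_range, ← Finset.sum_sub_distrib]
          refine Finset.sum_congr rfl fun i _ => ?_
          rw [Algebra.smul_def, map_sub]
          ring
        rw [h1]
        refine IsUltrametricDist.norm_sum_le_of_forall_le_of_nonneg hε.le fun i hi => ?_
        rw [norm_mul, norm_pow, PadicAlgCl.norm_extends]
        have h4 : ‖σ θ‖ ^ i ≤ C := by
          calc ‖σ θ‖ ^ i ≤ max 1 (max ‖τ θ‖ ‖τ' θ‖) ^ i := by gcongr
            _ ≤ C := pow_le_pow_right₀ hC1 (by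
              rw [Finset.mem_range] at hi
              omega)
        calc ‖f.coeff i - (r i : ℚ_[p])‖ * ‖σ θ‖ ^ i ≤ (ε / C) * C := by
              gcongr
              exact (hr i).le
          _ = ε := by field_simp
      have h5 := hg τ ((le_max_left _ _).trans (le_max_right _ _))
      have h6 := hg τ' ((le_max_right _ _).trans (le_max_right _ _))
      rw [hf, minpoly.aeval, zero_sub, norm_neg, h τ τ'] at h5
      have h7 : aeval (τ' θ) f = (aeval (τ' θ) f - τ' (aeval θ g)) + τ' (aeval θ g) := by ring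
      rw [h7]
      refine (IsUltrametricDist.norm_add_le_max _ _).trans ?_
      exact max_le h6 h5
    have : ‖aeval (τ' θ) f‖ ≤ 0 := le_of_forall_pos_le_add fun ε hε => by
      rw [zero_add]
      exact key ε hε
    exact norm_le_zero_iff.1 this
  have hmin : minpoly ℚ_[p] (τ' θ) = minpoly ℚ_[p] (τ θ) :=
    (minpoly.eq_of_irreducible_of_monic (minpoly.irreducible (halg _)) hroot
      (minpoly.monic (halg _))).symm
  obtain ⟨δ, hδ⟩ := (Normal.minpoly_eq_iff_mem_orbit (PadicAlgCl p)).mp hmin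
  refine ⟨δ, fun x => ?_⟩
  have h8 : (((δ : PadicAlgCl p →+* PadicAlgCl p).comp τ).toRatAlgHom : F →ₐ[ℚ] PadicAlgCl p) =
      τ'.toRatAlgHom :=
    (Field.primitive_element_iff_algHom_eq_of_eval ℚ (PadicAlgCl p)
      (fun _ => IsAlgClosed.splits _) θ _).1 hθ _ hδ
  exact DFunLike.congr_fun h8 x

variable {P : Ideal (𝓞 F)} {e : ℕ}

lemma norm_algebraMap_le_one (τ : F →+* PadicAlgCl p) (x : 𝓞 F) : ‖τ x‖ ≤ 1 :=
  norm_le_one_of_isIntegral p _ (x.isIntegral_coe.map τ.toIntAlgHom)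

lemma norm_p_lt_one : ‖(p : PadicAlgCl p)‖ < 1 := by
  have h4 : (p : PadicAlgCl p) = algebraMap ℚ_[p] (PadicAlgCl p) (p : ℚ_[p]) := by simp
  rw [h4, PadicAlgCl.norm_extends]
  exact Padic.norm_p_lt_one

lemma norm_p_pos : 0 < ‖(p : PadicAlgCl p)‖ := by
  rw [norm_pos_iff]
  exact_mod_cast hp.out.ne_zero

/-- The elements of the prime ideal over `p` have small absolute value. -/
lemma norm_of_mem (h : P ^ e = Ideal.span {(p : 𝓞 F)}) {x : 𝓞 F} (hx : x ∈ P)
    (τ : F →+* PadicAlgCl p) : ‖τ x‖ ^ e ≤ ‖(p : PadicAlgCl p)‖ := by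
  have h1 : x ^ e ∈ Ideal.span {(p : 𝓞 F)} := by
    rw [← h]
    exact Ideal.pow_mem_pow hx e
  obtain ⟨y, hy⟩ := Ideal.mem_span_singleton'.1 h1
  have h2 := congrArg (fun z : 𝓞 F => ‖τ z‖) hy
  simp only [map_mul, map_pow, map_natCast, norm_mul, norm_pow] at h2
  rw [← h2]
  exact mul_le_of_le_one_left (norm_nonneg _) (norm_algebraMap_le_one τ y)

/-- The elements outside the prime ideal over `p` have absolute value one. -/
lemma norm_of_not_mem (hP : P.IsPrime) (he : e ≠ 0) (h : P ^ e = Ideal.span {(p : 𝓞 F)})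
    {x : 𝓞 F} (hx : x ∉ P) (τ : F →+* PadicAlgCl p) : ‖τ x‖ = 1 := by
  have hPb : P ≠ ⊥ := by
    rintro rfl
    have h1 : (p : 𝓞 F) ∈ (⊥ : Ideal (𝓞 F)) ^ e := by
      rw [h]
      exact Ideal.mem_span_singleton_self _
    rw [← Ideal.zero_eq_bot, zero_pow he, Ideal.zero_eq_bot, Ideal.mem_bot] at h1
    exact hp.out.ne_zero (by exact_mod_cast h1)
  have hmax : P.IsMaximal := hP.isMaximal hPb
  obtain ⟨y, z, hz, hyz⟩ := hmax.exists_inv hx
  have h1 : ‖τ z‖ < 1 := by
    by_contra hcon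
    push Not at hcon
    have h2 := norm_of_mem h hz τ
    have h3 : 1 ≤ ‖τ z‖ ^ e := one_le_pow₀ hcon
    exact absurd (h3.trans h2) (not_le.2 norm_p_lt_one)
  have h4 := congrArg (fun z : 𝓞 F => τ z) hyz
  simp only [map_add, map_mul, map_one] at h4
  have h5 : ‖τ y‖ * ‖τ x‖ = 1 := by
    rw [← norm_mul]
    have h6 : τ y * τ x = 1 + (-τ z) := by linear_combination h4
    rw [h6]
    have h7 : ‖(1 : PadicAlgCl p)‖ ≠ ‖-τ z‖ := by
      rw [norm_one, norm_neg]
      exact h1.ne'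
    rw [IsUltrametricDist.norm_add_eq_max_of_norm_ne_norm h7, norm_one, norm_neg]
    exact max_eq_left h1.le
  refine le_antisymm (norm_algebraMap_le_one τ x) ?_
  rw [← h5]
  exact mul_le_of_le_one_left (norm_nonneg _) (norm_algebraMap_le_one τ y)

/-- **If `(p)` is a power of a prime ideal, then there is only one place over `p`.** -/
theorem onePlace_of_pow (hP : P.IsPrime) (he : e ≠ 0) (h : P ^ e = Ideal.span {(p : 𝓞 F)}) :
    OnePlace p F := by
  have hPb : P ≠ ⊥ := by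
    rintro rfl
    have h1 : (p : 𝓞 F) ∈ (⊥ : Ideal (𝓞 F)) ^ e := by
      rw [h]
      exact Ideal.mem_span_singleton_self _
    rw [← Ideal.zero_eq_bot, zero_pow he, Ideal.zero_eq_bot, Ideal.mem_bot] at h1
    exact hp.out.ne_zero (by exact_mod_cast h1)
  have hPp : Prime P := Ideal.prime_of_isPrime hPb hP
  have hp0 : (p : 𝓞 F) ≠ 0 := by exact_mod_cast hp.out.ne_zero
  have key : ∀ x : 𝓞 F, x ≠ 0 → ∃ (k : ℕ) (u : 𝓞 F), x ^ e = (p : 𝓞 F) ^ k * u ∧ u ∉ P := by
    intro x hx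
    have hx0 : Ideal.span {x} ≠ ⊥ := by rwa [Ne, Ideal.span_singleton_eq_bot]
    obtain ⟨J, hJ1, hJ2⟩ :=
      (FiniteMultiplicity.of_prime_left hPp hx0).exists_eq_pow_mul_and_not_dvd
    set k := multiplicity P (Ideal.span {x}) with hk
    have h1 : Ideal.span {x ^ e} = Ideal.span {(p : 𝓞 F) ^ k} * J ^ e := by
      rw [← Ideal.span_singleton_pow, ← Ideal.span_singleton_pow, ← h]
      calc Ideal.span {x} ^ e = (P ^ k * J) ^ e := by rw [← hJ1]
        _ = _ := by rw [mul_pow, ← pow_mul, ← pow_mul, mul_comm k e]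
    have h2 : x ^ e ∈ Ideal.span {(p : 𝓞 F) ^ k} := by
      have h3 : x ^ e ∈ Ideal.span {x ^ e} := Ideal.mem_span_singleton_self _
      rw [h1] at h3
      exact (Ideal.mul_le_left : Ideal.span {(p : 𝓞 F) ^ k} * J ^ e ≤ Ideal.span {(p : 𝓞 F) ^ k}) h3
    obtain ⟨u, hu⟩ := Ideal.mem_span_singleton'.1 h2
    refine ⟨k, u, by rw [← hu, mul_comm], fun huP => hJ2 ?_⟩
    have h4 : Ideal.span {(p : 𝓞 F) ^ k} * Ideal.span {u} =
        Ideal.span {(p : 𝓞 F) ^ k} * J ^ e := by
      rw [← h1, Ideal.span_singleton_mul_span_singleton, ← hu, mul_comm]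
    have h5 : Ideal.span {u} = J ^ e := by
      refine mul_left_cancel₀ ?_ h4
      rw [Ideal.zero_eq_bot, Ne, Ideal.span_singleton_eq_bot]
      exact pow_ne_zero _ hp0
    have h6 : P ∣ J ^ e := by
      rw [← h5, Ideal.dvd_span_singleton]
      exact huP
    exact hPp.dvd_of_dvd_pow h6
  have hnorm : ∀ (τ τ' : F →+* PadicAlgCl p) (x : 𝓞 F), ‖τ x‖ = ‖τ' x‖ := by
    intro τ τ' x
    by_cases hx : x = 0
    · rw [hx]
      simp
    obtain ⟨k, u, h1, h2⟩ := key x hx
    have h3 : ∀ σ : F →+* PadicAlgCl p, ‖σ x‖ ^ e = ‖(p : PadicAlgCl p)‖ ^ k := by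
      intro σ
      have h4 := congrArg (fun z : 𝓞 F => ‖σ z‖) h1
      simp only [map_mul, map_pow, map_natCast, norm_mul, norm_pow] at h4
      rw [h4, norm_of_not_mem hP he h h2 σ, mul_one]
    exact (pow_left_inj₀ (norm_nonneg _) (norm_nonneg _) he).1 ((h3 τ).trans (h3 τ').symm)
  refine onePlace_of_norm fun τ τ' x => ?_
  obtain ⟨a, b, hb, rfl⟩ := IsFractionRing.div_surjective (A := 𝓞 F) x
  rw [map_div₀, map_div₀, norm_div, norm_div]
  have ha := hnorm τ τ' a
  have hb := hnorm τ τ' b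
  change ‖τ (a : F)‖ / ‖τ (b : F)‖ = ‖τ' (a : F)‖ / ‖τ' (b : F)‖
  rw [ha, hb]

end Pool.Agent.V8H92.NS
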