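import Mathlib
import Pool.Agent.V8H92.NS.Place

/-!
# Slopes from the valuations of the traces, and powers
-/

set_option autoImplicit false
set_option linter.unusedSectionVars false

namespace Pool.Agent.V8H92.NS

open Module Polynomial NumberField

variable {p : ℕ} [hp : Fact p.Prime] {Ω : Type} [Field Ω] [IsAlgClosed Ω] [CharZero Ω]
  {F : Type} [Field F] [NumberField F] {j : F →+* Ω} {q m : ℕ}

/-- A `p`-adic conjugate of `α ^ n`, with the corresponding conjugate of `α`, and the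
corresponding embedding of `F`. -/
lemma exists_conj (j : F →+* Ω) {α : Ω} (hα : IsIntegral ℚ α) (n : ℕ) {x : PadicAlgCl p}
    (hx : aeval x (minpoly ℚ (α ^ n)) = 0) :
    ∃ (τ : F →+* PadicAlgCl p) (y : PadicAlgCl p), y ^ n = x ∧ aeval y (minpoly ℚ α) = 0 ∧
      ∀ N t, TraceEq j q N t α → TraceEq τ q N t y := by
  obtain ⟨L, _, _, _, i, ι, hi, hS⟩ := exists_model j {α} (Set.toFinite _) (by
    rintro x rfl
    exact hα)
  obtain ⟨a, ha⟩ := hS α rfl
  have h1 : minpoly ℚ (α ^ n) = minpoly ℚ (a ^ n) := by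
    rw [← ha, ← map_pow, minpoly_eq_of_hom]
  rw [h1] at hx
  obtain ⟨ρ, hρ⟩ := IntermediateField.exists_algHom_of_splits_of_aeval (F := ℚ) (E := L)
    (K := PadicAlgCl p) (fun s => ⟨Algebra.IsIntegral.isIntegral s, IsAlgClosed.splits _⟩) hx
  refine ⟨(ρ : L →+* PadicAlgCl p).comp i, ρ a, by rw [← map_pow, hρ], ?_, ?_⟩
  · have h2 : minpoly ℚ α = minpoly ℚ a := by rw [← ha, minpoly_eq_of_hom]
    rw [h2, Polynomial.aeval_algHom_apply, minpoly.aeval, map_zero]
  · intro N t h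
    have h3 : TraceEq i q N t a := by
      unfold TraceEq at h ⊢
      apply ι.injective
      rw [map_add, map_sub, map_mul, hi, map_pow, map_pow, map_pow, map_natCast, map_zero, ha]
      exact h
    unfold TraceEq at h3 ⊢
    have h4 := congrArg ρ h3
    rw [map_add, map_sub, map_mul, map_pow, map_pow, map_pow, map_natCast, map_zero] at h4
    exact h4

lemma norm_q_pos_pow (hqm : q = p ^ m) : 0 < ‖(q : PadicAlgCl p)‖ := by
  rw [hqm]
  push_cast
  rw [norm_pow]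
  exact pow_pos norm_p_pos m

/-- The valuation of the roots of `y ^ 2 - t y + Q`. -/
lemma slope_of_trace (hqm : q = p ^ m) (hm : 0 < m) {τ : F →+* PadicAlgCl p} {N : ℕ} (hN : 0 < N)
    {t : F} {x : PadicAlgCl p} (h : TraceEq τ q N t x) {s : ℝ}
    (ht : (τ t ≠ 0 ∧ ordq p q (τ t) = N * s) ∨ ‖τ t‖ ^ 2 ≤ ‖(q : PadicAlgCl p)‖ ^ N) :
    ordq p q x = s ∨ ordq p q x = 1 - s ∨ ordq p q x = 1 / 2 := by
  have hqpos := norm_q_pos_pow (p := p) hqm
  have hℓ := log_q_neg (p := p) hqm hm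
  have hNR : (0 : ℝ) < N := by exact_mod_cast hN
  set ℓ := Real.log ‖(q : PadicAlgCl p)‖ with hℓ'
  set y := x ^ N with hy
  set y' := τ t - y with hy'
  have hprod : y * y' = (q : PadicAlgCl p) ^ N := by
    unfold TraceEq at h
    rw [← hy] at h
    rw [hy']
    linear_combination -h
  have hsum : y + y' = τ t := by rw [hy']; ring
  have hy0 : y ≠ 0 := by
    intro h0
    rw [h0, zero_mul] at hprod
    have : (q : PadicAlgCl p) ≠ 0 := norm_pos_iff.1 hqpos
    exact pow_ne_zero N this hprod.symm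
  have hy0' : y' ≠ 0 := by
    intro h0
    rw [h0, mul_zero] at hprod
    have : (q : PadicAlgCl p) ≠ 0 := norm_pos_iff.1 hqpos
    exact pow_ne_zero N this hprod.symm
  have hyp : 0 < ‖y‖ := norm_pos_iff.2 hy0
  have hyp' : 0 < ‖y'‖ := norm_pos_iff.2 hy0'
  have hn : ‖y‖ * ‖y'‖ = ‖(q : PadicAlgCl p)‖ ^ N := by
    rw [← norm_mul, hprod, norm_pow]
  have hlog : Real.log ‖y‖ + Real.log ‖y'‖ = N * ℓ := by
    rw [← Real.log_mul hyp.ne' hyp'.ne', hn, Real.log_pow]
  have hlogy : Real.log ‖y‖ = N * Real.log ‖x‖ := by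
    rw [hy, norm_pow, Real.log_pow]
  unfold ordq at ht ⊢
  rw [← hℓ'] at ht ⊢
  rcases lt_trichotomy ‖y‖ ‖y'‖ with hlt | heq | hgt
  · have h1 : ‖τ t‖ = ‖y'‖ := by
      rw [← hsum, IsUltrametricDist.norm_add_eq_max_of_norm_ne_norm hlt.ne]
      exact max_eq_right hlt.le
    rcases ht with ⟨-, h2⟩ | h2
    · right; left
      rw [h1, div_eq_iff hℓ.ne] at h2
      rw [div_eq_iff hℓ.ne]
      have h3 : N * Real.log ‖x‖ = N * ((1 - s) * ℓ) := by
        rw [← hlogy]
        linear_combination hlog - h2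
      exact mul_left_cancel₀ hNR.ne' h3
    · exfalso
      rw [h1, ← hn] at h2
      nlinarith
  · right; right
    have h1 : N * Real.log ‖x‖ = N * (1 / 2 * ℓ) := by
      rw [← hlogy]
      rw [← heq] at hlog
      linear_combination hlog / 2
    rw [div_eq_iff hℓ.ne]
    exact mul_left_cancel₀ hNR.ne' h1
  · have h1 : ‖τ t‖ = ‖y‖ := by
      rw [← hsum, IsUltrametricDist.norm_add_eq_max_of_norm_ne_norm hgt.ne']
      exact max_eq_left hgt.le
    rcases ht with ⟨-, h2⟩ | h2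
    · left
      rw [h1, div_eq_iff hℓ.ne] at h2
      rw [div_eq_iff hℓ.ne]
      have h3 : N * Real.log ‖x‖ = N * (s * ℓ) := by
        rw [← hlogy]
        linear_combination h2
      exact mul_left_cancel₀ hNR.ne' h3
    · exfalso
      rw [h1, ← hn] at h2
      nlinarith

/-- Slopes from the valuations of the traces. -/
theorem slopesIn_of_trace (hqm : q = p ^ m) (hm : 0 < m) {N : ℕ} (hN : 0 < N) {t : F} {α : Ω}
    (hα : IsIntegral ℚ α) (h : TraceEq j q N t α) {s : ℝ}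
    (ht : ∀ τ : F →+* PadicAlgCl p, (τ t ≠ 0 ∧ ordq p q (τ t) = N * s) ∨
      ‖τ t‖ ^ 2 ≤ ‖(q : PadicAlgCl p)‖ ^ N) : SlopesIn p q s α := by
  intro x hx
  obtain ⟨τ, y, h1, -, h3⟩ := exists_conj (q := q) j hα 1 (x := x) (by rw [pow_one]; exact hx)
  rw [pow_one] at h1
  subst h1
  exact slope_of_trace hqm hm hN (h3 N t h) (ht τ)

/-- The slopes of powers. -/
theorem slopesIn_pow {n : ℕ} (hn : 0 < n) {α : Ω} (hα : IsIntegral ℚ α) {s : ℝ}
    (h : SlopesIn p q s α) : SlopesIn p (q ^ n) s (α ^ n) := by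
  intro x hx
  obtain ⟨-, y, h1, h2, -⟩ := exists_conj (F := ℚ) (q := q) (algebraMap ℚ Ω) hα n hx
  have h3 : ordq p (q ^ n) x = ordq p q y := by
    unfold ordq
    rw [← h1]
    push_cast
    rw [norm_pow, norm_pow, Real.log_pow, Real.log_pow]
    have : (n : ℝ) ≠ 0 := by exact_mod_cast hn.ne'
    rw [mul_div_mul_left _ _ this]
  rw [h3]
  exact h y h2

/-- The traces of the powers. -/
def tr {R : Type} [CommRing R] (t Q : R) : ℕ → R
  | 0 => 2
  | 1 => t
  | (n + 2) => t * tr t Q (n + 1) - Q * tr t Q n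

lemma tr_eq {R : Type} [CommRing R] {t Q y y' : R} (h1 : y + y' = t) (h2 : y * y' = Q) :
    ∀ n, tr t Q n = y ^ n + y' ^ n := by
  intro n
  induction n using Nat.strong_induction_on with
  | _ n ih =>
    match n with
    | 0 => simp only [tr, pow_zero]; norm_num
    | 1 => simp only [tr, pow_one]; exact h1.symm
    | (k + 2) =>
      rw [tr, ih (k + 1) (by omega), ih k (by omega), ← h1, ← h2]
      ring

lemma tr_map {R S : Type} [CommRing R] [CommRing S] (f : R →+* S) (t Q : R) :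
    ∀ n, f (tr t Q n) = tr (f t) (f Q) n := by
  intro n
  induction n using Nat.strong_induction_on with
  | _ n ih =>
    match n with
    | 0 => simp only [tr, map_ofNat]
    | 1 => simp only [tr]
    | (k + 2) =>
      rw [tr, tr, map_sub, map_mul, map_mul, ih (k + 1) (by omega), ih k (by omega)]

lemma tr_isIntegral {R : Type} [CommRing R] {t : R} (ht : IsIntegral ℤ t) (Q : ℕ) :
    ∀ n, IsIntegral ℤ (tr t (Q : R) n) := by
  intro n
  have hQ : IsIntegral ℤ (Q : R) := isIntegral_algebraMap (R := ℤ) (x := (Q : ℤ)) |> fun h => by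
    simpa using h
  induction n using Nat.strong_induction_on with
  | _ n ih =>
    match n with
    | 0 =>
      have : IsIntegral ℤ ((2 : ℤ) : R) := isIntegral_algebraMap (R := ℤ) (x := (2 : ℤ))
      simpa [tr] using this
    | 1 => exact ht
    | (k + 2) =>
      rw [tr]
      exact (ht.mul (ih (k + 1) (by omega))).sub (hQ.mul (ih k (by omega)))

lemma traceEq_pow {Ω' : Type} [Field Ω'] {j : F →+* Ω'} {N : ℕ} {t : F} {α : Ω'}
    (h : TraceEq j q N t α) (n : ℕ) :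
    TraceEq j (q ^ n) N (tr t ((q : F) ^ N) n) (α ^ n) := by
  unfold TraceEq at h ⊢
  have h1 := tr_eq (t := j t) (Q := (q : Ω') ^ N) (y := α ^ N) (y' := j t - α ^ N) (by ring)
    (by linear_combination -h) n
  rw [tr_map, map_pow, map_natCast, h1]
  push_cast
  have h2 : (α ^ N) ^ n * (j t - α ^ N) ^ n = ((q : Ω') ^ N) ^ n := by
    rw [← mul_pow]
    congr 1
    linear_combination -h
  have h3 : (α ^ n) ^ N = (α ^ N) ^ n := by rw [← pow_mul, ← pow_mul, mul_comm]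
  have h4 : ((q : Ω') ^ n) ^ N = ((q : Ω') ^ N) ^ n := by rw [← pow_mul, ← pow_mul, mul_comm]
  rw [h3, h4, ← h2]
  ring

lemma isTrace_pow {Q : ℕ} {t : F} (h : IsTrace Q t) (n : ℕ) :
    IsTrace (Q ^ n) (tr t (Q : F) n) := by
  refine ⟨tr_isIntegral h.1 Q n, fun φ => ?_⟩
  obtain ⟨x, hx, hx2⟩ := h.2 φ
  refine ⟨tr x (Q : ℝ) n, ?_, ?_⟩
  · rw [tr_map, hx, map_natCast]
    have := tr_map (Complex.ofRealHom) x (Q : ℝ) n
    simpa using this.symm
  · obtain ⟨y, hy⟩ : ∃ y : ℂ, y ^ 2 - (x : ℂ) * y + ((Q : ℝ) : ℂ) = 0 := by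
      obtain ⟨y, hy⟩ := IsAlgClosed.exists_root (X ^ 2 - C (x : ℂ) * X + C ((Q : ℝ) : ℂ) : ℂ[X]) (by
        have : (X ^ 2 - C (x : ℂ) * X + C ((Q : ℝ) : ℂ) : ℂ[X]).degree = 2 := by
          compute_degree!
        rw [this]
        norm_num)
      refine ⟨y, ?_⟩
      simpa [IsRoot] using hy
    have h1 : ‖y‖ ^ 2 = Q := norm_sq_of_real hy hx2
    have h2 : ‖(x : ℂ) - y‖ ^ 2 = Q := by
      refine norm_sq_of_real (t := x) ?_ hx2
      linear_combination hy
    have h3 := tr_eq (t := (x : ℂ)) (Q := ((Q : ℝ) : ℂ)) (y := y) (y' := (x : ℂ) - y) (by ring)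
      (by linear_combination -hy) n
    have h4 : ((tr x (Q : ℝ) n : ℝ) : ℂ) = tr (x : ℂ) ((Q : ℝ) : ℂ) n :=
      tr_map (Complex.ofRealHom) x (Q : ℝ) n
    have h5 : |tr x (Q : ℝ) n| ≤ ‖y‖ ^ n + ‖(x : ℂ) - y‖ ^ n := by
      rw [← Real.norm_eq_abs, ← Complex.norm_real, h4, h3]
      refine (norm_add_le _ _).trans ?_
      rw [norm_pow, norm_pow]
    have h6 : (‖y‖ ^ n) ^ 2 = (Q : ℝ) ^ n := by rw [← pow_mul, mul_comm, pow_mul, h1]
    have h7 : (‖(x : ℂ) - y‖ ^ n) ^ 2 = (Q : ℝ) ^ n := by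
      rw [← pow_mul, mul_comm, pow_mul, h2]
    have h8 := abs_nonneg (tr x (Q : ℝ) n)
    rw [← sq_abs]
    push_cast
    nlinarith [sq_nonneg (‖y‖ ^ n - ‖(x : ℂ) - y‖ ^ n), pow_nonneg (norm_nonneg y) n,
      pow_nonneg (norm_nonneg ((x : ℂ) - y)) n]

/-- Extension of the ground field. -/
theorem hasTrace_pow {α : Ω} (h : HasTrace j q α) (n : ℕ) : HasTrace j (q ^ n) (α ^ n) := by
  obtain ⟨N, t, hN, ht, h1⟩ := h
  refine ⟨N, tr t ((q : F) ^ N) n, hN, ?_, traceEq_pow h1 n⟩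
  have h2 := isTrace_pow ht n
  have h3 : (q ^ n) ^ N = (q ^ N) ^ n := by rw [← pow_mul, ← pow_mul, mul_comm]
  rw [h3]
  push_cast at h2
  exact h2

end Pool.Agent.V8H92.NS
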