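import Mathlib
import Pool.Agent.V8H92.NS.KlB
import Pool.Agent.V8H92.NS.Slopes

/-!
# The Frobenius eigenvalues of Kloosterman curves have traces in the field of `p`-th roots of unity
-/

set_option autoImplicit false
set_option linter.unusedSectionVars false

namespace Pool.Agent.V8H92.NS.KL

open Polynomial Finset Module NumberField
open Pool.Agent.H498R2.Kl

variable {p : ℕ} [hp : Fact p.Prime]

/-- The field of `p`-th roots of unity has one place over `p`. -/
lemma onePlace_cyclotomic : OnePlace p (CyclotomicField p ℚ) := by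
  have : NeZero p := ⟨hp.out.ne_zero⟩
  have : IsCyclotomicExtension {p} ℚ (CyclotomicField p ℚ) :=
    CyclotomicField.isCyclotomicExtension p ℚ
  have hζ := IsCyclotomicExtension.zeta_spec p ℚ (CyclotomicField p ℚ)
  have hP : (Ideal.span {hζ.toInteger - 1}).IsPrime := by
    rw [Ideal.span_singleton_prime hζ.zeta_sub_one_prime'.ne_zero]
    exact hζ.zeta_sub_one_prime'
  refine onePlace_of_pow hP (e := p - 1) (by have := hp.out.two_le; omega) ?_
  rw [Ideal.span_singleton_pow, Ideal.span_singleton_eq_span_singleton]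
  exact IsCyclotomicExtension.Rat.associated_zeta_sub_one_pow_prime p hζ

lemma root_norm {z : PadicAlgCl p} (hz : z ^ p = 1) : ‖z - 1‖ < 1 := by
  have hint : IsIntegral ℤ z := IsIntegral.of_pow hp.out.pos (by rw [hz]; exact isIntegral_one)
  let O := (Valued.v : Valuation (PadicAlgCl p) NNReal).integer
  have hO : ∀ x : PadicAlgCl p, ‖x‖ ≤ 1 → x ∈ O := by
    intro x hx
    change Valued.v x ≤ 1
    rw [← PadicAlgCl.valuation_coe p x] at hx
    exact_mod_cast hx
  have hO' : ∀ x : O, ‖(x : PadicAlgCl p)‖ ≤ 1 := by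
    intro x
    rw [← PadicAlgCl.valuation_coe p x]
    exact_mod_cast x.2
  let zO : O := ⟨z, hO z (norm_le_one_of_isIntegral p z hint)⟩
  obtain ⟨r, hr⟩ := exists_add_pow_prime_eq hp.out (zO - 1) 1
  have h1 := congrArg (Subtype.val) hr
  push_cast at h1
  have h2 : (z - 1) ^ p = -((p : PadicAlgCl p) * ((z - 1) * (r : PadicAlgCl p))) := by
    have h3 : (zO : PadicAlgCl p) = z := rfl
    rw [h3, sub_add_cancel, hz] at h1
    linear_combination -h1
  have h4 : ‖z - 1‖ ≤ 1 := by
    have := hO' (zO - 1)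
    push_cast at this
    exact this
  have h3 : ‖z - 1‖ ^ p < 1 := by
    rw [← norm_pow, h2, norm_neg, norm_mul, norm_mul]
    calc ‖(p : PadicAlgCl p)‖ * (‖z - 1‖ * ‖(r : PadicAlgCl p)‖) ≤
        ‖(p : PadicAlgCl p)‖ * (1 * 1) := by
          gcongr
          exact hO' r
      _ < 1 := by
          rw [mul_one, mul_one]
          exact norm_p_lt_one
  by_contra hcon
  push Not at hcon
  exact absurd (one_le_pow₀ hcon) (not_le.2 h3)

lemma norm_sum_lt {ι : Type} (s : Finset ι) (f : ι → PadicAlgCl p) (h : ∀ i ∈ s, ‖f i‖ < 1) :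
    ‖∑ i ∈ s, f i‖ < 1 := by
  classical
  induction s using Finset.induction_on with
  | empty => simp
  | insert i s hi ih =>
    rw [sum_insert hi]
    exact lt_of_le_of_lt (IsUltrametricDist.norm_add_le_max _ _)
      (max_lt (h i (mem_insert_self i s)) (ih fun j hj => h j (mem_insert_of_mem hj)))

variable {k : Type} [Field k] [Fintype k] [DecidableEq k]

/-- A character with values in the `p`-th roots of unity comes from the cyclotomic field. -/
lemma exists_char [CharP k p] (j : CyclotomicField p ℚ →+* ℂ) (ψ : AddChar k ℂ) :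
    ∃ χ : AddChar k (CyclotomicField p ℚ), ∀ x, j (χ x) = ψ x := by
  have : NeZero p := ⟨hp.out.ne_zero⟩
  have : IsCyclotomicExtension {p} ℚ (CyclotomicField p ℚ) :=
    CyclotomicField.isCyclotomicExtension p ℚ
  have hζ := IsCyclotomicExtension.zeta_spec p ℚ (CyclotomicField p ℚ)
  have hζ' : IsPrimitiveRoot (j (IsCyclotomicExtension.zeta p ℚ (CyclotomicField p ℚ))) p :=
    hζ.map_of_injective j.injective
  have h1 : ∀ x : k, ∃ y, j y = ψ x := by
    intro x
    have h2 : ψ x ^ p = 1 := by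
      rw [← AddChar.map_nsmul_eq_pow]
      have : p • x = 0 := by rw [nsmul_eq_mul, CharP.cast_eq_zero, zero_mul]
      rw [this, AddChar.map_zero_eq_one]
    obtain ⟨i, -, hi⟩ := hζ'.eq_pow_of_pow_eq_one h2
    exact ⟨_ ^ i, by rw [map_pow]; exact hi⟩
  choose u hu using h1
  refine ⟨⟨u, ?_, ?_⟩, hu⟩
  · apply j.injective
    rw [hu, AddChar.map_zero_eq_one, map_one]
  · intro x y
    apply j.injective
    rw [map_mul, hu, hu, hu, AddChar.map_add_eq_mul]

lemma pow_eq_one [CharP k p] {R : Type} [CommRing R] (χ : AddChar k R) (x : k) : χ x ^ p = 1 := by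
  rw [← AddChar.map_nsmul_eq_pow]
  have : p • x = 0 := by rw [nsmul_eq_mul, CharP.cast_eq_zero, zero_mul]
  rw [this, AddChar.map_zero_eq_one]

/-- The trace: a totally real integer in the cyclotomic field, with small conjugates, and prime to
`p`. -/
theorem exists_trace [CharP k p] (hp2 : p ≠ 2) (j : CyclotomicField p ℚ →+* ℂ)
    {ψ : AddChar k ℂ} (hψ : ψ ≠ 1) {a b : k} (ha : a ≠ 0) (hb : b ≠ 0) :
    ∃ t : CyclotomicField p ℚ, j t = -kl ψ a b ∧ IsTrace (Fintype.card k) t ∧
      ∀ τ : CyclotomicField p ℚ →+* PadicAlgCl p, ‖τ t‖ = 1 := by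
  obtain ⟨χ, hχ⟩ := exists_char j ψ
  have hsum : ∀ {R : Type} [CommRing R] (f : CyclotomicField p ℚ →+* R),
      f (-∑ x : kˣ, χ (a * (x : k) + b * ((x⁻¹ : kˣ) : k))) =
      -∑ x : kˣ, f (χ (a * (x : k) + b * ((x⁻¹ : kˣ) : k))) := by
    intro R _ f
    rw [map_neg, map_sum]
  refine ⟨-∑ x : kˣ, χ (a * (x : k) + b * ((x⁻¹ : kˣ) : k)), ?_, ⟨?_, ?_⟩, ?_⟩
  · rw [hsum]
    unfold kl
    simp_rw [hχ]
  · refine IsIntegral.neg (IsIntegral.sum _ fun x _ => ?_)
    exact IsIntegral.of_pow hp.out.pos (by rw [pow_eq_one]; exact isIntegral_one)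
  · intro φ
    set ψ' : AddChar k ℂ := (φ : CyclotomicField p ℚ →* ℂ).compAddChar χ with hψ'
    have hψ'x : ∀ x, φ (χ x) = ψ' x := fun x => rfl
    have hne : ψ' ≠ 1 := by
      rw [AddChar.ne_one_iff] at hψ ⊢
      obtain ⟨x, hx⟩ := hψ
      refine ⟨x, fun h => hx ?_⟩
      rw [← hψ'x] at h
      have h1 : χ x = 1 := φ.injective (by rw [h, map_one])
      rw [← hχ, h1, map_one]
    have hval : φ (-∑ x : kˣ, χ (a * (x : k) + b * ((x⁻¹ : kˣ) : k))) = -kl ψ' a b := by
      rw [hsum]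
      rfl
    have hreal : (starRingEnd ℂ) (kl ψ' a b) = kl ψ' a b := by
      unfold kl
      rw [map_sum]
      refine Fintype.sum_equiv (Equiv.neg kˣ) _ _ fun x => ?_
      rw [← AddChar.map_neg_eq_conj]
      congr 1
      simp only [Equiv.neg_apply, Units.val_neg, inv_neg]
      ring
    obtain ⟨r, hr⟩ := Complex.conj_eq_iff_real.1 hreal
    refine ⟨-r, by rw [hval, hr]; push_cast; rfl, ?_⟩
    have hF : ringChar k ≠ 2 := by
      rw [ringChar.eq k p]
      exact hp2
    have hbound := kloosterman_units_le hF (AddChar.IsPrimitive.of_ne_one hne) ha hb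
    change ‖kl ψ' a b‖ ≤ _ at hbound
    rw [hr, Complex.norm_real, Real.norm_eq_abs] at hbound
    have h1 := Real.sq_sqrt (show (0 : ℝ) ≤ Fintype.card k by positivity)
    have h2 : |r| ^ 2 ≤ (2 * Real.sqrt (Fintype.card k)) ^ 2 := by gcongr
    rw [sq_abs] at h2
    nlinarith
  · intro τ
    set ψ' : AddChar k (PadicAlgCl p) :=
      (τ : CyclotomicField p ℚ →* PadicAlgCl p).compAddChar χ with hψ'
    have hψ'x : ∀ x, τ (χ x) = ψ' x := fun x => rfl
    rw [hsum, norm_neg]
    simp_rw [hψ'x]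
    have h1 : ∑ x : kˣ, ψ' (a * (x : k) + b * ((x⁻¹ : kˣ) : k)) =
        -1 + ((∑ x : kˣ, (ψ' (a * (x : k) + b * ((x⁻¹ : kˣ) : k)) - 1)) +
          (Fintype.card k : PadicAlgCl p)) := by
      rw [sum_sub_distrib, sum_const, card_univ, Fintype.card_units, nsmul_eq_mul, mul_one,
        Nat.cast_sub (Nat.one_le_iff_ne_zero.2 Fintype.card_ne_zero)]
      push_cast
      ring
    have h2 : ‖(∑ x : kˣ, (ψ' (a * (x : k) + b * ((x⁻¹ : kˣ) : k)) - 1))‖ < 1 :=
      norm_sum_lt _ _ fun x _ => root_norm (pow_eq_one ψ' _)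
    have h3 : ‖(Fintype.card k : PadicAlgCl p)‖ < 1 := by
      obtain ⟨n, hn, hcard⟩ := FiniteField.card k p
      rw [hcard]
      push_cast
      rw [norm_pow]
      exact pow_lt_one₀ (norm_nonneg _) norm_p_lt_one n.ne_zero
    have h4 : ‖(∑ x : kˣ, (ψ' (a * (x : k) + b * ((x⁻¹ : kˣ) : k)) - 1)) +
        (Fintype.card k : PadicAlgCl p)‖ < 1 :=
      lt_of_le_of_lt (IsUltrametricDist.norm_add_le_max _ _) (max_lt h2 h3)
    have h5 : ‖(-1 : PadicAlgCl p)‖ = 1 := by rw [norm_neg, norm_one]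
    rw [h1, IsUltrametricDist.norm_add_eq_max_of_norm_ne_norm (by rw [h5]; exact h4.ne'), h5]
    exact max_eq_left h4.le

end Pool.Agent.V8H92.NS.KL
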