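import Mathlib
import Pool.Agent.V8H92.NS.KlC
import Pool.Agent.V8H92.NS.Crit

/-!
# Products of Kloosterman curves, elliptic curves and supersingular abelian varieties
-/

set_option autoImplicit false
set_option linter.unusedSectionVars false

namespace Pool.Agent.V8H92.NS

open Module ExteriorAlgebra TensorProduct NumberField

section general

variable {p : ℕ} [hp : Fact p.Prime] {Ω : Type} [Field Ω] [IsAlgClosed Ω] [CharZero Ω]
  {F : Type} [Field F] [NumberField F] {j : F →+* Ω} {q m : ℕ}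

/-- The case of equal slopes. -/
theorem times_of_slopes (hF : OnePlace p F) (hqm : q = p ^ m) (hm : 0 < m) {E : Set Ω}
    (hE : ∀ α ∈ E, HasTrace j q α) {e : ℝ} (he : e < 1 / 2) (hsl : ∀ α ∈ E, SlopesIn p q e α)
    {V M : Type} [AddCommGroup V] [Module Ω V] [AddCommGroup M] [Module Ω M]
    [FiniteDimensional Ω M] (Fr : V →ₗ[Ω] V)
    (hFr : Submodule.span Ω {v : V | ∃ μ ∈ E, Fr v = μ • v} = ⊤) (φ : M →ₗ[Ω] M) {w : ℕ}
    (hφ : ∀ β : Ω, β ≠ 0 → End.HasEigenvalue φ β → IsIntegral ℚ β ∧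
      meanSquare p q w β < (1 - 2 * e) ^ 2) : TimesTate Fr φ q w := by
  intro n c s r x hs hc hx hxT
  -- we may replace `E` by the set of eigenvalues in `E`
  set E' : Set Ω := {μ | μ ∈ E ∧ End.HasEigenvalue Fr μ} with hE'
  have hFr' : Submodule.span Ω {v : V | ∃ μ ∈ E', Fr v = μ • v} = ⊤ := by
    rw [eq_top_iff, ← hFr]
    refine Submodule.span_le.2 ?_
    rintro v ⟨μ, hμ, hv⟩
    by_cases h0 : v = 0
    · rw [h0]
      exact Submodule.zero_mem _
    · refine Submodule.subset_span ⟨μ, ⟨hμ, ?_⟩, hv⟩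
      exact End.hasEigenvalue_of_hasEigenvector ⟨End.mem_eigenspace_iff.2 hv, h0⟩
  have hE1 : ∀ α ∈ E', HasTrace j q α := fun α hα => hE α hα.1
  have hsl1 : ∀ α ∈ E', SlopesIn p q e α := fun α hα => hsl α hα.1
  have h := tate_times (j := j) hF hqm hm hE1 (pairwiseTate_of_slopes hqm hm hE1 he hsl1) Fr hFr' φ
    (w := w) (e := e) (fun β hβ hβ' => ⟨(hφ β hβ hβ').1, Or.inr ⟨he, hsl1, (hφ β hβ hβ').2⟩⟩)
    hs hc hx hxT
  refine ⟨h.1, fun k hk hno => h.2 k hk fun α hα β hβ t ht h1 => hno α β hα.2 hβ t ht h1⟩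

/-- Numbers with small denominators of slopes. -/
theorem slopes_of_small (hqm : q = p ^ m) (hm : 0 < m) {P : Ideal (𝓞 F)} {e : ℕ}
    (hP : P.IsPrime) (he : e ≠ 0) (h : P ^ e = Ideal.span {(p : 𝓞 F)}) (hem : e * m ≤ 2)
    {t : F} (ht : IsTrace q t) {α : Ω} (hα : TraceEq j q 1 t α) : SlopesIn p q 0 α := by
  have hint : IsIntegral ℚ α := (isIntegral_of_trace (q := q) one_pos hα ht.1).tower_top
  refine slopesIn_of_trace hqm hm one_pos hint hα fun τ => ?_
  obtain ⟨t', ht'⟩ : ∃ t' : 𝓞 F, (t' : F) = t := ⟨⟨t, ht.1⟩, rfl⟩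
  by_cases hmem : t' ∈ P
  · right
    have h1 := norm_of_mem h hmem τ
    rw [ht'] at h1
    have h2 : ‖(q : PadicAlgCl p)‖ = ‖(p : PadicAlgCl p)‖ ^ m := by
      rw [hqm]
      push_cast
      rw [norm_pow]
    have h3 := norm_p_lt_one (p := p)
    have h4 := norm_nonneg (p : PadicAlgCl p)
    have h5 := norm_nonneg (τ t)
    rw [h2, pow_one]
    have he1 : 1 ≤ e := Nat.one_le_iff_ne_zero.2 he
    have hm1 : 1 ≤ m := hm
    have he2 : e ≤ 2 := by nlinarith
    have hm2 : m ≤ 2 := by nlinarith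
    interval_cases e <;> interval_cases m
    · nlinarith
    · rw [pow_one] at h1
      gcongr
    · rw [pow_one]
      exact h1
    · omega
  · left
    have h1 := norm_of_not_mem hP he h hmem τ
    rw [ht'] at h1
    refine ⟨norm_pos_iff.1 (by rw [h1]; exact one_pos), ?_⟩
    unfold ordq
    rw [h1, Real.log_one, zero_div, mul_zero]

lemma isIntegral_nat {R : Type} [CommRing R] (n : ℕ) : IsIntegral ℤ (n : R) := by
  have h := isIntegral_algebraMap (R := ℤ) (A := R) (x := (n : ℤ))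
  simpa using h

/-- Semisimple endomorphisms. -/
lemma span_of_semisimple {K W : Type} [Field K] [IsAlgClosed K] [AddCommGroup W] [Module K W]
    [FiniteDimensional K W] {Φ : W →ₗ[K] W} (h : Module.End.IsSemisimple Φ) {E : Set K}
    (hE : ∀ μ, End.HasEigenvalue Φ μ → μ ∈ E) :
    Submodule.span K {v : W | ∃ μ ∈ E, Φ v = μ • v} = ⊤ := by
  rw [eq_top_iff, ← h.iSup_eigenspace_eq_top]
  refine iSup_le fun μ => ?_
  intro v hv
  by_cases h0 : v = 0
  · rw [h0]
    exact Submodule.zero_mem _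
  · exact Submodule.subset_span ⟨μ, hE μ (End.hasEigenvalue_of_hasEigenvector ⟨hv, h0⟩),
      End.mem_eigenspace_iff.1 hv⟩

lemma span_sumFrob {K ι : Type} [Fintype ι] {W : ι → Type} [Field K] [∀ i, AddCommGroup (W i)]
    [∀ i, Module K (W i)] (Φ : ∀ i, W i →ₗ[K] W i) (N : ι → ℕ) {E' : ι → Set K} {E : Set K}
    (h : ∀ i, Submodule.span K {v : W i | ∃ μ ∈ E' i, Φ i v = μ • v} = ⊤)
    (hE : ∀ i, ∀ μ ∈ E' i, μ ^ N i ∈ E) :
    Submodule.span K {v : ∀ i, W i | ∃ μ ∈ E, sumFrob Φ N v = μ • v} = ⊤ := by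
  classical
  rw [eq_top_iff]
  intro v _
  have h1 : v = ∑ i, LinearMap.single K W i (v i) := by
    funext i
    rw [Finset.sum_apply, Finset.sum_eq_single i]
    · exact (Pi.single_eq_same i (v i)).symm
    · intro i' _ hne
      exact Pi.single_eq_of_ne hne.symm (v i')
    · intro hi
      exact absurd (Finset.mem_univ i) hi
  rw [h1]
  refine Submodule.sum_mem _ fun i _ => ?_
  have h2 : v i ∈ Submodule.span K {v : W i | ∃ μ ∈ E' i, Φ i v = μ • v} := by
    rw [h i]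
    exact Submodule.mem_top
  have h3 := Submodule.mem_map_of_mem (f := LinearMap.single K W i) h2
  rw [Submodule.map_span] at h3
  refine (Submodule.span_le.2 ?_) h3
  rintro _ ⟨u, ⟨μ, hμ, hu⟩, rfl⟩
  refine Submodule.subset_span ⟨μ ^ N i, hE i μ hμ, ?_⟩
  have hpow : ∀ n : ℕ, (Φ i ^ n) u = μ ^ n • u := by
    intro n
    induction n with
    | zero => simp
    | succ n ih => rw [pow_succ', Module.End.mul_apply, ih, map_smul, hu, smul_smul, pow_succ]
  funext i'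
  change (Φ i' ^ N i') (Pi.single i u i') = μ ^ N i • (Pi.single i u : ∀ i, W i) i'
  by_cases hi : i' = i
  · subst hi
    rw [Pi.single_eq_same, hpow]
  · rw [Pi.single_eq_of_ne hi, map_zero, smul_zero]

end general

section curves

variable {p : ℕ} [hp : Fact p.Prime]

lemma eigen_of_trace {n m : ℕ} (hn : n = p ^ m) (hm : 0 < m)
    {j : CyclotomicField p ℚ →+* ℂ} {N : ℕ} (hN : 0 < N) {t : CyclotomicField p ℚ} {μ : ℂ}
    (ht : IsTrace (n ^ N) t) (h : TraceEq j n N t μ)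
    (hτ : ∀ τ : CyclotomicField p ℚ →+* PadicAlgCl p,
      ‖τ t‖ = 1 ∨ ‖τ t‖ ^ 2 ≤ ‖(n : PadicAlgCl p)‖ ^ N) :
    HasTrace j n μ ∧ SlopesIn p n 0 μ := by
  have hint : IsIntegral ℚ μ := (isIntegral_of_trace (q := n) hN h ht.1).tower_top
  refine ⟨⟨N, t, hN, ht, h⟩, slopesIn_of_trace hn hm hN hint h fun τ => ?_⟩
  rcases hτ τ with h1 | h1
  · left
    refine ⟨norm_pos_iff.1 (by rw [h1]; exact one_pos), ?_⟩
    unfold ordq
    rw [h1, Real.log_one, zero_div, mul_zero]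
  · right
    exact h1

/-- The eigenvalues of the pieces. -/
theorem eigen_piece (hp2 : p ≠ 2) {n m : ℕ} (hn : n = p ^ m) (hm : 0 < m)
    (j : CyclotomicField p ℚ →+* ℂ) {W : Type} [AddCommGroup W] [Module ℂ W]
    [FiniteDimensional ℂ W] {Φ : W →ₗ[ℂ] W} (h : IsPiece p n Φ) :
    Module.End.IsSemisimple Φ ∧
      ∀ μ, End.HasEigenvalue Φ μ → HasTrace j n μ ∧ SlopesIn p n 0 μ := by
  classical
  rcases h with ⟨k, _, _, a, b, hk, hcard, ha, hb, h⟩ | ⟨hs, t, ht1, ht2, h⟩ | ⟨hs, M, hM, h⟩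
  · refine ⟨h.semisimple, fun μ hμ => ?_⟩
    obtain ⟨ψ, hψ⟩ : ∃ ψ : AddChar k ℂ, ψ ≠ 1 := by
      obtain ⟨ψ, hψ⟩ := AddChar.exists_apply_ne_zero.2 (one_ne_zero (α := k))
      exact ⟨ψ, AddChar.ne_one_iff.2 ⟨1, hψ⟩⟩
    obtain ⟨c, hc, h1⟩ := KL.eigenvalue_kl ha hb h hψ hμ
    obtain ⟨t, ht1, ht2, ht3⟩ := KL.exists_trace hp2 j hψ (mul_ne_zero hc ha) (mul_ne_zero hc hb)
    refine eigen_of_trace hn hm one_pos (t := t) ?_ ?_ fun τ => Or.inl (ht3 τ)
    · rw [pow_one, ← hcard]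
      exact ht2
    · unfold TraceEq
      rw [ht1, ← hcard, pow_one, pow_one]
      linear_combination h1
  · refine ⟨hs, fun μ hμ => ?_⟩
    obtain ⟨v, hv⟩ := hμ.exists_hasEigenvector
    have h1 := h v
    rw [hv.apply_eq_smul, map_smul, hv.apply_eq_smul, smul_smul, smul_smul, ← sub_smul,
      ← add_smul, smul_eq_zero] at h1
    have h2 := h1.resolve_right hv.2
    refine eigen_of_trace hn hm one_pos (t := (t : CyclotomicField p ℚ)) ⟨?_, ?_⟩ ?_
      fun τ => Or.inl ?_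
    · exact isIntegral_algebraMap (R := ℤ) (x := t)
    · intro φ
      refine ⟨t, by rw [map_intCast]; simp, ?_⟩
      rw [pow_one]
      exact_mod_cast ht1
    · unfold TraceEq
      rw [map_intCast]
      linear_combination h2
    · rw [map_intCast]
      have h3 : (t : PadicAlgCl p) = algebraMap ℚ_[p] (PadicAlgCl p) (t : ℚ_[p]) := by simp
      rw [h3, PadicAlgCl.norm_extends]
      refine le_antisymm (Padic.norm_int_le_one t) ?_
      by_contra hcon
      push Not at hcon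
      exact ht2 (Padic.norm_intCast_lt_one_iff.1 hcon)
  · refine ⟨hs, fun μ hμ => ?_⟩
    obtain ⟨v, hv⟩ := hμ.exists_hasEigenvector
    have hpow : ∀ i : ℕ, (Φ ^ i) v = μ ^ i • v := by
      intro i
      induction i with
      | zero => simp
      | succ i ih =>
        rw [pow_succ', Module.End.mul_apply, ih, map_smul, hv.apply_eq_smul, smul_smul, pow_succ]
    have h1 := h v
    rw [hpow] at h1
    have h2 : (μ ^ (2 * M) - (n : ℂ) ^ M) • v = 0 := by rw [sub_smul, h1, sub_self]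
    have h3 := sub_eq_zero.1 ((smul_eq_zero.1 h2).resolve_right hv.2)
    refine eigen_of_trace hn hm (N := 2 * M) (by omega)
      (t := ((2 * n ^ M : ℕ) : CyclotomicField p ℚ)) ⟨?_, ?_⟩ ?_ fun τ => Or.inr ?_
    · exact isIntegral_nat (2 * n ^ M)
    · intro φ
      refine ⟨2 * (n : ℝ) ^ M, by rw [map_natCast]; push_cast; rfl, ?_⟩
      push_cast
      have : (2 * (n : ℝ) ^ M) ^ 2 = 4 * (n : ℝ) ^ (2 * M) := by rw [mul_pow, ← pow_mul]; ring_nf
      exact this.le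
    · unfold TraceEq
      rw [map_natCast, h3]
      push_cast
      ring
    · rw [map_natCast]
      push_cast
      rw [norm_mul, norm_pow, mul_pow, ← pow_mul, mul_comm M 2]
      have h4 : ‖(2 : PadicAlgCl p)‖ ≤ 1 := by
        have := norm_le_one_of_isIntegral p (2 : PadicAlgCl p) (by
          have := isIntegral_algebraMap (R := ℤ) (A := PadicAlgCl p) (x := (2 : ℤ))
          simpa using this)
        exact this
      have h5 : ‖(2 : PadicAlgCl p)‖ ^ 2 ≤ 1 := pow_le_one₀ (norm_nonneg _) h4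
      exact mul_le_of_le_one_left (by positivity) h5

/-- **Products of Kloosterman curves, elliptic curves and supersingular abelian varieties.** -/
theorem curves (hp2 : p ≠ 2) {ι : Type} [Fintype ι] (W : ι → Type) [∀ i, AddCommGroup (W i)]
    [∀ i, Module ℂ (W i)] [∀ i, FiniteDimensional ℂ (W i)] (Φ : ∀ i, W i →ₗ[ℂ] W i)
    (n N : ι → ℕ) {Q m : ℕ} (hQ : Q = p ^ m) (hm : 0 < m) (hN : ∀ i, 0 < N i)
    (hnN : ∀ i, n i ^ N i = Q) (hΦ : ∀ i, IsPiece p (n i) (Φ i)) :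
    TateGenerated (sumFrob Φ N) Q ∧
    ∀ (M : Type) [AddCommGroup M] [Module ℂ M] [FiniteDimensional ℂ M] (φ : M →ₗ[ℂ] M) (w : ℕ),
      (∀ β : ℂ, β ≠ 0 → End.HasEigenvalue φ β → IsIntegral ℚ β ∧ meanSquare p Q w β < 1) →
      TimesTate (sumFrob Φ N) φ Q w := by
  obtain ⟨j⟩ : Nonempty (CyclotomicField p ℚ →+* ℂ) :=
    ⟨(IsAlgClosed.lift : CyclotomicField p ℚ →ₐ[ℚ] ℂ)⟩
  have hn : ∀ i, ∃ m' : ℕ, 0 < m' ∧ n i = p ^ m' := by
    intro i
    have h1 : n i ∣ p ^ m := by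
      rw [← hQ, ← hnN i]
      exact dvd_pow_self _ (hN i).ne'
    obtain ⟨m', -, h2⟩ := (Nat.dvd_prime_pow hp.out).1 h1
    refine ⟨m', ?_, h2⟩
    rcases Nat.eq_zero_or_pos m' with h3 | h3
    · exfalso
      rw [h3, pow_zero] at h2
      have h4 := hnN i
      rw [h2, one_pow, hQ] at h4
      have h5 : 1 < p ^ m := Nat.one_lt_pow hm.ne' hp.out.one_lt
      omega
    · exact h3
  choose m' hm' hn' using hn
  set E : Set ℂ := {μ | HasTrace j Q μ ∧ SlopesIn p Q 0 μ} with hE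
  have hspan : Submodule.span ℂ {v : ∀ i, W i | ∃ μ ∈ E, sumFrob Φ N v = μ • v} = ⊤ := by
    refine span_sumFrob Φ N (E' := fun i => {μ | HasTrace j (n i) μ ∧ SlopesIn p (n i) 0 μ})
      (fun i => ?_) fun i μ hμ => ?_
    · obtain ⟨h1, h2⟩ := eigen_piece hp2 (hn' i) (hm' i) j (hΦ i)
      exact span_of_semisimple h1 h2
    · rw [hE, ← hnN i]
      exact ⟨hasTrace_pow hμ.1 (N i), slopesIn_pow (hN i) (isIntegral_of_hasTrace hμ.1) hμ.2⟩
  have hE1 : ∀ α ∈ E, HasTrace j Q α := fun α hα => hα.1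
  have hE2 : ∀ α ∈ E, SlopesIn p Q 0 α := fun α hα => hα.2
  refine ⟨tate_generated KL.onePlace_cyclotomic hQ hm hE1
    (pairwiseTate_of_slopes hQ hm hE1 (by norm_num) hE2) _ hspan, ?_⟩
  intro M _ _ _ φ w hφ
  refine times_of_slopes KL.onePlace_cyclotomic hQ hm hE1 (e := 0) (by norm_num) hE2 _ hspan φ ?_
  intro β h1 h2
  refine ⟨(hφ β h1 h2).1, ?_⟩
  have := (hφ β h1 h2).2
  norm_num
  exact this

end curves

end Pool.Agent.V8H92.NS
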